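import Mathlib

/-!
# Riccati recursion for the corona problem on the ball of `ℂ^(d+1)`: definitions and basic facts
-/

set_option autoImplicit false

open Complex MeasureTheory Set Filter Topology
open scoped ENNReal

namespace Pool.Agent.N290.RJ

/-- `ℂ^(d+1)` -/
abbrev E (d : ℕ) : Type := ℂ × (Fin d → ℂ)

noncomputable section

variable {d : ℕ}

/-- squared euclidean norm -/
def N (z : E d) : ℝ := ‖z.1‖ ^ 2 + ∑ i, ‖z.2 i‖ ^ 2

/-- euclidean norm -/
def nm (z : E d) : ℝ := Real.sqrt (N z)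

/-- hermitian inner product -/
def ip (z w : E d) : ℂ := z.1 * starRingEnd ℂ w.1 + ∑ i, z.2 i * starRingEnd ℂ (w.2 i)

/-- the open unit ball -/
def B (d : ℕ) : Set (E d) := {z | N z < 1}

/-- squared length of `ξ` at `z` in the invariant metric -/
def len2 (z ξ : E d) : ℝ := N ξ / (1 - N z) + ‖ip ξ z‖ ^ 2 / (1 - N z) ^ 2

/-- length of `ξ` at `z` in the invariant metric -/
def len (z ξ : E d) : ℝ := Real.sqrt (len2 z ξ)

/-- `|1 - ⟨z, w⟩|² - (1 - |z|²) (1 - |w|²)` -/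
def Dl (z w : E d) : ℝ := ‖1 - ip z w‖ ^ 2 - (1 - N z) * (1 - N w)

/-- the `∂̄`-derivative of `γ` at `z` in direction `ξ` -/
def db (γ : E d → ℂ) (z ξ : E d) : ℂ := (fderiv ℝ γ z ξ + I * fderiv ℝ γ z (I • ξ)) / 2

/-- the `∂`-derivative of `γ` at `z` in direction `ξ` -/
def dd (γ : E d → ℂ) (z ξ : E d) : ℂ := (fderiv ℝ γ z ξ - I * fderiv ℝ γ z (I • ξ)) / 2

/-- the `∂̄`-derivative in one variable -/
def db1 (γ : ℂ → ℂ) (z : ℂ) : ℂ := (fderiv ℝ γ z 1 + I * fderiv ℝ γ z I) / 2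

/-- the radii `1 - 2 ^ (-k)` -/
def rad (k : ℕ) : ℝ := 1 - (1 / 2) ^ k

/-- the kernel `|1 - ⟨z,w⟩|^(d-1) Δ(z,w)^(-(2d+1)/2)` -/
def ker (z w : E d) : ℝ :=
  ‖1 - ip z w‖ ^ d / (‖1 - ip z w‖ * Real.sqrt (Dl z w) ^ (2 * d + 1))

/-- the involution of the ball which exchanges `0` and `(x, 0)` -/
def Ph (x : ℝ) (ξ : E d) : E d :=
  ((x - ξ.1) / (1 - x * ξ.1), (-(Real.sqrt (1 - x ^ 2) : ℂ) / (1 - x * ξ.1)) • ξ.2)

/-- its derivative -/
def dPh (x : ℝ) (ξ η : E d) : E d :=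
  (-((1 - x ^ 2) * η.1) / (1 - x * ξ.1) ^ 2,
    (-(Real.sqrt (1 - x ^ 2) : ℂ) / (1 - x * ξ.1)) • η.2 +
      (-(Real.sqrt (1 - x ^ 2) : ℂ) * (x * η.1) / (1 - x * ξ.1) ^ 2) • ξ.2)

/-- unitary maps -/
def IsU (U : E d →L[ℂ] E d) : Prop := ∀ ξ, N (U ξ) = N ξ

theorem N_nonneg (z : E d) : 0 ≤ N z := by unfold N; positivity

theorem nm_nonneg (z : E d) : 0 ≤ nm z := Real.sqrt_nonneg _

theorem nm_sq (z : E d) : nm z ^ 2 = N z := Real.sq_sqrt (N_nonneg z)

theorem N_zero : N (0 : E d) = 0 := by simp [N]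

theorem N_smul (t : ℝ) (z : E d) : N (t • z) = t ^ 2 * N z := by
  simp only [N, Prod.smul_fst, Prod.smul_snd, Pi.smul_apply, norm_smul, Real.norm_eq_abs, mul_pow,
    sq_abs, mul_add, Finset.mul_sum]

theorem N_smulc (t : ℂ) (z : E d) : N (t • z) = ‖t‖ ^ 2 * N z := by
  simp only [N, Prod.smul_fst, Prod.smul_snd, Pi.smul_apply, norm_smul, mul_pow, mul_add,
    Finset.mul_sum]

theorem nm_smul (t : ℝ) (ht : 0 ≤ t) (z : E d) : nm (t • z) = t * nm z := by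
  rw [nm, N_smul, Real.sqrt_mul (sq_nonneg t), Real.sqrt_sq ht, nm]

theorem N_continuous : Continuous (N : E d → ℝ) := by unfold N; fun_prop

theorem B_open : IsOpen (B d) := isOpen_lt N_continuous continuous_const

theorem B_meas : MeasurableSet (B d) := B_open.measurableSet

theorem mem_B {z : E d} : z ∈ B d ↔ N z < 1 := Iff.rfl

theorem zero_mem_B : (0 : E d) ∈ B d := by rw [mem_B, N_zero]; norm_num

theorem mem_B_nm {z : E d} : z ∈ B d ↔ nm z < 1 := by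
  rw [mem_B, nm, Real.sqrt_lt' one_pos, one_pow]

theorem smul_mem_B {z : E d} (hz : z ∈ B d) {t : ℝ} (h0 : 0 ≤ t) (h1 : t ≤ 1) : t • z ∈ B d := by
  rw [mem_B, N_smul]
  have h2 : t ^ 2 ≤ 1 := pow_le_one₀ h0 h1
  have h3 := N_nonneg z
  have h4 : N z < 1 := hz
  nlinarith

theorem len_nonneg (z ξ : E d) : 0 ≤ len z ξ := Real.sqrt_nonneg _

theorem len2_nonneg {z : E d} (hz : z ∈ B d) (ξ : E d) : 0 ≤ len2 z ξ := by
  have h : 0 < 1 - N z := sub_pos.2 hz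
  have := N_nonneg ξ
  unfold len2; positivity

theorem len_sq {z : E d} (hz : z ∈ B d) (ξ : E d) : len z ξ ^ 2 = len2 z ξ :=
  Real.sq_sqrt (len2_nonneg hz ξ)

theorem mulconj (a : ℂ) : a * starRingEnd ℂ a = ((‖a‖ ^ 2 : ℝ) : ℂ) := by
  rw [Complex.mul_conj, Complex.normSq_eq_norm_sq]

theorem ip_self (z : E d) : ip z z = (N z : ℂ) := by
  unfold ip N
  simp only [mulconj]
  push_cast; rfl

theorem ip_smul_left (t : ℂ) (z w : E d) : ip (t • z) w = t * ip z w := by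
  simp only [ip, Prod.smul_fst, Prod.smul_snd, Pi.smul_apply, smul_eq_mul, mul_add, Finset.mul_sum,
    mul_assoc]

theorem ip_add_left (z z' w : E d) : ip (z + z') w = ip z w + ip z' w := by
  simp only [ip, Prod.fst_add, Prod.snd_add, Pi.add_apply, add_mul, Finset.sum_add_distrib]
  ring

theorem ip_conj (z w : E d) : starRingEnd ℂ (ip z w) = ip w z := by
  simp only [ip, map_add, map_mul, map_sum, Complex.conj_conj]
  congr 1
  · ring
  · exact Finset.sum_congr rfl fun i _ => by ring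

theorem ip_continuous : Continuous (fun p : E d × E d => ip p.1 p.2) := by
  unfold ip
  have hc : Continuous (starRingEnd ℂ : ℂ → ℂ) := Complex.continuous_conj
  fun_prop

theorem len_smulc {z : E d} (t : ℂ) (ξ : E d) : len z (t • ξ) = ‖t‖ * len z ξ := by
  unfold len len2
  rw [N_smulc, ip_smul_left, norm_mul]
  have : ‖t‖ ^ 2 * N ξ / (1 - N z) + (‖t‖ * ‖ip ξ z‖) ^ 2 / (1 - N z) ^ 2 =
      ‖t‖ ^ 2 * (N ξ / (1 - N z) + ‖ip ξ z‖ ^ 2 / (1 - N z) ^ 2) := by ring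
  rw [this, Real.sqrt_mul (sq_nonneg _), Real.sqrt_sq (norm_nonneg _)]

theorem len_I (z ξ : E d) : len z (I • ξ) = len z ξ := by
  rw [len_smulc, Complex.norm_I, one_mul]

theorem len_smul {z : E d} {t : ℝ} (ht : 0 ≤ t) (ξ : E d) : len z (t • ξ) = t * len z ξ := by
  have h : t • ξ = (t : ℂ) • ξ := by
    ext <;> simp
  rw [h, len_smulc, Complex.norm_real, Real.norm_eq_abs, abs_of_nonneg ht]

theorem rad_nonneg (k : ℕ) : 0 ≤ rad k := by
  unfold rad
  have : (1 / 2 : ℝ) ^ k ≤ 1 := pow_le_one₀ (by norm_num) (by norm_num)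
  linarith

theorem rad_lt_one (k : ℕ) : rad k < 1 := by
  unfold rad
  have : (0 : ℝ) < (1 / 2 : ℝ) ^ k := by positivity
  linarith

theorem ker_nonneg (z w : E d) : 0 ≤ ker z w := by
  unfold ker; positivity

end

end Pool.Agent.N290.RJ
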