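import Mathlib
import Pool.Agent.N290.RJ.Defs

/-!
# Riccati recursion for the corona problem on the ball of `ℂ^(d+1)`: statements of the parts
-/

set_option autoImplicit false

open Complex MeasureTheory Set Filter Topology
open scoped ENNReal

namespace Pool.Agent.N290.RJ

/-- one-variable lemma -/
def C1 (d : ℕ) : Prop := ∀ (Γ : ℂ → ℂ) (ρ M : ℝ), 0 < ρ → ContDiffOn ℝ 1 Γ (Metric.ball 0 ρ) →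
  (∀ τ ∈ Metric.ball (0 : ℂ) ρ, ‖Γ τ‖ ≤ M) →
  ENNReal.ofReal ‖∫ τ in Metric.ball (0 : ℂ) ρ, ((‖τ‖ ^ (2 * d) : ℝ) : ℂ) * (Γ τ - Γ 0)‖ ≤
    ∫⁻ τ in Metric.ball (0 : ℂ) ρ,
      ENNReal.ofReal (‖db1 Γ τ‖ * (ρ ^ (2 * d) * (ρ ^ 2 - ‖τ‖ ^ 2) / ‖τ‖))

/-- slices, nonnegative functions -/
def C2a (d : ℕ) : Prop := ∀ F : E d → ℝ≥0∞, Measurable F →
  ∫⁻ ξ in B d, F ξ = ∫⁻ s : Fin d → ℂ,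
    ∫⁻ τ in Metric.ball (0 : ℂ) (Real.sqrt (1 + ∑ i, ‖s i‖ ^ 2))⁻¹,
      ENNReal.ofReal (‖τ‖ ^ (2 * d)) * F (τ, τ • s)

/-- slices, integrable functions -/
def C2b (d : ℕ) : Prop := ∀ F : E d → ℂ, IntegrableOn F (B d) →
  ∫ ξ in B d, F ξ = ∫ s : Fin d → ℂ,
    ∫ τ in Metric.ball (0 : ℂ) (Real.sqrt (1 + ∑ i, ‖s i‖ ^ 2))⁻¹,
      ((‖τ‖ ^ (2 * d) : ℝ) : ℂ) * F (τ, τ • s)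

/-- estimate at the centre of the ball -/
def C2 (d : ℕ) : Prop := ∀ (Γ : E d → ℂ) (M : ℝ) (e : E d → ℝ), ContDiffOn ℝ 1 Γ (B d) →
  (∀ ξ ∈ B d, ‖Γ ξ‖ ≤ M) → Measurable e → (∀ ξ ∈ B d, 0 ≤ e ξ) →
  (∀ ξ ∈ B d, ∀ η, ‖db Γ ξ η‖ ≤ e ξ * len ξ η) →
  ENNReal.ofReal ‖∫ ξ in B d, (Γ ξ - Γ 0)‖ ≤
    ∫⁻ ξ in B d, ENNReal.ofReal (e ξ / nm ξ ^ (2 * d + 1))

/-- change of variables under the involution `Ph x` -/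
def C3 (d : ℕ) : Prop := ∀ x : ℝ, 0 ≤ x → x < 1 →
  (∀ ξ ∈ B d, Ph x ξ ∈ B d) ∧
  (∀ F : E d → ℝ≥0∞, Measurable F → ∫⁻ w in B d, F w =
    ∫⁻ ξ in B d, ENNReal.ofReal (((1 - x ^ 2) / ‖1 - x * ξ.1‖ ^ 2) ^ (d + 2)) * F (Ph x ξ)) ∧
  (∀ F : E d → ℂ, ∫ w in B d, F w =
    ∫ ξ in B d, ((((1 - x ^ 2) / ‖1 - x * ξ.1‖ ^ 2) ^ (d + 2) : ℝ) : ℂ) * F (Ph x ξ))

/-- unitary maps preserve the measure -/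
def C4 (d : ℕ) : Prop := ∀ U : E d →L[ℂ] E d, IsU U → MeasurePreserving (U : E d → E d) ∧
  (∀ F : E d → ℂ, ∫ w in B d, F w = ∫ ξ in B d, F (U ξ)) ∧
  (∀ F : E d → ℝ≥0∞, ∫⁻ w in B d, F w = ∫⁻ ξ in B d, F (U ξ))

/-- the unitary group is transitive on spheres -/
def C4b (d : ℕ) : Prop := ∀ z : E d, ∃ U : E d →L[ℂ] E d, IsU U ∧
  Function.Bijective (U : E d → E d) ∧ U ((nm z : ℂ), 0) = z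

/-- Bergman integrals of bounded functions are holomorphic -/
def C5 (d : ℕ) : Prop := ∀ (γ : E d → ℂ) (M : ℝ), AEStronglyMeasurable γ (volume.restrict (B d)) →
  (∀ ξ ∈ B d, ‖γ ξ‖ ≤ M) →
  DifferentiableOn ℂ (fun z => ∫ w in B d, γ w / (1 - ip z w) ^ (d + 2)) (B d)

/-- the involution: derivative and invariance -/
def C6 (d : ℕ) : Prop := ∀ x : ℝ, 0 ≤ x → x < 1 → ∀ ξ ∈ B d,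
  DifferentiableAt ℂ (Ph x) ξ ∧ (∀ η, fderiv ℂ (Ph x) ξ η = dPh x ξ η) ∧
  1 - N (Ph x ξ) = (1 - x ^ 2) * (1 - N ξ) / ‖1 - x * ξ.1‖ ^ 2 ∧
  (∀ η, len (Ph x ξ) (dPh x ξ η) = len ξ η) ∧
  1 - ip ((x : ℂ), 0) (Ph x ξ) = (1 - x ^ 2) / starRingEnd ℂ (1 - x * ξ.1) ∧
  Dl ((x : ℂ), 0) (Ph x ξ) = (1 - x ^ 2) ^ 2 * N ξ / ‖1 - x * ξ.1‖ ^ 2

/-- the volume of the ball -/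
def C10 (d : ℕ) : Prop := 0 < volume (B d) ∧ volume (B d) < ⊤

/-- the Bergman projection of a bounded function -/
def Cmain (d : ℕ) : Prop := ∃ C₀ : ℝ, 0 < C₀ ∧ ∀ (γ : E d → ℂ) (M : ℝ) (e : E d → ℝ),
  ContDiffOn ℝ 1 γ (B d) → (∀ z ∈ B d, ‖γ z‖ ≤ M) → Measurable e → (∀ z ∈ B d, 0 ≤ e z) →
  (∀ z ∈ B d, ∀ ξ, ‖db γ z ξ‖ ≤ e z * len z ξ) →
  ∃ H : E d → ℂ, DifferentiableOn ℂ H (B d) ∧ ∀ z ∈ B d,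
    ENNReal.ofReal ‖γ z - H z‖ ≤ ENNReal.ofReal C₀ * ∫⁻ w in B d, ENNReal.ofReal (e w * ker z w)

/-- the kernel is locally bounded in `L¹` -/
def C8 (d : ℕ) : Prop := ∀ r : ℝ, 0 ≤ r → r < 1 → ∃ C : ℝ, ∀ z : E d, nm z ≤ r →
  ∫⁻ w in B d, ENNReal.ofReal (ker z w) ≤ ENNReal.ofReal C

/-- integrals of functions of `1 - |w|²` -/
def C9 (d : ℕ) : Prop := ∃ C : ℝ, 0 < C ∧ ∀ φ : ℝ → ℝ, Monotone φ → (∀ t, 0 ≤ φ t) →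
  (∀ t, φ t ≤ 1) → ∀ z ∈ B d, ∫⁻ w in B d, ENNReal.ofReal (φ (1 - N w) * ker z w) ≤
    ENNReal.ofReal C * (1 + ∫⁻ t in Ioo (0 : ℝ) 1, ENNReal.ofReal (φ t / t))

/-- integrals over thin shells -/
def C9' (d : ℕ) : Prop := ∃ C : ℝ, 0 < C ∧ ∀ ε : ℝ, 0 < ε → ε ≤ 1 →
  ∀ z ∈ B d, ∫⁻ w in B d, ENNReal.ofReal ((if 1 - N w ≤ ε then Real.sqrt ((1 - N w) / ε) else 0) *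
    ker z w) ≤ ENNReal.ofReal C

/-- one step of the recursion -/
def S1 (d : ℕ) : Prop := ∀ (C₁ p : ℝ) (v P0 P1 F0 F1 : E d → ℂ) (z ξ : E d), 0 < C₁ →
  DifferentiableAt ℝ v z → DifferentiableAt ℝ P1 z → DifferentiableAt ℂ F0 z →
  DifferentiableAt ℂ F1 z → ‖v z‖ ≤ 256 * C₁ → ‖P0 z‖ ≤ C₁ → ‖P1 z‖ ≤ C₁ →
  ‖F1 z - F0 z‖ ≤ 2 → ‖fderiv ℝ P1 z ξ‖ ≤ p → ‖fderiv ℝ P1 z (I • ξ)‖ ≤ p →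
  ∀ Q v' : E d → ℂ, (∀ w, Q w = P1 w * starRingEnd ℂ (F1 w - F0 w)) →
  (∀ w, v' w = (v w + Q w) / (1 + starRingEnd ℂ (Q w) * v w / (256 * C₁) ^ 2)) →
  ‖v' z‖ ≤ 256 * C₁ ∧ 1 + starRingEnd ℂ (Q z) * v z / (256 * C₁) ^ 2 ≠ 0 ∧
  ‖db v' z ξ - P1 z * starRingEnd ℂ (fderiv ℂ F1 z ξ)‖ ≤
    (1 + ‖F1 z - F0 z‖ / 64) * ‖db v z ξ - P0 z * starRingEnd ℂ (fderiv ℂ F0 z ξ)‖ +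
    ‖F1 z - F0 z‖ * (C₁ * (‖fderiv ℂ F0 z ξ‖ + ‖fderiv ℂ F1 z ξ‖) + 4 * p) +
    ‖P0 z - P1 z‖ * ‖fderiv ℂ F0 z ξ‖ ∧
  ‖dd v' z ξ‖ ≤ (1 + ‖F1 z - F0 z‖ / 64) * ‖dd v z ξ‖ + 4 * p * ‖F1 z - F0 z‖ +
    2 * C₁ * ‖fderiv ℂ F1 z ξ - fderiv ℂ F0 z ξ‖

/-- comparison of lengths along rays -/
def S2 (d : ℕ) : Prop := ∀ z ∈ B d, ∀ t : ℝ, 0 ≤ t → t ≤ 1 →
  (∀ ξ, len (t • z) ξ ≤ Real.sqrt 2 * Real.sqrt ((1 - nm z) / (1 - t * nm z)) * len z ξ) ∧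
  len (t • z) z ≤ nm z / (1 - t * nm z)

/-- mean value estimate along rays -/
def S3 (d : ℕ) : Prop := ∀ (φ : E d → ℂ) (z : E d) (t₀ t₁ A : ℝ), DifferentiableOn ℝ φ (B d) →
  z ∈ B d → 0 ≤ t₀ → t₀ ≤ t₁ → t₁ ≤ 1 →
  (∀ t, t₀ ≤ t → t ≤ t₁ → ∀ ξ, ‖fderiv ℝ φ (t • z) ξ‖ ≤ A * len (t • z) ξ) →
  ‖φ (t₁ • z) - φ (t₀ • z)‖ ≤ A * ((t₁ - t₀) * nm z / (1 - t₁ * nm z))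

/-- slowly varying functions -/
def Slow (K : ℝ) (ω : ℝ → ℝ) : Prop :=
  Monotone ω ∧ (∀ t, 0 ≤ ω t ∧ ω t ≤ 1) ∧
    ∀ s t : ℝ, 0 < t → t ≤ s → s ≤ 1 → ω s ≤ K * (s / t) ^ (1 / 8 : ℝ) * ω t

/-- second derivatives along rays -/
def S4 (d : ℕ) : Prop := ∀ K : ℝ, 1 ≤ K → ∃ C : ℝ, 0 < C ∧ ∀ (f : E d → ℂ) (ω : ℝ → ℝ),
  DifferentiableOn ℂ f (B d) → Slow K ω →
  (∀ z ∈ B d, ∀ ξ, ‖fderiv ℂ f z ξ‖ ≤ ω (1 - N z) * len z ξ) →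
  ∀ z ∈ B d, ∀ t₀ t₁ : ℝ, 0 ≤ t₀ → t₀ ≤ t₁ → t₁ < 1 → t₁ - t₀ ≤ 1 - t₁ →
  ∀ ξ, ‖fderiv ℂ f (t₁ • z) (t₁ • ξ) - fderiv ℂ f (t₀ • z) (t₀ • ξ)‖ ≤
    C * ω (1 - N (t₁ • z)) * ((t₁ - t₀) / (1 - t₁ * nm z)) * len (t₁ • z) ξ

/-- the smooth solution of the Bezout equation, `M` functions -/
def D2N (d : ℕ) : Prop := ∀ (M : ℕ) (δ : ℝ), 0 < δ → ∃ C₁ : ℝ, 0 < C₁ ∧ ∀ f : Fin M → E d → ℂ,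
  (∀ j, DifferentiableOn ℂ (f j) (B d)) → (∀ j, ∀ z ∈ B d, ‖f j z‖ ≤ 1) →
  (∀ z ∈ B d, δ ≤ ∑ j, ‖f j z‖) →
  ∃ Ψ h₀ : Fin M → E d → ℂ, (∀ j, ContDiffOn ℝ 1 (Ψ j) (B d)) ∧
    (∀ j, ContDiffOn ℝ 1 (h₀ j) (B d)) ∧
    (∀ z ∈ B d, (∀ j, ‖Ψ j z‖ ≤ C₁ ∧ ‖h₀ j z‖ ≤ C₁) ∧ ∑ j, f j z * h₀ j z = 1) ∧
    (∀ j, ∀ z ∈ B d, ∀ ξ, ‖fderiv ℝ (Ψ j) z ξ‖ ≤ C₁ * ∑ i, ‖fderiv ℂ (f i) z ξ‖) ∧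
    (∀ j, ∀ z ∈ B d, ∀ ξ, ‖fderiv ℝ (h₀ j) z ξ‖ ≤ C₁ * ∑ i, ‖fderiv ℂ (f i) z ξ‖) ∧
    (∀ j, ∀ z ∈ B d, ∀ ξ, db (h₀ j) z ξ = ∑ i, f i z *
      (Ψ i z * starRingEnd ℂ (fderiv ℂ (f j) z ξ) - Ψ j z * starRingEnd ℂ (fderiv ℂ (f i) z ξ)))

/-- the smooth solution of the Bezout equation, two functions, quantitative in the first one -/
def D2 (d : ℕ) : Prop := ∀ δ : ℝ, 0 < δ → ∃ C₁ : ℝ, 0 < C₁ ∧ ∀ (f g : E d → ℂ),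
  DifferentiableOn ℂ f (B d) → DifferentiableOn ℂ g (B d) →
  (∀ z ∈ B d, ‖f z‖ ≤ 1) → (∀ z ∈ B d, ‖g z‖ ≤ 1) → (∀ z ∈ B d, δ ≤ ‖f z‖ + ‖g z‖) →
  ∃ Ψ h₀ k₀ : E d → ℂ, ContDiffOn ℝ 1 Ψ (B d) ∧ ContDiffOn ℝ 1 h₀ (B d) ∧
    ContDiffOn ℝ 1 k₀ (B d) ∧
    (∀ z ∈ B d, ‖Ψ z‖ ≤ C₁ ∧ ‖h₀ z‖ ≤ C₁ ∧ ‖k₀ z‖ ≤ C₁ ∧ f z * h₀ z + g z * k₀ z = 1) ∧
    (∀ z ∈ B d, ∀ ξ, ‖fderiv ℝ Ψ z ξ‖ ≤ C₁ * (‖fderiv ℂ f z ξ‖ + ‖fderiv ℂ g z ξ‖)) ∧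
    (∀ z ∈ B d, ∀ ξ, db h₀ z ξ = -(g z * (Ψ z * starRingEnd ℂ (fderiv ℂ f z ξ)))) ∧
    (∀ z ∈ B d, ∀ ξ, db k₀ z ξ = f z * (Ψ z * starRingEnd ℂ (fderiv ℂ f z ξ)))

/-- qualitative solutions for dilated data -/
def D1 (d : ℕ) : Prop := ∀ (δ r : ℝ) (f g : E d → ℂ), 0 < δ → 0 ≤ r → r < 1 →
  DifferentiableOn ℂ f (B d) → DifferentiableOn ℂ g (B d) →
  (∀ z ∈ B d, ‖f z‖ ≤ 1) → (∀ z ∈ B d, ‖g z‖ ≤ 1) → (∀ z ∈ B d, δ ≤ ‖f z‖ + ‖g z‖) →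
  ∃ (h k : E d → ℂ) (M : ℝ), DifferentiableOn ℂ h (B d) ∧ DifferentiableOn ℂ k (B d) ∧
    ∀ z ∈ B d, ‖h z‖ ≤ M ∧ ‖k z‖ ≤ M ∧ f (r • z) * h z + g (r • z) * k z = 1

/-- the Schwarz-Pick lemma on the ball -/
def SP (d : ℕ) : Prop := ∀ f : E d → ℂ, DifferentiableOn ℂ f (B d) → (∀ z ∈ B d, ‖f z‖ ≤ 1) →
  ∀ z ∈ B d, ∀ ξ, ‖fderiv ℂ f z ξ‖ ≤ len z ξ

/-- limits of families with locally bounded majorants -/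
def D4 (d : ℕ) : Prop := ∀ (M : E d → ℝ≥0∞), (∀ r : ℝ, 0 ≤ r → r < 1 → ∃ C : ℝ, ∀ z, nm z ≤ r →
    M z ≤ ENNReal.ofReal C) →
  ∀ (f g : E d → ℂ), DifferentiableOn ℂ f (B d) → DifferentiableOn ℂ g (B d) →
  (∀ k : ℕ, ∃ h l : E d → ℂ, DifferentiableOn ℂ h (B d) ∧ DifferentiableOn ℂ l (B d) ∧
    ∀ z ∈ B d, f (rad k • z) * h z + g (rad k • z) * l z = 1 ∧
      ENNReal.ofReal ‖h z‖ ≤ M z ∧ ENNReal.ofReal ‖l z‖ ≤ M z) →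
  ∃ h l : E d → ℂ, DifferentiableOn ℂ h (B d) ∧ DifferentiableOn ℂ l (B d) ∧
    ∀ z ∈ B d, f z * h z + g z * l z = 1 ∧ ENNReal.ofReal ‖h z‖ ≤ M z ∧ ENNReal.ofReal ‖l z‖ ≤ M z

/-- limits of local solutions of the dilated equations -/
def D4N (d : ℕ) : Prop := ∀ (M : ℕ) (C ρ : ℝ) (p : E d) (f : Fin M → E d → ℂ),
  (∀ j, DifferentiableOn ℂ (f j) (B d)) →
  (∀ k : ℕ, ∃ g : Fin M → E d → ℂ, (∀ j, DifferentiableOn ℂ (g j) {z | z ∈ B d ∧ nm (z - p) < ρ}) ∧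
    ∀ z ∈ B d, nm (z - p) < ρ → (∀ j, ‖g j z‖ ≤ C) ∧ ∑ j, f j (rad k • z) * g j z = 1) →
  ∃ g : Fin M → E d → ℂ, (∀ j, DifferentiableOn ℂ (g j) {z | z ∈ B d ∧ nm (z - p) < ρ}) ∧
    ∀ z ∈ B d, nm (z - p) < ρ → (∀ j, ‖g j z‖ ≤ C) ∧ ∑ j, f j z * g j z = 1

/-- uniform local solvability implies uniform solvability -/
def LOC (d : ℕ) : Prop := ∀ (M : ℕ) (δ : ℝ) (A : Type) (f : A → Fin M → E d → ℂ), 0 < δ →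
  (∀ a j, DifferentiableOn ℂ (f a j) (B d)) → (∀ a j, ∀ z ∈ B d, ‖f a j z‖ ≤ 1) →
  (∀ a, ∀ z ∈ B d, δ ≤ ∑ j, ‖f a j z‖) →
  (∀ p : E d, N p = 1 → ∃ ρ C : ℝ, 0 < ρ ∧ ∀ a, ∃ g : Fin M → E d → ℂ,
    (∀ j, DifferentiableOn ℂ (g j) {z | z ∈ B d ∧ nm (z - p) < ρ}) ∧
    ∀ z ∈ B d, nm (z - p) < ρ → (∀ j, ‖g j z‖ ≤ C) ∧ ∑ j, f a j z * g j z = 1) →
  ∃ C : ℝ, ∀ a, ∃ g : Fin M → E d → ℂ, (∀ j, DifferentiableOn ℂ (g j) (B d)) ∧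
    ∀ z ∈ B d, (∀ j, ‖g j z‖ ≤ C) ∧ ∑ j, f a j z * g j z = 1

/-- approximation by holomorphic functions near boundary points -/
def LA (d : ℕ) : Prop := ∀ (C K : ℝ) (ω : ℝ → ℝ), 1 ≤ K → 0 < C → Slow K ω →
  ∫⁻ t in Ioo (0 : ℝ) 1, ENNReal.ofReal (ω t ^ 2 / t) ≠ ⊤ →
  ∀ η : ℝ, 0 < η → ∃ ρ : ℝ, 0 < ρ ∧ ∀ p : E d, N p = 1 → ∀ h : E d → ℂ,
    ContDiffOn ℝ 1 h (B d) → (∀ z ∈ B d, ‖h z‖ ≤ C) →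
    (∀ z ∈ B d, ∀ ξ, ‖fderiv ℝ h z ξ‖ ≤ C * ω (1 - N z) * len z ξ) →
    (∀ z ∈ B d, ∀ ξ, ‖db h z ξ‖ ≤ C * ω (1 - N z) ^ 2 * len z ξ) →
    ∃ H : E d → ℂ, DifferentiableOn ℂ H (B d) ∧
      ∀ z ∈ B d, nm (z - p) < ρ → ‖H z - h z‖ ≤ η

/-- the recursion, general majorants -/
def Smain (d : ℕ) : Prop := ∀ (K C₁ : ℝ), 1 ≤ K → 0 < C₁ → ∃ C₂ : ℝ, 0 < C₂ ∧
  ∀ (f Ψ : E d → ℂ) (a b : E d → ℝ), DifferentiableOn ℂ f (B d) → ContDiffOn ℝ 1 Ψ (B d) →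
  (∀ z ∈ B d, ‖f z‖ ≤ 1) → (∀ z ∈ B d, ‖Ψ z‖ ≤ C₁) →
  (∀ z ∈ B d, 0 ≤ a z ∧ a z ≤ 1) → (∀ z ∈ B d, 0 ≤ b z ∧ b z ≤ 1) →
  (∀ z ∈ B d, ∀ ξ, ‖fderiv ℂ f z ξ‖ ≤ a z * len z ξ) →
  (∀ z ∈ B d, ∀ ξ, ‖fderiv ℝ Ψ z ξ‖ ≤ C₁ * ((a z + b z) * len z ξ)) →
  (∀ z ∈ B d, ∀ t : ℝ, 0 ≤ t → t ≤ 1 →
    a (t • z) ≤ K * ((1 - t * nm z) / (1 - nm z)) ^ (1 / 8 : ℝ) * a z) →
  (∀ z ∈ B d, ∀ t : ℝ, 0 ≤ t → t ≤ 1 →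
    b (t • z) ≤ K * ((1 - t * nm z) / (1 - nm z)) ^ (1 / 8 : ℝ) * b z) →
  ∀ k : ℕ, ∃ v : E d → ℂ, ContDiffOn ℝ 1 v (B d) ∧ (∀ z ∈ B d, ‖v z‖ ≤ 256 * C₁) ∧
    ∀ z ∈ B d, ∀ ξ,
      ‖db v z ξ - Ψ (rad k • z) * starRingEnd ℂ (fderiv ℂ f (rad k • z) (rad k • ξ))‖ ≤
      C₂ * (a z * (a z + b z)) * len z ξ

/-- the recursion, radial majorants, with control of all first derivatives -/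
def SmainR (d : ℕ) : Prop := ∀ (K C₁ : ℝ), 1 ≤ K → 0 < C₁ → ∃ C₂ : ℝ, 0 < C₂ ∧
  ∀ (f Ψ : E d → ℂ) (ω : ℝ → ℝ), DifferentiableOn ℂ f (B d) → ContDiffOn ℝ 1 Ψ (B d) →
  (∀ z ∈ B d, ‖f z‖ ≤ 1) → (∀ z ∈ B d, ‖Ψ z‖ ≤ C₁) → Slow K ω →
  (∀ z ∈ B d, ∀ ξ, ‖fderiv ℂ f z ξ‖ ≤ ω (1 - N z) * len z ξ) →
  (∀ z ∈ B d, ∀ ξ, ‖fderiv ℝ Ψ z ξ‖ ≤ C₁ * (ω (1 - N z) * len z ξ)) →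
  ∀ k : ℕ, ∃ v : E d → ℂ, ContDiffOn ℝ 1 v (B d) ∧ (∀ z ∈ B d, ‖v z‖ ≤ 256 * C₁) ∧
    ∀ z ∈ B d, ∀ ξ,
      ‖db v z ξ - Ψ (rad k • z) * starRingEnd ℂ (fderiv ℂ f (rad k • z) (rad k • ξ))‖ ≤
        C₂ * ω (1 - N z) ^ 2 * len z ξ ∧
      ‖fderiv ℝ v z ξ‖ ≤ C₂ * ω (1 - N z) * len z ξ

/-- transfer to `Fin (d + 1) → ℂ` -/
def T1 (d : ℕ) : Prop := ∃ T : E d ≃L[ℂ] (Fin (d + 1) → ℂ),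
  (∀ z : E d, T z 0 = z.1) ∧ (∀ (z : E d) (i : Fin d), T z i.succ = z.2 i) ∧
  MeasurePreserving (T : E d → Fin (d + 1) → ℂ)

end Pool.Agent.N290.RJ
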