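import Mathlib
import Pool.Agent.N290.RJ.Defs

/-!
# Unitary maps of `ℂ^(d+1)` and rules for `∂̄`
-/

set_option autoImplicit false

open Complex MeasureTheory Set Filter Topology

namespace Pool.Agent.N290.RJ

variable {d : ℕ}

theorem N_add (z w : E d) : N (z + w) = N z + N w + 2 * (ip z w).re := by
  have h1 : (N (z + w) : ℂ) = N z + N w + 2 * ((ip z w).re : ℝ) := by
    rw [← ip_self, ← ip_self, ← ip_self]
    have h2 : ip w z = starRingEnd ℂ (ip z w) := (ip_conj z w).symm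
    have h3 : ∀ a b c : E d, ip a (b + c) = ip a b + ip a c := by
      intro a b c
      rw [← ip_conj, ip_add_left, map_add, ip_conj, ip_conj]
    rw [ip_add_left, h3, h3, h2]
    have h4 := Complex.add_conj (ip z w)
    push_cast at h4
    linear_combination h4
  exact_mod_cast h1

theorem IsU.ip {U : E d →L[ℂ] E d} (hU : IsU U) (ξ η : E d) :
    RJ.ip (U ξ) (U η) = RJ.ip ξ η := by
  have hre : ∀ ξ η : E d, (RJ.ip (U ξ) (U η)).re = (RJ.ip ξ η).re := by
    intro ξ η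
    have h1 := N_add ξ η
    have h2 := N_add (U ξ) (U η)
    rw [← map_add, hU, hU, hU] at h2
    linarith
  apply Complex.ext
  · exact hre ξ η
  · have h1 := hre (I • ξ) η
    rw [map_smul, ip_smul_left, ip_smul_left, Complex.I_mul_re, Complex.I_mul_re] at h1
    linarith

theorem IsU.nm {U : E d →L[ℂ] E d} (hU : IsU U) (ξ : E d) : RJ.nm (U ξ) = RJ.nm ξ := by
  rw [RJ.nm, RJ.nm, hU]

theorem IsU.mem {U : E d →L[ℂ] E d} (hU : IsU U) (ξ : E d) : U ξ ∈ B d ↔ ξ ∈ B d := by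
  rw [mem_B, mem_B, hU]

theorem IsU.len {U : E d →L[ℂ] E d} (hU : IsU U) (z ξ : E d) : RJ.len (U z) (U ξ) = RJ.len z ξ := by
  unfold RJ.len RJ.len2
  rw [hU, hU, hU.ip]

theorem IsU.Dl {U : E d →L[ℂ] E d} (hU : IsU U) (z ξ : E d) : RJ.Dl (U z) (U ξ) = RJ.Dl z ξ := by
  unfold RJ.Dl
  rw [hU, hU, hU.ip]

theorem IsU.ker {U : E d →L[ℂ] E d} (hU : IsU U) (z ξ : E d) :
    RJ.ker (U z) (U ξ) = RJ.ker z ξ := by
  unfold RJ.ker
  rw [hU.Dl, hU.ip]

/-- chain rule for `∂̄` and a holomorphic inner map -/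
theorem db_comp {γ : E d → ℂ} {φ : E d → E d} {z : E d} (hφ : DifferentiableAt ℂ φ z)
    (hγ : DifferentiableAt ℝ γ (φ z)) (ξ : E d) :
    db (fun w => γ (φ w)) z ξ = db γ (φ z) (fderiv ℂ φ z ξ) := by
  have h1 : HasFDerivAt φ ((fderiv ℂ φ z).restrictScalars ℝ) z :=
    hφ.hasFDerivAt.restrictScalars ℝ
  have h2 : HasFDerivAt (fun w => γ (φ w)) ((fderiv ℝ γ (φ z)).comp
      ((fderiv ℂ φ z).restrictScalars ℝ)) z := hγ.hasFDerivAt.comp z h1
  unfold db
  rw [h2.fderiv]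
  simp only [ContinuousLinearMap.comp_apply, ContinuousLinearMap.coe_restrictScalars', map_smul]

/-- `∂̄` of a holomorphic function vanishes -/
theorem db_hol {γ : E d → ℂ} {z : E d} (h : DifferentiableAt ℂ γ z) (ξ : E d) :
    db γ z ξ = 0 := by
  unfold db
  rw [h.fderiv_restrictScalars ℝ]
  simp only [ContinuousLinearMap.coe_restrictScalars', map_smul, smul_eq_mul]
  rw [← mul_assoc, Complex.I_mul_I]; ring

theorem db_add {γ η : E d → ℂ} {z : E d} (h : DifferentiableAt ℝ γ z)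
    (h' : DifferentiableAt ℝ η z) (ξ : E d) :
    db (fun w => γ w + η w) z ξ = db γ z ξ + db η z ξ := by
  unfold db
  rw [fderiv_fun_add h h']
  simp only [add_apply]; ring

theorem db_sub {γ η : E d → ℂ} {z : E d} (h : DifferentiableAt ℝ γ z)
    (h' : DifferentiableAt ℝ η z) (ξ : E d) :
    db (fun w => γ w - η w) z ξ = db γ z ξ - db η z ξ := by
  unfold db
  rw [fderiv_fun_sub h h']
  simp only [sub_apply]; ring

theorem db_mul {γ η : E d → ℂ} {z : E d} (h : DifferentiableAt ℝ γ z)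
    (h' : DifferentiableAt ℝ η z) (ξ : E d) :
    db (fun w => γ w * η w) z ξ = γ z * db η z ξ + η z * db γ z ξ := by
  unfold db
  rw [fderiv_fun_mul h h']
  simp only [add_apply, smul_apply, smul_eq_mul]; ring

theorem db_sum {ι : Type} (s : Finset ι) {γ : ι → E d → ℂ} {z : E d}
    (h : ∀ i ∈ s, DifferentiableAt ℝ (γ i) z) (ξ : E d) :
    db (fun w => ∑ i ∈ s, γ i w) z ξ = ∑ i ∈ s, db (γ i) z ξ := by
  unfold db
  rw [fderiv_fun_sum h]
  simp only [sum_apply]
  rw [Finset.mul_sum, ← Finset.sum_add_distrib, Finset.sum_div]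

theorem db_congr {γ η : E d → ℂ} {z : E d} (h : γ =ᶠ[𝓝 z] η) (ξ : E d) :
    db γ z ξ = db η z ξ := by
  unfold db
  rw [h.fderiv_eq]

theorem fderiv_eq_db_dd (γ : E d → ℂ) (z ξ : E d) : fderiv ℝ γ z ξ = db γ z ξ + dd γ z ξ := by
  unfold db dd; ring

end Pool.Agent.N290.RJ
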