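import Mathlib
import Pool.Agent.N290.RJ.Stm
import Pool.Agent.N290.RJ.Un
import Pool.Agent.Helper540.Holo

/-!
# The recursion
-/

set_option autoImplicit false

open Complex MeasureTheory Set Filter Topology

namespace Pool.Agent.N290.RJ

variable {d : ℕ}

/-- holomorphic functions are real `C¹` -/
theorem cd_hol {f : E d → ℂ} (hf : DifferentiableOn ℂ f (B d)) : ContDiffOn ℝ 1 f (B d) :=
  (Pool.Agent.Helper540.contDiffOn_of_differentiableOn B_open hf 1).restrict_scalars ℝ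

theorem da_hol {f : E d → ℂ} (hf : DifferentiableOn ℂ f (B d)) {z : E d} (hz : z ∈ (B d)) :
    DifferentiableAt ℂ f z := hf.differentiableAt (B_open.mem_nhds hz)

/-- dilation -/
theorem dil_hasFDerivAt {f : E d → ℂ} {z : E d} {r : ℝ} (hf : DifferentiableAt ℂ f (r • z)) :
    HasFDerivAt (fun w => f (r • w)) ((fderiv ℂ f (r • z)).comp
      (r • ContinuousLinearMap.id ℂ (E d))) z := by
  have h1 : HasFDerivAt (fun w : E d => r • w) (r • ContinuousLinearMap.id ℂ (E d)) z :=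
    (hasFDerivAt_id z).const_smul r
  exact hf.hasFDerivAt.comp z h1

theorem dil_fderiv {f : E d → ℂ} {z : E d} {r : ℝ} (hf : DifferentiableAt ℂ f (r • z))
    (ξ : E d) : fderiv ℂ (fun w => f (r • w)) z ξ = fderiv ℂ f (r • z) (r • ξ) := by
  rw [(dil_hasFDerivAt hf).fderiv]
  simp

theorem dil_hasFDerivAtR {f : E d → ℂ} {z : E d} {r : ℝ} (hf : DifferentiableAt ℝ f (r • z)) :
    HasFDerivAt (fun w => f (r • w)) ((fderiv ℝ f (r • z)).comp
      (r • ContinuousLinearMap.id ℝ (E d))) z := by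
  have h1 : HasFDerivAt (fun w : E d => r • w) (r • ContinuousLinearMap.id ℝ (E d)) z :=
    (hasFDerivAt_id z).const_smul r
  exact hf.hasFDerivAt.comp z h1

theorem dil_fderivR {f : E d → ℂ} {z : E d} {r : ℝ} (hf : DifferentiableAt ℝ f (r • z))
    (ξ : E d) : fderiv ℝ (fun w => f (r • w)) z ξ = fderiv ℝ f (r • z) (r • ξ) := by
  rw [(dil_hasFDerivAtR hf).fderiv]
  simp

theorem fderivR_eq {f : E d → ℂ} {z : E d} (hf : DifferentiableAt ℂ f z)
    (ξ : E d) : fderiv ℝ f z ξ = fderiv ℂ f z ξ := by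
  rw [hf.fderiv_restrictScalars ℝ]
  simp

theorem cd_dil {f : E d → ℂ} (hf : ContDiffOn ℝ 1 f (B d)) {r : ℝ} (h0 : 0 ≤ r) (h1 : r ≤ 1) :
    ContDiffOn ℝ 1 (fun w => f (r • w)) (B d) := by
  refine hf.comp (g := f) (f := fun w : E d => r • w) (t := (B d)) ?_ ?_
  · exact (contDiff_const_smul r).contDiffOn
  · intro w hw
    exact smul_mem_B hw h0 h1

theorem num_a {s : ℝ} (hs0 : 0 ≤ s) (hs1 : s ≤ 1) : (1 + s / 8) ^ 4 ≤ 1 + s := by
  have h2 : s ^ 2 ≤ s := by nlinarith
  have h3 : s ^ 3 ≤ s := by nlinarith [mul_nonneg hs0 hs0]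
  have h4 : s ^ 4 ≤ s := by nlinarith [mul_nonneg hs0 hs0]
  have h5 : (1 + s / 8) ^ 4 = 1 + s / 2 + 3 / 32 * s ^ 2 + s ^ 3 / 128 + s ^ 4 / 4096 := by ring
  rw [h5]; linarith

theorem num_b {s u u' : ℝ} (hu : 0 < u) (hu' : 0 < u')
    (hs0 : 0 ≤ s) (hs1 : s ≤ 1) (hus : u' ^ 8 = u ^ 8 * (1 + s)) :
    u ^ 2 * (1 + s / 8) ≤ u' ^ 2 ∧ u' ^ 3 ≤ 8 * u ^ 3 := by
  constructor
  · have h2 : (u ^ 2 * (1 + s / 8)) ^ 4 ≤ (u' ^ 2) ^ 4 := by
      have h3 : (u' ^ 2) ^ 4 = u ^ 8 * (1 + s) := by rw [← hus]; ring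
      have h4 : (u ^ 2 * (1 + s / 8)) ^ 4 = u ^ 8 * (1 + s / 8) ^ 4 := by ring
      rw [h3, h4]
      exact mul_le_mul_of_nonneg_left (num_a hs0 hs1) (by positivity)
    exact le_of_pow_le_pow_left₀ (by norm_num) (by positivity) h2
  · have h2 : u' ≤ 2 * u := by
      refine le_of_pow_le_pow_left₀ (n := 8) (by norm_num) (by positivity) ?_
      rw [hus]
      have h3 : 0 ≤ u ^ 8 := by positivity
      have h4 : (2 * u) ^ 8 = u ^ 8 * 256 := by ring
      rw [h4]
      exact mul_le_mul_of_nonneg_left (by linarith) h3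
    calc u' ^ 3 ≤ (2 * u) ^ 3 := pow_le_pow_left₀ hu'.le h2 3
      _ = 8 * u ^ 3 := by ring

theorem num_c {C₁ K a b L u U D0' D1' p : ℝ} (hC : 0 < C₁) (hK : 0 ≤ K)
    (ha : 0 ≤ a) (hb : 0 ≤ b) (hL : 0 ≤ L) (hu : 0 < u) (h3 : U ≤ 8 * u ^ 3)
    (hD0 : D0' ≤ 3 / 2 * K * a * u ^ 3 * L) (hD1 : D1' ≤ 3 / 2 * K * a * U * L)
    (hp : p ≤ C₁ * (3 / 2 * K * (a + b) * U * L)) :
    C₁ * (D0' + D1') + 4 * p ≤ 62 * C₁ * K * (a + b) * u ^ 3 * L := by
  have hD1b : D1' ≤ 12 * (K * a * u ^ 3 * L) := by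
    calc D1' ≤ 3 / 2 * K * a * U * L := hD1
      _ = (3 / 2 * K * a * L) * U := by ring
      _ ≤ (3 / 2 * K * a * L) * (8 * u ^ 3) := mul_le_mul_of_nonneg_left h3 (by positivity)
      _ = _ := by ring
  have hpb : p ≤ 12 * (C₁ * (K * (a + b) * u ^ 3 * L)) := by
    calc p ≤ C₁ * (3 / 2 * K * (a + b) * U * L) := hp
      _ = (C₁ * (3 / 2 * K * (a + b) * L)) * U := by ring
      _ ≤ (C₁ * (3 / 2 * K * (a + b) * L)) * (8 * u ^ 3) :=
        mul_le_mul_of_nonneg_left h3 (by positivity)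
      _ = _ := by ring
  have h0 : 0 ≤ K * a * u ^ 3 * L := by positivity
  have h4 : D0' + D1' ≤ 14 * (K * a * u ^ 3 * L) := by linarith
  have h5 : C₁ * (D0' + D1') ≤ C₁ * (14 * (K * a * u ^ 3 * L)) :=
    mul_le_mul_of_nonneg_left h4 hC.le
  have h6 : 0 ≤ C₁ * (K * b * u ^ 3 * L) := by positivity
  have h7 : 62 * C₁ * K * (a + b) * u ^ 3 * L = C₁ * (14 * (K * a * u ^ 3 * L)) +
      4 * (12 * (C₁ * (K * (a + b) * u ^ 3 * L))) + 14 * (C₁ * (K * b * u ^ 3 * L)) := by ring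
  rw [h7]; linarith

/-- the numerical step -/
theorem num_step {C₁ K a b L u u' s d E E' D0' D1' p dP : ℝ} (hC : 0 < C₁) (hK : 0 ≤ K)
    (ha : 0 ≤ a) (hb : 0 ≤ b) (hL : 0 ≤ L) (hu : 0 < u) (hu' : 0 < u')
    (hs0 : 0 ≤ s) (hs1 : s ≤ 1) (hus : u' ^ 8 = u ^ 8 * (1 + s))
    (hd1 : d ≤ s) (hd2 : d ≤ K * a * (s / u))
    (hD00 : 0 ≤ D0') (hD10 : 0 ≤ D1')
    (hD0 : D0' ≤ 3 / 2 * K * a * u ^ 3 * L) (hD1 : D1' ≤ 3 / 2 * K * a * u' ^ 3 * L)
    (hp0 : 0 ≤ p) (hp : p ≤ C₁ * (3 / 2 * K * (a + b) * u' ^ 3 * L))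
    (hdP : dP ≤ C₁ * (K * (a + b)) * (s / u))
    (hE0 : 0 ≤ E)
    (hE : E ≤ 900 * C₁ * K ^ 2 * (a * (a + b)) * L * u ^ 2)
    (hE' : E' ≤ (1 + d / 64) * E + d * (C₁ * (D0' + D1') + 4 * p) + dP * D0') :
    E' ≤ 900 * C₁ * K ^ 2 * (a * (a + b)) * L * u' ^ 2 := by
  obtain ⟨h1, h3⟩ := num_b hu hu' hs0 hs1 hus
  have hX := num_c hC hK ha hb hL hu h3 hD0 hD1 hp
  have hX0 : 0 ≤ C₁ * (D0' + D1') + 4 * p := by positivity
  have hT2 : d * (C₁ * (D0' + D1') + 4 * p) ≤
      62 * (C₁ * K ^ 2 * (a * (a + b)) * L) * (s * u ^ 2) := by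
    calc d * (C₁ * (D0' + D1') + 4 * p) ≤ (K * a * (s / u)) * (62 * C₁ * K * (a + b) * u ^ 3 * L) :=
        mul_le_mul hd2 hX hX0 (by positivity)
      _ = _ := by field_simp
  have hT3 : dP * D0' ≤ 3 / 2 * (C₁ * K ^ 2 * (a * (a + b)) * L) * (s * u ^ 2) := by
    calc dP * D0' ≤ (C₁ * (K * (a + b)) * (s / u)) * (3 / 2 * K * a * u ^ 3 * L) :=
        mul_le_mul hdP hD0 hD00 (by positivity)
      _ = _ := by field_simp
  have hT1 : (1 + d / 64) * E ≤
      900 * (C₁ * K ^ 2 * (a * (a + b)) * L) * (u ^ 2 * (1 + s / 64)) := by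
    calc (1 + d / 64) * E ≤ (1 + s / 64) * (900 * C₁ * K ^ 2 * (a * (a + b)) * L * u ^ 2) :=
        mul_le_mul (by linarith) hE hE0 (by positivity)
      _ = _ := by ring
  have hW : 0 ≤ C₁ * K ^ 2 * (a * (a + b)) * L := by positivity
  have h4 : 0 ≤ (C₁ * K ^ 2 * (a * (a + b)) * L) * (s * u ^ 2) := by positivity
  have h5 := mul_le_mul_of_nonneg_left h1 hW
  have h6 : 900 * C₁ * K ^ 2 * (a * (a + b)) * L * u' ^ 2 =
    900 * ((C₁ * K ^ 2 * (a * (a + b)) * L) * u' ^ 2) := by ring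
  rw [h6]
  generalize C₁ * K ^ 2 * (a * (a + b)) * L = W at *
  have h7 : W * (u ^ 2 * (1 + s / 8)) = W * u ^ 2 + 1 / 8 * (W * (s * u ^ 2)) := by ring
  have h8 : 900 * W * (u ^ 2 * (1 + s / 64)) = 900 * (W * u ^ 2) + 900 / 64 * (W * (s * u ^ 2)) := by
    ring
  have h9 : 62 * W * (s * u ^ 2) = 62 * (W * (s * u ^ 2)) := by ring
  have h10 : 3 / 2 * W * (s * u ^ 2) = 3 / 2 * (W * (s * u ^ 2)) := by ring
  rw [h8] at hT1
  rw [h9] at hT2
  rw [h10] at hT3
  rw [h7] at h5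
  linarith

/-- the weight -/
noncomputable def uu (z : E d) (t : ℝ) : ℝ := ((1 - nm z) / (1 - t * nm z)) ^ (1 / 8 : ℝ)

section uu

variable {z : E d} {t t' : ℝ}

theorem x_pos (hz : z ∈ (B d)) : 0 < 1 - nm z := sub_pos.2 (mem_B_nm.1 hz)

theorem tn_le (ht : t ≤ 1) : t * nm z ≤ nm z := by
  have := nm_nonneg z
  nlinarith

theorem r_pos (hz : z ∈ (B d)) (ht : t ≤ 1) : 0 < 1 - t * nm z := by
  have := x_pos hz
  have := tn_le (z := z) ht
  linarith

theorem uu_pos (hz : z ∈ (B d)) (ht : t ≤ 1) : 0 < uu z t :=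
  Real.rpow_pos_of_pos (div_pos (x_pos hz) (r_pos hz ht)) _

theorem uu_pow (hz : z ∈ (B d)) (ht : t ≤ 1) : uu z t ^ 8 = (1 - nm z) / (1 - t * nm z) := by
  unfold uu
  rw [← Real.rpow_natCast, ← Real.rpow_mul (div_pos (x_pos hz) (r_pos hz ht)).le]
  norm_num

theorem uu_sqrt (hz : z ∈ (B d)) (ht : t ≤ 1) :
    Real.sqrt ((1 - nm z) / (1 - t * nm z)) = uu z t ^ 4 := by
  rw [← uu_pow hz ht, show uu z t ^ 8 = (uu z t ^ 4) ^ 2 by ring,
    Real.sqrt_sq (pow_nonneg (uu_pos hz ht).le 4)]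

theorem uu_inv (hz : z ∈ (B d)) (ht : t ≤ 1) :
    ((1 - t * nm z) / (1 - nm z)) ^ (1 / 8 : ℝ) = (uu z t)⁻¹ := by
  unfold uu
  rw [← Real.inv_rpow (div_pos (x_pos hz) (r_pos hz ht)).le, inv_div]

theorem uu_le_one (hz : z ∈ (B d)) (ht : t ≤ 1) : uu z t ≤ 1 := by
  refine Real.rpow_le_one (div_pos (x_pos hz) (r_pos hz ht)).le ?_ (by norm_num)
  rw [div_le_one (r_pos hz ht)]
  have := tn_le (z := z) ht
  linarith

theorem uu_mono (hz : z ∈ (B d)) (h : t ≤ t') (ht : t' ≤ 1) : uu z t ≤ uu z t' := by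
  unfold uu
  refine Real.rpow_le_rpow (div_pos (x_pos hz) (r_pos hz (h.trans ht))).le ?_ (by norm_num)
  refine div_le_div_of_nonneg_left (x_pos hz).le (r_pos hz ht) ?_
  have := mul_le_mul_of_nonneg_right h (nm_nonneg z)
  linarith

theorem ray_bound (h2 : S2 d) {A A₀ : ℝ} (hz : z ∈ (B d)) (ht0 : 0 ≤ t) (ht1 : t ≤ 1)
    (hA : A ≤ A₀ * (uu z t)⁻¹) (hA₀ : 0 ≤ A₀) (ξ : E d) :
    A * len (t • z) ξ ≤ 3 / 2 * A₀ * uu z t ^ 3 * len z ξ := by
  have h3 := (h2 z hz t ht0 ht1).1 ξ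
  rw [uu_sqrt hz ht1] at h3
  have hu := uu_pos hz ht1
  have h4 : Real.sqrt 2 ≤ 3 / 2 := by
    rw [Real.sqrt_le_left (by norm_num)]; norm_num
  have h5 : len (t • z) ξ ≤ 3 / 2 * uu z t ^ 4 * len z ξ := by
    refine h3.trans ?_
    have h6 : 0 ≤ uu z t ^ 4 * len z ξ := mul_nonneg (by positivity) (len_nonneg _ _)
    nlinarith
  calc A * len (t • z) ξ ≤ (A₀ * (uu z t)⁻¹) * (3 / 2 * uu z t ^ 4 * len z ξ) :=
        mul_le_mul hA h5 (len_nonneg _ _) (by positivity)
    _ = 3 / 2 * A₀ * uu z t ^ 3 * len z ξ := by field_simp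

end uu

theorem rad_succ (k : ℕ) : rad (k + 1) - rad k = (1 / 2) ^ (k + 1) := by
  unfold rad
  rw [pow_succ]; ring

/-- the recursion -/
noncomputable def vs (C₁ : ℝ) (f Ψ : E d → ℂ) : ℕ → (E d → ℂ)
  | 0 => fun _ => 0
  | k + 1 => fun w => (vs C₁ f Ψ k w + Ψ (rad (k + 1) • w) *
      starRingEnd ℂ (f (rad (k + 1) • w) - f (rad k • w))) /
      (1 + starRingEnd ℂ (Ψ (rad (k + 1) • w) *
        starRingEnd ℂ (f (rad (k + 1) • w) - f (rad k • w))) * vs C₁ f Ψ k w / (256 * C₁) ^ 2)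

theorem Smain_of (h1 : S1 d) (h2 : S2 d) (h3 : S3 d) : Smain d := by
  intro K C₁ hK hC
  have hK0 : 0 ≤ K := by linarith
  refine ⟨900 * C₁ * K ^ 2, by positivity, ?_⟩
  intro f Ψ a b hf hΨ hf1 hΨ1 ha hb hfa hΨb hra hrb k
  -- the weights along the rays
  have hra' : ∀ z ∈ (B d), ∀ t : ℝ, 0 ≤ t → t ≤ 1 → a (t • z) ≤ K * a z * (uu z t)⁻¹ := by
    intro z hz t h0 h1
    have := hra z hz t h0 h1
    rw [uu_inv hz h1] at this
    linarith [this, mul_right_comm K (a z) (uu z t)⁻¹]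
  have hrb' : ∀ z ∈ (B d), ∀ t : ℝ, 0 ≤ t → t ≤ 1 → b (t • z) ≤ K * b z * (uu z t)⁻¹ := by
    intro z hz t h0 h1
    have := hrb z hz t h0 h1
    rw [uu_inv hz h1] at this
    linarith [this, mul_right_comm K (b z) (uu z t)⁻¹]
  have hfR : ∀ z ∈ (B d), ∀ ξ, ‖fderiv ℝ f z ξ‖ ≤ a z * len z ξ := by
    intro z hz ξ
    rw [fderivR_eq (da_hol hf hz)]
    exact hfa z hz ξ
  have hΨd : ∀ z ∈ (B d), DifferentiableAt ℝ Ψ z := fun z hz =>
    (hΨ.differentiableOn (by norm_num)).differentiableAt (B_open.mem_nhds hz)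
  have key : ∀ k : ℕ, ContDiffOn ℝ 1 (vs C₁ f Ψ k) (B d) ∧ ∀ z ∈ (B d), ‖vs C₁ f Ψ k z‖ ≤ 256 * C₁ ∧
      ∀ ξ, ‖db (vs C₁ f Ψ k) z ξ - Ψ (rad k • z) *
        starRingEnd ℂ (fderiv ℂ (fun w => f (rad k • w)) z ξ)‖ ≤
        900 * C₁ * K ^ 2 * (a z * (a z + b z)) * len z ξ * uu z (rad k) ^ 2 := by
    intro k
    induction k with
    | zero =>
      refine ⟨contDiffOn_const, fun z hz => ⟨?_, fun ξ => ?_⟩⟩
      · simp only [vs, norm_zero]; positivity
      · have h4 : rad 0 = 0 := by simp [rad]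
        have h5 : (fun w : E d => f (rad 0 • w)) = fun _ => f 0 := by
          funext w; rw [h4, zero_smul]
        have h6 : db (vs C₁ f Ψ 0) z ξ = 0 := by
          simp only [vs, db]
          simp
        rw [h5, h6]
        simp only [fderiv_fun_const, Pi.zero_apply, zero_apply, map_zero,
          mul_zero, sub_zero, norm_zero]
        have := len_nonneg z ξ
        have h7 := (ha z hz).1
        have h8 := (hb z hz).1
        positivity
    | succ k ih =>
      obtain ⟨ih1, ih2⟩ := ih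
      set r := rad k with hr
      set r' := rad (k + 1) with hr'
      have hr0 : 0 ≤ r := rad_nonneg k
      have hr1 : r ≤ 1 := (rad_lt_one k).le
      have hr0' : 0 ≤ r' := rad_nonneg (k + 1)
      have hr1' : r' ≤ 1 := (rad_lt_one (k + 1)).le
      have hrr : r' - r = (1 / 2) ^ (k + 1) := rad_succ k
      have hrr' : r ≤ r' := by
        have : (0 : ℝ) < (1 / 2) ^ (k + 1) := by positivity
        linarith
      have hstep := fun (z : E d) (hz : z ∈ (B d)) (p : ℝ) (ξ : E d)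
        (hp1 : ‖fderiv ℝ (fun w => Ψ (r' • w)) z ξ‖ ≤ p)
        (hp2 : ‖fderiv ℝ (fun w => Ψ (r' • w)) z (I • ξ)‖ ≤ p) =>
        h1 C₁ p (vs C₁ f Ψ k) (fun w => Ψ (r • w)) (fun w => Ψ (r' • w)) (fun w => f (r • w))
          (fun w => f (r' • w)) z ξ hC
          ((ih1.differentiableOn (by norm_num)).differentiableAt (B_open.mem_nhds hz))
          (dil_hasFDerivAtR (hΨd _ (smul_mem_B hz hr0' hr1'))).differentiableAt
          (dil_hasFDerivAt (da_hol hf (smul_mem_B hz hr0 hr1))).differentiableAt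
          (dil_hasFDerivAt (da_hol hf (smul_mem_B hz hr0' hr1'))).differentiableAt
          (ih2 z hz).1 (hΨ1 _ (smul_mem_B hz hr0 hr1)) (hΨ1 _ (smul_mem_B hz hr0' hr1'))
          (by
            refine (norm_sub_le _ _).trans ?_
            have := hf1 _ (smul_mem_B hz hr0 hr1)
            have := hf1 _ (smul_mem_B hz hr0' hr1')
            linarith) hp1 hp2
          (fun w => Ψ (r' • w) * starRingEnd ℂ (f (r' • w) - f (r • w))) (vs C₁ f Ψ (k + 1))
          (fun w => rfl) (fun w => rfl)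
      refine ⟨?_, fun z hz => ⟨?_, fun ξ => ?_⟩⟩
      · -- regularity
        have hc : ContDiffOn ℝ 1 (fun w => Ψ (r' • w) *
            starRingEnd ℂ (f (r' • w) - f (r • w))) (B d) := by
          refine (cd_dil hΨ hr0' hr1').mul ?_
          exact (Complex.conjCLE.contDiff.comp_contDiffOn
            ((cd_dil (cd_hol hf) hr0' hr1').sub (cd_dil (cd_hol hf) hr0 hr1)))
        have hc2 : ContDiffOn ℝ 1 (fun w => starRingEnd ℂ (Ψ (r' • w) *
            starRingEnd ℂ (f (r' • w) - f (r • w)))) (B d) :=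
          Complex.conjCLE.contDiff.comp_contDiffOn hc
        have hden : ContDiffOn ℝ 1 (fun w => 1 + starRingEnd ℂ (Ψ (r' • w) *
            starRingEnd ℂ (f (r' • w) - f (r • w))) * vs C₁ f Ψ k w / (256 * C₁) ^ 2) (B d) :=
          ContDiffOn.add contDiffOn_const ((hc2.mul ih1).div_const _)
        have hinv := hden.inv (fun z hz =>
          (hstep z hz _ 0 (le_max_left _ _) (le_max_right _ _)).2.1)
        refine ((ih1.add hc).mul hinv).congr fun w _ => ?_
        simp only [vs, div_eq_mul_inv]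
        rfl
      · exact (hstep z hz _ 0 (le_max_left _ _) (le_max_right _ _)).1
      · -- the estimate
        have hL := len_nonneg z ξ
        have ha0 := (ha z hz).1
        have hb0 := (hb z hz).1
        have hx := x_pos hz
        have hrp := r_pos hz hr1
        have hrp' := r_pos hz hr1'
        have hn := nm_nonneg z
        set u := uu z r with hu
        set u' := uu z r' with hu'
        have hu0 : 0 < u := uu_pos hz hr1
        have hu0' : 0 < u' := uu_pos hz hr1'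
        set s := (r' - r) * nm z / (1 - r' * nm z) with hs
        have hs0 : 0 ≤ s := div_nonneg (mul_nonneg (by linarith) hn) hrp'.le
        have hs1 : s ≤ 1 := by
          rw [hs, div_le_one hrp']
          have h5 : r' = 1 - (1 / 2) ^ (k + 1) := rfl
          rw [hrr, h5]
          nlinarith
        have hus : u' ^ 8 = u ^ 8 * (1 + s) := by
          rw [hu, hu', uu_pow hz hr1, uu_pow hz hr1', hs]
          have e1 := hrp.ne'
          have e2 := hrp'.ne'
          have e3 : 1 + (r' - r) * nm z / (1 - r' * nm z) = (1 - r * nm z) / (1 - r' * nm z) := by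
            rw [eq_div_iff e2, add_mul, div_mul_cancel₀ _ e2]; ring
          rw [e3, div_mul_div_cancel₀ e1]
        -- differences
        have hd1 : ‖f (r' • z) - f (r • z)‖ ≤ s := by
          have := h3 f z r r' 1 ((cd_hol hf).differentiableOn (by norm_num)) hz hr0 hrr' hr1'
            (fun t ht0 ht1 η => by
              have hmem := smul_mem_B hz (hr0.trans ht0) (ht1.trans hr1')
              refine (hfR _ hmem η).trans ?_
              exact mul_le_mul_of_nonneg_right (ha _ hmem).2 (len_nonneg _ _))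
          rw [one_mul] at this
          exact this
        have hai : ∀ t, r ≤ t → t ≤ r' → (uu z t)⁻¹ ≤ u⁻¹ := fun t ht0 ht1 =>
          inv_anti₀ hu0 (uu_mono hz ht0 (ht1.trans hr1'))
        have hd2 : ‖f (r' • z) - f (r • z)‖ ≤ K * a z * (s / u) := by
          have := h3 f z r r' (K * a z * u⁻¹) ((cd_hol hf).differentiableOn (by norm_num)) hz hr0
            hrr' hr1' (fun t ht0 ht1 η => by
              have hmem := smul_mem_B hz (hr0.trans ht0) (ht1.trans hr1')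
              refine (hfR _ hmem η).trans ?_
              refine mul_le_mul_of_nonneg_right ?_ (len_nonneg _ _)
              refine (hra' z hz t (hr0.trans ht0) (ht1.trans hr1')).trans ?_
              exact mul_le_mul_of_nonneg_left (hai t ht0 ht1) (by positivity))
          refine this.trans (le_of_eq ?_)
          rw [hs]; ring
        have hdP : ‖Ψ (r • z) - Ψ (r' • z)‖ ≤ C₁ * (K * (a z + b z)) * (s / u) := by
          rw [norm_sub_rev]
          have := h3 Ψ z r r' (C₁ * (K * (a z + b z)) * u⁻¹) (hΨ.differentiableOn (by norm_num)) hz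
            hr0 hrr' hr1' (fun t ht0 ht1 η => by
              have hmem := smul_mem_B hz (hr0.trans ht0) (ht1.trans hr1')
              refine (hΨb _ hmem η).trans ?_
              rw [← mul_assoc]
              refine mul_le_mul_of_nonneg_right ?_ (len_nonneg _ _)
              have h5 := hra' z hz t (hr0.trans ht0) (ht1.trans hr1')
              have h6 := hrb' z hz t (hr0.trans ht0) (ht1.trans hr1')
              have h7 : a (t • z) + b (t • z) ≤ K * (a z + b z) * (uu z t)⁻¹ := by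
                calc _ ≤ K * a z * (uu z t)⁻¹ + K * b z * (uu z t)⁻¹ := add_le_add h5 h6
                  _ = _ := by ring
              have h8 : K * (a z + b z) * (uu z t)⁻¹ ≤ K * (a z + b z) * u⁻¹ :=
                mul_le_mul_of_nonneg_left (hai t ht0 ht1) (by positivity)
              calc C₁ * (a (t • z) + b (t • z)) ≤ C₁ * (K * (a z + b z) * u⁻¹) :=
                    mul_le_mul_of_nonneg_left (h7.trans h8) hC.le
                _ = _ := by ring)
          refine this.trans (le_of_eq ?_)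
          rw [hs]; ring
        -- derivatives
        have hD0 : ‖fderiv ℂ (fun w => f (r • w)) z ξ‖ ≤ 3 / 2 * K * a z * u ^ 3 * len z ξ := by
          have hmem := smul_mem_B hz hr0 hr1
          rw [dil_fderiv (da_hol hf hmem)]
          refine (hfa _ hmem _).trans ?_
          rw [len_smul hr0]
          have h5 := ray_bound h2 hz hr0 hr1 (A := a (r • z)) (A₀ := K * a z)
            (hra' z hz r hr0 hr1) (by positivity) ξ
          have h6 : 0 ≤ a (r • z) * len (r • z) ξ := mul_nonneg (ha _ hmem).1 (len_nonneg _ _)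
          calc a (r • z) * (r * len (r • z) ξ) = r * (a (r • z) * len (r • z) ξ) := by ring
            _ ≤ 1 * (a (r • z) * len (r • z) ξ) := mul_le_mul_of_nonneg_right hr1 h6
            _ ≤ 3 / 2 * (K * a z) * uu z r ^ 3 * len z ξ := by rw [one_mul]; exact h5
            _ = _ := by ring
        have hD1 : ‖fderiv ℂ (fun w => f (r' • w)) z ξ‖ ≤ 3 / 2 * K * a z * u' ^ 3 * len z ξ := by
          have hmem := smul_mem_B hz hr0' hr1'
          rw [dil_fderiv (da_hol hf hmem)]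
          refine (hfa _ hmem _).trans ?_
          rw [len_smul hr0']
          have h5 := ray_bound h2 hz hr0' hr1' (A := a (r' • z)) (A₀ := K * a z)
            (hra' z hz r' hr0' hr1') (by positivity) ξ
          have h6 : 0 ≤ a (r' • z) * len (r' • z) ξ := mul_nonneg (ha _ hmem).1 (len_nonneg _ _)
          calc a (r' • z) * (r' * len (r' • z) ξ) = r' * (a (r' • z) * len (r' • z) ξ) := by ring
            _ ≤ 1 * (a (r' • z) * len (r' • z) ξ) := mul_le_mul_of_nonneg_right hr1' h6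
            _ ≤ 3 / 2 * (K * a z) * uu z r' ^ 3 * len z ξ := by rw [one_mul]; exact h5
            _ = _ := by ring
        have hP : ∀ η : E d, len z η = len z ξ → ‖fderiv ℝ (fun w => Ψ (r' • w)) z η‖ ≤
            C₁ * (3 / 2 * K * (a z + b z) * u' ^ 3 * len z ξ) := by
          intro η hη
          have hmem := smul_mem_B hz hr0' hr1'
          rw [dil_fderivR (hΨd _ hmem)]
          refine (hΨb _ hmem _).trans ?_
          rw [len_smul hr0']
          refine mul_le_mul_of_nonneg_left ?_ hC.le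
          have h5 := ray_bound h2 hz hr0' hr1' (A := a (r' • z) + b (r' • z))
            (A₀ := K * (a z + b z)) (by
              have h5 := hra' z hz r' hr0' hr1'
              have h6 := hrb' z hz r' hr0' hr1'
              calc _ ≤ K * a z * (uu z r')⁻¹ + K * b z * (uu z r')⁻¹ := add_le_add h5 h6
                _ = _ := by ring) (by positivity) η
          rw [hη] at h5
          have h6 : 0 ≤ (a (r' • z) + b (r' • z)) * len (r' • z) η :=
            mul_nonneg (add_nonneg (ha _ hmem).1 (hb _ hmem).1) (len_nonneg _ _)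
          calc (a (r' • z) + b (r' • z)) * (r' * len (r' • z) η) =
              r' * ((a (r' • z) + b (r' • z)) * len (r' • z) η) := by ring
            _ ≤ 1 * ((a (r' • z) + b (r' • z)) * len (r' • z) η) :=
              mul_le_mul_of_nonneg_right hr1' h6
            _ ≤ 3 / 2 * (K * (a z + b z)) * uu z r' ^ 3 * len z ξ := by rw [one_mul]; exact h5
            _ = _ := by ring
        have hmain := (hstep z hz _ ξ (hP ξ rfl) (hP (I • ξ) (len_I z ξ))).2.2.1
        exact num_step hC hK0 ha0 hb0 hL hu0 hu0' hs0 hs1 hus hd1 hd2 (norm_nonneg _)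
          (norm_nonneg _) hD0 hD1 (by positivity) le_rfl hdP (norm_nonneg _) ((ih2 z hz).2 ξ) hmain
  obtain ⟨hk1, hk2⟩ := key k
  refine ⟨vs C₁ f Ψ k, hk1, fun z hz => (hk2 z hz).1, fun z hz ξ => ?_⟩
  have h5 := (hk2 z hz).2 ξ
  rw [dil_fderiv (da_hol hf (smul_mem_B hz (rad_nonneg k) (rad_lt_one k).le))] at h5
  refine h5.trans ?_
  have h6 := uu_le_one hz (rad_lt_one k).le
  have h7 := (uu_pos hz (rad_lt_one k).le).le
  have h8 : uu z (rad k) ^ 2 ≤ 1 := pow_le_one₀ h7 h6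
  have ha0 := (ha z hz).1
  have hb0 := (hb z hz).1
  have h9 : 0 ≤ 900 * C₁ * K ^ 2 * (a z * (a z + b z)) * len z ξ :=
    mul_nonneg (by positivity) (len_nonneg _ _)
  calc _ ≤ 900 * C₁ * K ^ 2 * (a z * (a z + b z)) * len z ξ * 1 :=
        mul_le_mul_of_nonneg_left h8 h9
    _ = _ := by ring

end Pool.Agent.N290.RJ
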