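import Mathlib
import Pool.Agent.N290.RJ.Stm
import Pool.Agent.N290.RJ.Un
import Pool.Agent.N290.RJ.Sm

/-!
# The recursion for radial majorants
-/

set_option autoImplicit false

open Complex MeasureTheory Set Filter Topology

namespace Pool.Agent.N290.RJ

variable {d : ℕ}

/-- the regularity of radial majorants -/
theorem reg_rad {ω : ℝ → ℝ} {C : ℝ} (hC : 0 ≤ C) (hω0 : ∀ t, 0 ≤ ω t)
    (hω : ∀ s t : ℝ, 0 < t → t ≤ s → s ≤ 1 → ω s ≤ C * (s / t) ^ (1 / 8 : ℝ) * ω t)
    {z : E d} (hz : z ∈ B d) {t : ℝ} (ht0 : 0 ≤ t) (ht1 : t ≤ 1) :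
    ω (1 - N (t • z)) ≤ C * ((1 - t * nm z) / (1 - nm z)) ^ (1 / 8 : ℝ) * ω (1 - N z) := by
  have hx := x_pos hz
  have hr := r_pos hz ht1
  have hn := nm_nonneg z
  have hNz : N z = nm z ^ 2 := (nm_sq z).symm
  have h1 : 0 < 1 - N z := sub_pos.2 hz
  have ht2 : t ^ 2 ≤ 1 := pow_le_one₀ ht0 ht1
  have h2 : 1 - N z ≤ 1 - N (t • z) := by
    rw [N_smul]
    have := N_nonneg z
    nlinarith
  have h3 : 1 - N (t • z) ≤ 1 := by
    have := N_nonneg (t • z)
    linarith
  refine (hω _ _ h1 h2 h3).trans ?_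
  refine mul_le_mul_of_nonneg_right (mul_le_mul_of_nonneg_left ?_ hC) (hω0 _)
  refine Real.rpow_le_rpow (div_nonneg (h1.le.trans h2) h1.le) ?_ (by norm_num)
  rw [div_le_div_iff₀ h1 hx, N_smul, hNz]
  have h4 : (1 - t * nm z) * (1 - nm z ^ 2) - (1 - t ^ 2 * nm z ^ 2) * (1 - nm z) =
      (1 - t * nm z) * (1 - nm z) * ((1 - t) * nm z) := by ring
  have h5 : 0 ≤ (1 - t * nm z) * (1 - nm z) * ((1 - t) * nm z) :=
    mul_nonneg (mul_nonneg hr.le hx.le) (mul_nonneg (by linarith) hn)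
  linarith

/-- numerical step for the derivatives `∂` -/
theorem num_dd {C₁ C₄ K a L u u' s s'' δk c d D D' p Δ : ℝ} (hC : 0 < C₁) (hC4 : 0 < C₄)
    (hK : 0 ≤ K) (ha : 0 ≤ a) (hL : 0 ≤ L) (hu : 0 < u) (hu' : 0 < u') (hu1 : u' ≤ 1)
    (hs0 : 0 ≤ s) (hs1 : s ≤ 1) (hus : u' ^ 8 = u ^ 8 * (1 + s)) (hss : s ≤ s'')
    (hδ : 7 / 64 * s'' ≤ 7 / 64 * s + δk) (hδ0 : 0 ≤ δk) (hc : 1 ≤ c)
    (hd0 : 0 ≤ d) (hd1 : d ≤ s)
    (hp : p ≤ C₁ * (3 / 2 * K * (a + a) * u' ^ 3 * L)) (hp0 : 0 ≤ p)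
    (hΔ : Δ ≤ C₄ * (3 / 2 * K * a * u' ^ 3 * L) * s'')
    (hD0 : 0 ≤ D)
    (hD : D ≤ 10 * (48 * C₁ * K + 12 * C₁ * C₄ * K) * a * L * u ^ 2 * c)
    (hD' : D' ≤ (1 + d / 64) * D + 4 * p * d + 2 * C₁ * Δ) :
    D' ≤ 10 * (48 * C₁ * K + 12 * C₁ * C₄ * K) * a * L * u' ^ 2 * (c + δk) := by
  obtain ⟨h1, h3⟩ := num_b hu hu' hs0 hs1 hus
  have h2 : u' ≤ 2 * u := by
    refine le_of_pow_le_pow_left₀ (n := 8) (by norm_num) (by positivity) ?_
    rw [hus]
    have h3 : 0 ≤ u ^ 8 := by positivity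
    have h4 : (2 * u) ^ 8 = u ^ 8 * 256 := by ring
    rw [h4]
    exact mul_le_mul_of_nonneg_left (by linarith) h3
  have h4 : u' ^ 3 ≤ 4 * u ^ 2 := by
    calc u' ^ 3 = u' ^ 2 * u' := by ring
      _ ≤ u' ^ 2 * 1 := mul_le_mul_of_nonneg_left hu1 (by positivity)
      _ = u' ^ 2 := by ring
      _ ≤ (2 * u) ^ 2 := pow_le_pow_left₀ hu'.le h2 2
      _ = 4 * u ^ 2 := by ring
  have hs'' : 0 ≤ s'' := hs0.trans hss
  have hT2 : 4 * p * d ≤ (48 * C₁ * K) * (a * L * u ^ 2 * s'') := by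
    have h5 : p ≤ C₁ * (3 / 2 * K * (a + a) * (4 * u ^ 2) * L) := by
      refine hp.trans (mul_le_mul_of_nonneg_left ?_ hC.le)
      exact mul_le_mul_of_nonneg_right (mul_le_mul_of_nonneg_left h4 (by positivity)) hL
    calc 4 * p * d ≤ 4 * (C₁ * (3 / 2 * K * (a + a) * (4 * u ^ 2) * L)) * s'' :=
          mul_le_mul (by linarith) (hd1.trans hss) hd0 (by positivity)
      _ = _ := by ring
  have hT3 : 2 * C₁ * Δ ≤ (12 * C₁ * C₄ * K) * (a * L * u ^ 2 * s'') := by
    have h5 : Δ ≤ C₄ * (3 / 2 * K * a * (4 * u ^ 2) * L) * s'' := by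
      refine hΔ.trans (mul_le_mul_of_nonneg_right (mul_le_mul_of_nonneg_left ?_ hC4.le) hs'')
      exact mul_le_mul_of_nonneg_right (mul_le_mul_of_nonneg_left h4 (by positivity)) hL
    calc 2 * C₁ * Δ ≤ 2 * C₁ * (C₄ * (3 / 2 * K * a * (4 * u ^ 2) * L) * s'') :=
          mul_le_mul_of_nonneg_left h5 (by positivity)
      _ = _ := by ring
  obtain ⟨X, hX⟩ : ∃ X, X = 48 * C₁ * K + 12 * C₁ * C₄ * K := ⟨_, rfl⟩
  have hX0 : 0 ≤ X := by rw [hX]; positivity
  have hT : 4 * p * d + 2 * C₁ * Δ ≤ X * (a * L * u ^ 2 * s'') := by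
    rw [hX, add_mul]; linarith
  rw [← hX] at hD ⊢
  obtain ⟨W, hW⟩ : ∃ W, W = 10 * X * a * L := ⟨_, rfl⟩
  have hW0 : 0 ≤ W := by rw [hW]; positivity
  have hT1 : (1 + d / 64) * D ≤ (1 + s / 64) * (W * u ^ 2 * c) := by
    rw [hW]
    exact mul_le_mul (by linarith) hD hD0 (by linarith)
  have hT' : X * (a * L * u ^ 2 * s'') = 1 / 10 * (W * u ^ 2) * s'' := by rw [hW]; ring
  rw [hT'] at hT
  have hfin : W * (u ^ 2 * (1 + s / 8)) * (c + δk) ≤ W * u' ^ 2 * (c + δk) :=
    mul_le_mul_of_nonneg_right (mul_le_mul_of_nonneg_left h1 hW0) (by linarith)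
  have hV0 : 0 ≤ W * u ^ 2 := by positivity
  obtain ⟨V, hV⟩ : ∃ V, V = W * u ^ 2 := ⟨_, rfl⟩
  rw [← hV] at hV0 hT
  have e1 : (1 + s / 64) * (W * u ^ 2 * c) = V * ((1 + s / 64) * c) := by rw [hV]; ring
  have e2 : W * (u ^ 2 * (1 + s / 8)) * (c + δk) = V * ((1 + s / 8) * (c + δk)) := by rw [hV]; ring
  have e3 : 1 / 10 * V * s'' = V * (s'' / 10) := by ring
  rw [e1] at hT1
  rw [e2] at hfin
  rw [e3] at hT
  have e4 : (1 + s / 64) * c + s'' / 10 ≤ (1 + s / 8) * (c + δk) := by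
    have h6 : 7 / 64 * s ≤ 7 / 64 * s * c := le_mul_of_one_le_right (by positivity) hc
    have h7 : 0 ≤ s * δk := mul_nonneg hs0 hδ0
    nlinarith
  have e5 := mul_le_mul_of_nonneg_left e4 hV0
  have e6 : 10 * X * a * L * u' ^ 2 * (c + δk) = W * u' ^ 2 * (c + δk) := by rw [hW]
  rw [e6]
  rw [mul_add] at e5
  linarith

theorem SmainR_of (h1 : S1 d) (h2 : S2 d) (h3 : S3 d) (h4S : S4 d) : SmainR d := by
  intro K C₁ hK hC
  have hK0 : 0 ≤ K := by linarith
  obtain ⟨C₄, hC₄, h4S⟩ := h4S K hK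
  obtain ⟨C₅, hC₅⟩ : ∃ C₅, C₅ = 10 * (48 * C₁ * K + 12 * C₁ * C₄ * K) := ⟨_, rfl⟩
  have hC₅0 : 0 ≤ C₅ := by rw [hC₅]; positivity
  refine ⟨1800 * C₁ * K ^ 2 + 2 * C₁ * K + 2 * C₅, by positivity, ?_⟩
  intro f Ψ ω hf hΨ hf1 hΨ1 hω hfω hΨω k
  obtain ⟨a, haω⟩ : ∃ a : E d → ℝ, a = fun z => ω (1 - N z) := ⟨_, rfl⟩
  have ha : ∀ z ∈ B d, 0 ≤ a z ∧ a z ≤ 1 := fun z _ => by rw [haω]; exact hω.2.1 _
  have hfa : ∀ z ∈ B d, ∀ ξ, ‖fderiv ℂ f z ξ‖ ≤ a z * len z ξ := by rw [haω]; exact hfω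
  have hra : ∀ z ∈ B d, ∀ t : ℝ, 0 ≤ t → t ≤ 1 →
      a (t • z) ≤ K * ((1 - t * nm z) / (1 - nm z)) ^ (1 / 8 : ℝ) * a z := by
    intro z hz t ht0 ht1
    rw [haω]
    exact reg_rad hK0 (fun t => (hω.2.1 t).1) hω.2.2 hz ht0 ht1
  have hΨb : ∀ z ∈ B d, ∀ ξ, ‖fderiv ℝ Ψ z ξ‖ ≤ C₁ * ((a z + a z) * len z ξ) := by
    intro z hz ξ
    refine (hΨω z hz ξ).trans (mul_le_mul_of_nonneg_left ?_ hC.le)
    have h5 := (ha z hz).1
    have h6 : ω (1 - N z) = a z := by rw [haω]
    rw [h6]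
    exact mul_le_mul_of_nonneg_right (by linarith) (len_nonneg _ _)
  obtain ⟨b, hbω⟩ : ∃ b : E d → ℝ, b = a := ⟨_, rfl⟩
  have hb : ∀ z ∈ B d, 0 ≤ b z ∧ b z ≤ 1 := by rw [hbω]; exact ha
  have hrb : ∀ z ∈ B d, ∀ t : ℝ, 0 ≤ t → t ≤ 1 →
      b (t • z) ≤ K * ((1 - t * nm z) / (1 - nm z)) ^ (1 / 8 : ℝ) * b z := by rw [hbω]; exact hra
  have hΨb : ∀ z ∈ B d, ∀ ξ, ‖fderiv ℝ Ψ z ξ‖ ≤ C₁ * ((a z + b z) * len z ξ) := by
    rw [hbω]; exact hΨb
  -- the weights along the rays
  have hra' : ∀ z ∈ (B d), ∀ t : ℝ, 0 ≤ t → t ≤ 1 → a (t • z) ≤ K * a z * (uu z t)⁻¹ := by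
    intro z hz t h0 h1
    have := hra z hz t h0 h1
    rw [uu_inv hz h1] at this
    linarith [this, mul_right_comm K (a z) (uu z t)⁻¹]
  have hrb' : ∀ z ∈ (B d), ∀ t : ℝ, 0 ≤ t → t ≤ 1 → b (t • z) ≤ K * b z * (uu z t)⁻¹ := by
    intro z hz t h0 h1
    have := hrb z hz t h0 h1
    rw [uu_inv hz h1] at this
    linarith [this, mul_right_comm K (b z) (uu z t)⁻¹]
  have hfR : ∀ z ∈ (B d), ∀ ξ, ‖fderiv ℝ f z ξ‖ ≤ a z * len z ξ := by
    intro z hz ξ
    rw [fderivR_eq (da_hol hf hz)]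
    exact hfa z hz ξ
  have hΨd : ∀ z ∈ (B d), DifferentiableAt ℝ Ψ z := fun z hz =>
    (hΨ.differentiableOn (by norm_num)).differentiableAt (B_open.mem_nhds hz)
  have key : ∀ k : ℕ, ContDiffOn ℝ 1 (vs C₁ f Ψ k) (B d) ∧ ∀ z ∈ (B d), ‖vs C₁ f Ψ k z‖ ≤ 256 * C₁ ∧
      ∀ ξ, (‖db (vs C₁ f Ψ k) z ξ - Ψ (rad k • z) *
        starRingEnd ℂ (fderiv ℂ (fun w => f (rad k • w)) z ξ)‖ ≤
        900 * C₁ * K ^ 2 * (a z * (a z + b z)) * len z ξ * uu z (rad k) ^ 2) ∧
        ‖dd (vs C₁ f Ψ k) z ξ‖ ≤ C₅ * a z * len z ξ * uu z (rad k) ^ 2 * (1 + rad k) := by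
    intro k
    induction k with
    | zero =>
      refine ⟨contDiffOn_const, fun z hz => ⟨?_, fun ξ => ?_⟩⟩
      · simp only [vs, norm_zero]; positivity
      · have h4 : rad 0 = 0 := by simp [rad]
        have h5 : (fun w : E d => f (rad 0 • w)) = fun _ => f 0 := by
          funext w; rw [h4, zero_smul]
        have h6 : db (vs C₁ f Ψ 0) z ξ = 0 := by
          simp only [vs, db]
          simp
        have h6' : dd (vs C₁ f Ψ 0) z ξ = 0 := by
          simp only [vs, dd]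
          simp
        rw [h5, h6, h6']
        simp only [fderiv_fun_const, Pi.zero_apply, zero_apply, map_zero,
          mul_zero, sub_zero, norm_zero]
        have := len_nonneg z ξ
        have h7 := (ha z hz).1
        have h8 := (hb z hz).1
        have h9 := rad_nonneg 0
        constructor <;> positivity
    | succ k ih =>
      obtain ⟨ih1, ih2⟩ := ih
      set r := rad k with hr
      set r' := rad (k + 1) with hr'
      have hr0 : 0 ≤ r := rad_nonneg k
      have hr1 : r ≤ 1 := (rad_lt_one k).le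
      have hr0' : 0 ≤ r' := rad_nonneg (k + 1)
      have hr1' : r' ≤ 1 := (rad_lt_one (k + 1)).le
      have hrr : r' - r = (1 / 2) ^ (k + 1) := rad_succ k
      have hrr' : r ≤ r' := by
        have : (0 : ℝ) < (1 / 2) ^ (k + 1) := by positivity
        linarith
      have hstep := fun (z : E d) (hz : z ∈ (B d)) (p : ℝ) (ξ : E d)
        (hp1 : ‖fderiv ℝ (fun w => Ψ (r' • w)) z ξ‖ ≤ p)
        (hp2 : ‖fderiv ℝ (fun w => Ψ (r' • w)) z (I • ξ)‖ ≤ p) =>
        h1 C₁ p (vs C₁ f Ψ k) (fun w => Ψ (r • w)) (fun w => Ψ (r' • w)) (fun w => f (r • w))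
          (fun w => f (r' • w)) z ξ hC
          ((ih1.differentiableOn (by norm_num)).differentiableAt (B_open.mem_nhds hz))
          (dil_hasFDerivAtR (hΨd _ (smul_mem_B hz hr0' hr1'))).differentiableAt
          (dil_hasFDerivAt (da_hol hf (smul_mem_B hz hr0 hr1))).differentiableAt
          (dil_hasFDerivAt (da_hol hf (smul_mem_B hz hr0' hr1'))).differentiableAt
          (ih2 z hz).1 (hΨ1 _ (smul_mem_B hz hr0 hr1)) (hΨ1 _ (smul_mem_B hz hr0' hr1'))
          (by
            refine (norm_sub_le _ _).trans ?_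
            have := hf1 _ (smul_mem_B hz hr0 hr1)
            have := hf1 _ (smul_mem_B hz hr0' hr1')
            linarith) hp1 hp2
          (fun w => Ψ (r' • w) * starRingEnd ℂ (f (r' • w) - f (r • w))) (vs C₁ f Ψ (k + 1))
          (fun w => rfl) (fun w => rfl)
      refine ⟨?_, fun z hz => ⟨?_, fun ξ => ?_⟩⟩
      · -- regularity
        have hc : ContDiffOn ℝ 1 (fun w => Ψ (r' • w) *
            starRingEnd ℂ (f (r' • w) - f (r • w))) (B d) := by
          refine (cd_dil hΨ hr0' hr1').mul ?_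
          exact (Complex.conjCLE.contDiff.comp_contDiffOn
            ((cd_dil (cd_hol hf) hr0' hr1').sub (cd_dil (cd_hol hf) hr0 hr1)))
        have hc2 : ContDiffOn ℝ 1 (fun w => starRingEnd ℂ (Ψ (r' • w) *
            starRingEnd ℂ (f (r' • w) - f (r • w)))) (B d) :=
          Complex.conjCLE.contDiff.comp_contDiffOn hc
        have hden : ContDiffOn ℝ 1 (fun w => 1 + starRingEnd ℂ (Ψ (r' • w) *
            starRingEnd ℂ (f (r' • w) - f (r • w))) * vs C₁ f Ψ k w / (256 * C₁) ^ 2) (B d) :=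
          ContDiffOn.add contDiffOn_const ((hc2.mul ih1).div_const _)
        have hinv := hden.inv (fun z hz =>
          (hstep z hz _ 0 (le_max_left _ _) (le_max_right _ _)).2.1)
        refine ((ih1.add hc).mul hinv).congr fun w _ => ?_
        simp only [vs, div_eq_mul_inv]
        rfl
      · exact (hstep z hz _ 0 (le_max_left _ _) (le_max_right _ _)).1
      · -- the estimate
        have hL := len_nonneg z ξ
        have ha0 := (ha z hz).1
        have hb0 := (hb z hz).1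
        have hx := x_pos hz
        have hrp := r_pos hz hr1
        have hrp' := r_pos hz hr1'
        have hn := nm_nonneg z
        set u := uu z r with hu
        set u' := uu z r' with hu'
        have hu0 : 0 < u := uu_pos hz hr1
        have hu0' : 0 < u' := uu_pos hz hr1'
        set s := (r' - r) * nm z / (1 - r' * nm z) with hs
        have hs0 : 0 ≤ s := div_nonneg (mul_nonneg (by linarith) hn) hrp'.le
        have hs1 : s ≤ 1 := by
          rw [hs, div_le_one hrp']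
          have h5 : r' = 1 - (1 / 2) ^ (k + 1) := rfl
          rw [hrr, h5]
          nlinarith
        have hus : u' ^ 8 = u ^ 8 * (1 + s) := by
          rw [hu, hu', uu_pow hz hr1, uu_pow hz hr1', hs]
          have e1 := hrp.ne'
          have e2 := hrp'.ne'
          have e3 : 1 + (r' - r) * nm z / (1 - r' * nm z) = (1 - r * nm z) / (1 - r' * nm z) := by
            rw [eq_div_iff e2, add_mul, div_mul_cancel₀ _ e2]; ring
          rw [e3, div_mul_div_cancel₀ e1]
        -- differences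
        have hd1 : ‖f (r' • z) - f (r • z)‖ ≤ s := by
          have := h3 f z r r' 1 ((cd_hol hf).differentiableOn (by norm_num)) hz hr0 hrr' hr1'
            (fun t ht0 ht1 η => by
              have hmem := smul_mem_B hz (hr0.trans ht0) (ht1.trans hr1')
              refine (hfR _ hmem η).trans ?_
              exact mul_le_mul_of_nonneg_right (ha _ hmem).2 (len_nonneg _ _))
          rw [one_mul] at this
          exact this
        have hai : ∀ t, r ≤ t → t ≤ r' → (uu z t)⁻¹ ≤ u⁻¹ := fun t ht0 ht1 =>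
          inv_anti₀ hu0 (uu_mono hz ht0 (ht1.trans hr1'))
        have hd2 : ‖f (r' • z) - f (r • z)‖ ≤ K * a z * (s / u) := by
          have := h3 f z r r' (K * a z * u⁻¹) ((cd_hol hf).differentiableOn (by norm_num)) hz hr0
            hrr' hr1' (fun t ht0 ht1 η => by
              have hmem := smul_mem_B hz (hr0.trans ht0) (ht1.trans hr1')
              refine (hfR _ hmem η).trans ?_
              refine mul_le_mul_of_nonneg_right ?_ (len_nonneg _ _)
              refine (hra' z hz t (hr0.trans ht0) (ht1.trans hr1')).trans ?_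
              exact mul_le_mul_of_nonneg_left (hai t ht0 ht1) (by positivity))
          refine this.trans (le_of_eq ?_)
          rw [hs]; ring
        have hdP : ‖Ψ (r • z) - Ψ (r' • z)‖ ≤ C₁ * (K * (a z + b z)) * (s / u) := by
          rw [norm_sub_rev]
          have := h3 Ψ z r r' (C₁ * (K * (a z + b z)) * u⁻¹) (hΨ.differentiableOn (by norm_num)) hz
            hr0 hrr' hr1' (fun t ht0 ht1 η => by
              have hmem := smul_mem_B hz (hr0.trans ht0) (ht1.trans hr1')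
              refine (hΨb _ hmem η).trans ?_
              rw [← mul_assoc]
              refine mul_le_mul_of_nonneg_right ?_ (len_nonneg _ _)
              have h5 := hra' z hz t (hr0.trans ht0) (ht1.trans hr1')
              have h6 := hrb' z hz t (hr0.trans ht0) (ht1.trans hr1')
              have h7 : a (t • z) + b (t • z) ≤ K * (a z + b z) * (uu z t)⁻¹ := by
                calc _ ≤ K * a z * (uu z t)⁻¹ + K * b z * (uu z t)⁻¹ := add_le_add h5 h6
                  _ = _ := by ring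
              have h8 : K * (a z + b z) * (uu z t)⁻¹ ≤ K * (a z + b z) * u⁻¹ :=
                mul_le_mul_of_nonneg_left (hai t ht0 ht1) (by positivity)
              calc C₁ * (a (t • z) + b (t • z)) ≤ C₁ * (K * (a z + b z) * u⁻¹) :=
                    mul_le_mul_of_nonneg_left (h7.trans h8) hC.le
                _ = _ := by ring)
          refine this.trans (le_of_eq ?_)
          rw [hs]; ring
        -- derivatives
        have hD0 : ‖fderiv ℂ (fun w => f (r • w)) z ξ‖ ≤ 3 / 2 * K * a z * u ^ 3 * len z ξ := by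
          have hmem := smul_mem_B hz hr0 hr1
          rw [dil_fderiv (da_hol hf hmem)]
          refine (hfa _ hmem _).trans ?_
          rw [len_smul hr0]
          have h5 := ray_bound h2 hz hr0 hr1 (A := a (r • z)) (A₀ := K * a z)
            (hra' z hz r hr0 hr1) (by positivity) ξ
          have h6 : 0 ≤ a (r • z) * len (r • z) ξ := mul_nonneg (ha _ hmem).1 (len_nonneg _ _)
          calc a (r • z) * (r * len (r • z) ξ) = r * (a (r • z) * len (r • z) ξ) := by ring
            _ ≤ 1 * (a (r • z) * len (r • z) ξ) := mul_le_mul_of_nonneg_right hr1 h6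
            _ ≤ 3 / 2 * (K * a z) * uu z r ^ 3 * len z ξ := by rw [one_mul]; exact h5
            _ = _ := by ring
        have hD1 : ‖fderiv ℂ (fun w => f (r' • w)) z ξ‖ ≤ 3 / 2 * K * a z * u' ^ 3 * len z ξ := by
          have hmem := smul_mem_B hz hr0' hr1'
          rw [dil_fderiv (da_hol hf hmem)]
          refine (hfa _ hmem _).trans ?_
          rw [len_smul hr0']
          have h5 := ray_bound h2 hz hr0' hr1' (A := a (r' • z)) (A₀ := K * a z)
            (hra' z hz r' hr0' hr1') (by positivity) ξ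
          have h6 : 0 ≤ a (r' • z) * len (r' • z) ξ := mul_nonneg (ha _ hmem).1 (len_nonneg _ _)
          calc a (r' • z) * (r' * len (r' • z) ξ) = r' * (a (r' • z) * len (r' • z) ξ) := by ring
            _ ≤ 1 * (a (r' • z) * len (r' • z) ξ) := mul_le_mul_of_nonneg_right hr1' h6
            _ ≤ 3 / 2 * (K * a z) * uu z r' ^ 3 * len z ξ := by rw [one_mul]; exact h5
            _ = _ := by ring
        have hP : ∀ η : E d, len z η = len z ξ → ‖fderiv ℝ (fun w => Ψ (r' • w)) z η‖ ≤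
            C₁ * (3 / 2 * K * (a z + b z) * u' ^ 3 * len z ξ) := by
          intro η hη
          have hmem := smul_mem_B hz hr0' hr1'
          rw [dil_fderivR (hΨd _ hmem)]
          refine (hΨb _ hmem _).trans ?_
          rw [len_smul hr0']
          refine mul_le_mul_of_nonneg_left ?_ hC.le
          have h5 := ray_bound h2 hz hr0' hr1' (A := a (r' • z) + b (r' • z))
            (A₀ := K * (a z + b z)) (by
              have h5 := hra' z hz r' hr0' hr1'
              have h6 := hrb' z hz r' hr0' hr1'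
              calc _ ≤ K * a z * (uu z r')⁻¹ + K * b z * (uu z r')⁻¹ := add_le_add h5 h6
                _ = _ := by ring) (by positivity) η
          rw [hη] at h5
          have h6 : 0 ≤ (a (r' • z) + b (r' • z)) * len (r' • z) η :=
            mul_nonneg (add_nonneg (ha _ hmem).1 (hb _ hmem).1) (len_nonneg _ _)
          calc (a (r' • z) + b (r' • z)) * (r' * len (r' • z) η) =
              r' * ((a (r' • z) + b (r' • z)) * len (r' • z) η) := by ring
            _ ≤ 1 * ((a (r' • z) + b (r' • z)) * len (r' • z) η) :=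
              mul_le_mul_of_nonneg_right hr1' h6
            _ ≤ 3 / 2 * (K * (a z + b z)) * uu z r' ^ 3 * len z ξ := by rw [one_mul]; exact h5
            _ = _ := by ring
        have hmain := (hstep z hz _ ξ (hP ξ rfl) (hP (I • ξ) (len_I z ξ))).2.2.1
        have hmain' := (hstep z hz _ ξ (hP ξ rfl) (hP (I • ξ) (len_I z ξ))).2.2.2
        refine ⟨num_step hC hK0 ha0 hb0 hL hu0 hu0' hs0 hs1 hus hd1 hd2 (norm_nonneg _)
          (norm_nonneg _) hD0 hD1 (by positivity) le_rfl hdP (norm_nonneg _) ((ih2 z hz).2 ξ).1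
          hmain, ?_⟩
        -- the derivatives `∂`
        have hmem' := smul_mem_B hz hr0' hr1'
        have hmem := smul_mem_B hz hr0 hr1
        have hΔ : ‖fderiv ℂ (fun w => f (r' • w)) z ξ - fderiv ℂ (fun w => f (r • w)) z ξ‖ ≤
            C₄ * (3 / 2 * K * a z * u' ^ 3 * len z ξ) * ((r' - r) / (1 - r' * nm z)) := by
          rw [dil_fderiv (da_hol hf hmem'), dil_fderiv (da_hol hf hmem)]
          have h5 := h4S f ω hf hω hfω z hz r r' hr0 hrr' (rad_lt_one (k + 1)) (by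
            rw [hrr]
            have h6 : r' = 1 - (1 / 2) ^ (k + 1) := rfl
            rw [h6]; linarith) ξ
          refine h5.trans ?_
          have h6 : ω (1 - N (r' • z)) = a (r' • z) := by rw [haω]
          rw [h6]
          have h7 := ray_bound h2 hz hr0' hr1' (A := a (r' • z)) (A₀ := K * a z)
            (hra' z hz r' hr0' hr1') (by positivity) ξ
          have h8 : 0 ≤ (r' - r) / (1 - r' * nm z) := div_nonneg (by linarith) hrp'.le
          calc C₄ * a (r' • z) * ((r' - r) / (1 - r' * nm z)) * len (r' • z) ξ =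
              C₄ * (a (r' • z) * len (r' • z) ξ) * ((r' - r) / (1 - r' * nm z)) := by ring
            _ ≤ C₄ * (3 / 2 * (K * a z) * uu z r' ^ 3 * len z ξ) *
                ((r' - r) / (1 - r' * nm z)) :=
              mul_le_mul_of_nonneg_right (mul_le_mul_of_nonneg_left h7 hC₄.le) h8
            _ = _ := by ring
        have hn1 : nm z ≤ 1 := (mem_B_nm.1 hz).le
        have hδ0 : 0 ≤ r' - r := by linarith
        have hs''0 : 0 ≤ (r' - r) / (1 - r' * nm z) := div_nonneg hδ0 hrp'.le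
        have hss : s ≤ (r' - r) / (1 - r' * nm z) := by
          rw [hs]
          refine div_le_div_of_nonneg_right ?_ hrp'.le
          nlinarith
        have hδk : 7 / 64 * ((r' - r) / (1 - r' * nm z)) ≤ 7 / 64 * s + (r' - r) := by
          have h5 : s = (r' - r) / (1 - r' * nm z) * nm z := by rw [hs]; ring
          have h6 : r' - r = (r' - r) / (1 - r' * nm z) * (1 - r' * nm z) := by
            field_simp
          have h7 : (r' - r) / (1 - r' * nm z) * (1 - nm z) ≤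
              (r' - r) / (1 - r' * nm z) * (1 - r' * nm z) := by
            refine mul_le_mul_of_nonneg_left ?_ hs''0
            nlinarith
          rw [← h6] at h7
          nlinarith
        have hbz : b z = a z := by rw [hbω]
        have hDk := ((ih2 z hz).2 ξ).2
        rw [hbz] at hmain'
        have hfin := num_dd (c := 1 + r) (δk := r' - r) hC hC₄ hK0 ha0 hL hu0 hu0'
          (uu_le_one hz hr1') hs0 hs1 hus hss hδk hδ0 (by linarith) (norm_nonneg _) hd1 le_rfl
          (by positivity) hΔ (norm_nonneg _) (by rw [← hC₅]; exact hDk) hmain'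
        rw [← hC₅] at hfin
        refine hfin.trans (le_of_eq ?_)
        ring
  obtain ⟨hk1, hk2⟩ := key k
  refine ⟨vs C₁ f Ψ k, hk1, fun z hz => (hk2 z hz).1, fun z hz ξ => ?_⟩
  have hωa : ω (1 - N z) = a z := by rw [haω]
  rw [hωa]
  have hr0 := rad_nonneg k
  have hr1 := (rad_lt_one k).le
  have hmem := smul_mem_B hz hr0 hr1
  have ha0 := (ha z hz).1
  have ha1 := (ha z hz).2
  have hL := len_nonneg z ξ
  have hu1 := uu_le_one hz hr1
  have hu0 := (uu_pos hz hr1).le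
  have hu2 : uu z (rad k) ^ 2 ≤ 1 := pow_le_one₀ hu0 hu1
  have hu3 : uu z (rad k) ^ 3 ≤ 1 := pow_le_one₀ hu0 hu1
  have hbz : b z = a z := by rw [hbω]
  obtain ⟨h5, h6⟩ := (hk2 z hz).2 ξ
  rw [dil_fderiv (da_hol hf hmem), hbz] at h5
  have hE : ‖db (vs C₁ f Ψ k) z ξ - Ψ (rad k • z) *
      starRingEnd ℂ (fderiv ℂ f (rad k • z) (rad k • ξ))‖ ≤
      1800 * C₁ * K ^ 2 * (a z ^ 2 * len z ξ) := by
    refine h5.trans ?_
    have h9 : 0 ≤ 1800 * C₁ * K ^ 2 * (a z ^ 2 * len z ξ) := by positivity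
    calc _ = 1800 * C₁ * K ^ 2 * (a z ^ 2 * len z ξ) * uu z (rad k) ^ 2 := by ring
      _ ≤ 1800 * C₁ * K ^ 2 * (a z ^ 2 * len z ξ) * 1 := mul_le_mul_of_nonneg_left hu2 h9
      _ = _ := by ring
  have hκ : ‖Ψ (rad k • z) * starRingEnd ℂ (fderiv ℂ f (rad k • z) (rad k • ξ))‖ ≤
      2 * C₁ * K * (a z * len z ξ) := by
    rw [norm_mul, RCLike.norm_conj]
    have h7 := ray_bound h2 hz hr0 hr1 (A := a (rad k • z)) (A₀ := K * a z)
      (hra' z hz _ hr0 hr1) (by positivity) ξ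
    have h8 := hfa _ hmem (rad k • ξ)
    rw [len_smul hr0] at h8
    have h9 : 0 ≤ a (rad k • z) * len (rad k • z) ξ := mul_nonneg (ha _ hmem).1 (len_nonneg _ _)
    have h10 : ‖fderiv ℂ f (rad k • z) (rad k • ξ)‖ ≤ 2 * K * (a z * len z ξ) := by
      calc _ ≤ a (rad k • z) * (rad k * len (rad k • z) ξ) := h8
        _ = rad k * (a (rad k • z) * len (rad k • z) ξ) := by ring
        _ ≤ 1 * (a (rad k • z) * len (rad k • z) ξ) := mul_le_mul_of_nonneg_right hr1 h9
        _ ≤ 3 / 2 * (K * a z) * uu z (rad k) ^ 3 * len z ξ := by rw [one_mul]; exact h7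
        _ = 3 / 2 * K * (a z * len z ξ) * uu z (rad k) ^ 3 := by ring
        _ ≤ 3 / 2 * K * (a z * len z ξ) * 1 := mul_le_mul_of_nonneg_left hu3 (by positivity)
        _ ≤ 2 * K * (a z * len z ξ) := by
          have : 0 ≤ K * (a z * len z ξ) := by positivity
          linarith
    calc ‖Ψ (rad k • z)‖ * ‖fderiv ℂ f (rad k • z) (rad k • ξ)‖ ≤
        C₁ * (2 * K * (a z * len z ξ)) :=
          mul_le_mul (hΨ1 _ hmem) h10 (norm_nonneg _) hC.le
      _ = _ := by ring
  have hdd : ‖dd (vs C₁ f Ψ k) z ξ‖ ≤ 2 * C₅ * (a z * len z ξ) := by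
    refine h6.trans ?_
    have h9 : 0 ≤ C₅ * (a z * len z ξ) := by positivity
    have h10 : uu z (rad k) ^ 2 * (1 + rad k) ≤ 1 * 2 :=
      mul_le_mul hu2 (by linarith) (by linarith) (by norm_num)
    calc _ = C₅ * (a z * len z ξ) * (uu z (rad k) ^ 2 * (1 + rad k)) := by ring
      _ ≤ C₅ * (a z * len z ξ) * (1 * 2) := mul_le_mul_of_nonneg_left h10 h9
      _ = _ := by ring
  have haa : a z ^ 2 * len z ξ ≤ a z * len z ξ := by
    refine mul_le_mul_of_nonneg_right ?_ hL
    nlinarith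
  have haL : 0 ≤ a z ^ 2 * len z ξ := by positivity
  have haL1 : 0 ≤ a z * len z ξ := by positivity
  constructor
  · refine hE.trans ?_
    have h9 : 0 ≤ 2 * C₁ * K * (a z ^ 2 * len z ξ) := by positivity
    have h10 : 0 ≤ 2 * C₅ * (a z ^ 2 * len z ξ) := by positivity
    calc _ ≤ 1800 * C₁ * K ^ 2 * (a z ^ 2 * len z ξ) + 2 * C₁ * K * (a z ^ 2 * len z ξ) +
          2 * C₅ * (a z ^ 2 * len z ξ) := by linarith
      _ = _ := by ring
  · rw [fderiv_eq_db_dd]
    have h9 : db (vs C₁ f Ψ k) z ξ = (db (vs C₁ f Ψ k) z ξ - Ψ (rad k • z) *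
      starRingEnd ℂ (fderiv ℂ f (rad k • z) (rad k • ξ))) + Ψ (rad k • z) *
      starRingEnd ℂ (fderiv ℂ f (rad k • z) (rad k • ξ)) := by ring
    have h10 : ‖db (vs C₁ f Ψ k) z ξ‖ ≤ 1800 * C₁ * K ^ 2 * (a z ^ 2 * len z ξ) +
        2 * C₁ * K * (a z * len z ξ) := by
      rw [h9]
      exact (norm_add_le _ _).trans (add_le_add hE hκ)
    have h11 : 1800 * C₁ * K ^ 2 * (a z ^ 2 * len z ξ) ≤
        1800 * C₁ * K ^ 2 * (a z * len z ξ) := mul_le_mul_of_nonneg_left haa (by positivity)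
    calc _ ≤ ‖db (vs C₁ f Ψ k) z ξ‖ + ‖dd (vs C₁ f Ψ k) z ξ‖ := norm_add_le _ _
      _ ≤ 1800 * C₁ * K ^ 2 * (a z * len z ξ) + 2 * C₁ * K * (a z * len z ξ) +
          2 * C₅ * (a z * len z ξ) := by linarith
      _ = _ := by ring

end Pool.Agent.N290.RJ
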