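import Mathlib
import Pool.Agent.N290.RJ.Stm
import Pool.Agent.N290.RI.Stm2
import Pool.Agent.N290.RJ.Un
import Pool.Agent.N290.RJ.Sm
import Pool.Agent.N290.RJ.SmR
import Pool.Agent.N290.RJ.Fin

/-!
# Any number of generators
-/

set_option autoImplicit false

open Complex MeasureTheory Set Filter Topology
open scoped ENNReal

namespace Pool.Agent.N290.RJ

variable {d : ℕ}

theorem da_cd {F : E d → ℂ} (hF : ContDiffOn ℝ 1 F (B d)) {z : E d} (hz : z ∈ B d) :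
    DifferentiableAt ℝ F z :=
  (hF.differentiableOn (by norm_num)).differentiableAt (B_open.mem_nhds hz)

/-- smooth solutions of the dilated equations with small `∂̄` -/
theorem smooth_sol (hS : SmainR d) (hS2 : S2 d) (hD : D2N d) {M : ℕ} {δ K : ℝ} (hδ : 0 < δ)
    (hK : 1 ≤ K) : ∃ C : ℝ, 0 < C ∧ ∀ (ω : ℝ → ℝ) (f : Fin M → E d → ℂ), Slow K ω →
    (∀ j, DifferentiableOn ℂ (f j) (B d)) → (∀ j, ∀ z ∈ B d, ‖f j z‖ ≤ 1) →
    (∀ z ∈ B d, δ ≤ ∑ j, ‖f j z‖) →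
    (∀ j, ∀ z ∈ B d, ∀ ξ, ‖fderiv ℂ (f j) z ξ‖ ≤ ω (1 - N z) * len z ξ) →
    ∀ k : ℕ, ∃ h : Fin M → E d → ℂ, (∀ j, ContDiffOn ℝ 1 (h j) (B d)) ∧
      (∀ z ∈ B d, ∑ j, f j (rad k • z) * h j z = 1) ∧ ∀ j, ∀ z ∈ B d, ‖h j z‖ ≤ C ∧
        ∀ ξ, ‖fderiv ℝ (h j) z ξ‖ ≤ C * ω (1 - N z) * len z ξ ∧
          ‖db (h j) z ξ‖ ≤ C * ω (1 - N z) ^ 2 * len z ξ := by
  obtain ⟨C₁, hC₁, hD⟩ := hD M δ hδ
  have hK0 : 0 ≤ K := by linarith
  have hM0 : (0 : ℝ) ≤ M := Nat.cast_nonneg M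
  obtain ⟨C₂, hC₂, hS⟩ := hS K (C₁ * (M + 1)) hK (by positivity)
  set R : ℝ := 256 * (C₁ * (M + 1)) with hR
  have hR0 : 0 ≤ R := by positivity
  refine ⟨C₁ + M * (2 * R) + (C₁ * (M * (2 * K)) + M * (2 * K * (2 * R) + 2 * C₂)) +
    M * (2 * C₂), by positivity, ?_⟩
  intro ω f hω hf hf1 hδf hfω k
  obtain ⟨Ψ, h₀, hΨ, hh₀, hb, hΨd, hh₀d, hdb⟩ := hD f hf hf1 hδf
  set r := rad k with hr
  have hr0 : 0 ≤ r := rad_nonneg k
  have hr1 : r ≤ 1 := (rad_lt_one k).le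
  have hmem : ∀ z ∈ B d, r • z ∈ B d := fun z hz => smul_mem_B hz hr0 hr1
  have hv := fun i j : Fin M => hS (f j) (Ψ i) ω (hf j) (hΨ i) (hf1 j) (fun z hz => by
      refine ((hb z hz).1 i).1.trans ?_
      nlinarith) hω (hfω j) (fun z hz ξ => by
      refine (hΨd i z hz ξ).trans ?_
      rw [mul_assoc]
      refine mul_le_mul_of_nonneg_left ?_ hC₁.le
      have h1 : 0 ≤ ω (1 - N z) * len z ξ := mul_nonneg (hω.2.1 _).1 (len_nonneg _ _)
      calc ∑ l, ‖fderiv ℂ (f l) z ξ‖ ≤ ∑ _l : Fin M, ω (1 - N z) * len z ξ :=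
            Finset.sum_le_sum fun l _ => hfω l z hz ξ
        _ = M * (ω (1 - N z) * len z ξ) := by simp
        _ ≤ (M + 1) * (ω (1 - N z) * len z ξ) := by nlinarith) k
  choose v hv1 hv2 hv3 using hv
  -- derivative bounds on the dilated functions
  have hdil : ∀ j, ∀ z ∈ B d, ∀ ξ, ‖fderiv ℂ (f j) (r • z) (r • ξ)‖ ≤
      2 * K * (ω (1 - N z) * len z ξ) := by
    intro j z hz ξ
    have hω0 := (hω.2.1 (1 - N z)).1
    have h1 := reg_rad hK0 (fun t => (hω.2.1 t).1) hω.2.2 hz hr0 hr1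
    rw [uu_inv hz hr1] at h1
    have h7 := ray_bound hS2 hz hr0 hr1 (A := ω (1 - N (r • z))) (A₀ := K * ω (1 - N z))
      (by linarith [h1, mul_right_comm K (ω (1 - N z)) (uu z r)⁻¹]) (by positivity) ξ
    have h8 := hfω j _ (hmem z hz) (r • ξ)
    rw [len_smul hr0] at h8
    have h9 : 0 ≤ ω (1 - N (r • z)) * len (r • z) ξ := mul_nonneg (hω.2.1 _).1 (len_nonneg _ _)
    have hu3 : uu z r ^ 3 ≤ 1 := pow_le_one₀ (uu_pos hz hr1).le (uu_le_one hz hr1)
    have hL := len_nonneg z ξ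
    calc _ ≤ ω (1 - N (r • z)) * (r * len (r • z) ξ) := h8
      _ = r * (ω (1 - N (r • z)) * len (r • z) ξ) := by ring
      _ ≤ 1 * (ω (1 - N (r • z)) * len (r • z) ξ) := mul_le_mul_of_nonneg_right hr1 h9
      _ ≤ 3 / 2 * (K * ω (1 - N z)) * uu z r ^ 3 * len z ξ := by rw [one_mul]; exact h7
      _ = 3 / 2 * K * (ω (1 - N z) * len z ξ) * uu z r ^ 3 := by ring
      _ ≤ 3 / 2 * K * (ω (1 - N z) * len z ξ) * 1 := mul_le_mul_of_nonneg_left hu3 (by positivity)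
      _ ≤ 2 * K * (ω (1 - N z) * len z ξ) := by
        have : 0 ≤ K * (ω (1 - N z) * len z ξ) := by positivity
        linarith
  set w : Fin M → Fin M → E d → ℂ := fun i j z => f i (r • z) * (v i j z - v j i z) with hw
  have hwc : ∀ i j, ContDiffOn ℝ 1 (w i j) (B d) := fun i j =>
    (cd_dil (cd_hol (hf i)) hr0 hr1).mul ((hv1 i j).sub (hv1 j i))
  have hh₀r : ∀ j, ContDiffOn ℝ 1 (fun z => h₀ j (r • z)) (B d) := fun j => cd_dil (hh₀ j) hr0 hr1
  have hsumc : ∀ j, ContDiffOn ℝ 1 (fun z => ∑ i, w i j z) (B d) := fun j =>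
    ContDiffOn.sum fun i _ => hwc i j
  refine ⟨fun j z => h₀ j (r • z) - ∑ i, w i j z, fun j => (hh₀r j).sub (hsumc j), ?_, ?_⟩
  · intro z hz
    have h1 := (hb _ (hmem z hz)).2
    have h2 : ∑ j, f j (r • z) * ∑ i, w i j z = 0 := by
      have h3 : ∑ j, f j (r • z) * ∑ i, w i j z =
          ∑ j, ∑ i, f j (r • z) * f i (r • z) * v i j z -
            ∑ j, ∑ i, f j (r • z) * f i (r • z) * v j i z := by
        rw [← Finset.sum_sub_distrib]
        refine Finset.sum_congr rfl fun j _ => ?_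
        rw [Finset.mul_sum, ← Finset.sum_sub_distrib]
        refine Finset.sum_congr rfl fun i _ => ?_
        simp only [hw]; ring
      rw [h3, Finset.sum_comm, sub_eq_zero]
      refine Finset.sum_congr rfl fun j _ => Finset.sum_congr rfl fun i _ => ?_
      ring
    simp only [mul_sub, Finset.sum_sub_distrib, h1, h2, sub_zero]
  · intro j z hz
    have hω0 := (hω.2.1 (1 - N z)).1
    have hω1 := (hω.2.1 (1 - N z)).2
    have hvb : ∀ i j, ‖v i j z - v j i z‖ ≤ 2 * R := fun i j => by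
      refine (norm_sub_le _ _).trans ?_
      have h1 := hv2 i j z hz
      have h2 := hv2 j i z hz
      linarith
    have hzr := hmem z hz
    refine ⟨?_, fun ξ => ⟨?_, ?_⟩⟩
    · have h1 : ‖∑ i, w i j z‖ ≤ M * (2 * R) := by
        refine (norm_sum_le _ _).trans ?_
        calc ∑ i, ‖w i j z‖ ≤ ∑ _i : Fin M, (2 * R) := Finset.sum_le_sum fun i _ => by
              simp only [hw, norm_mul]
              calc _ ≤ 1 * (2 * R) := mul_le_mul (hf1 i _ hzr) (hvb i j) (norm_nonneg _) zero_le_one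
                _ = _ := one_mul _
          _ = _ := by simp
      refine (norm_sub_le _ _).trans ?_
      have h2 := ((hb _ hzr).1 j).2
      have h3 : 0 ≤ C₁ * (M * (2 * K)) + M * (2 * K * (2 * R) + 2 * C₂) + M * (2 * C₂) := by
        positivity
      linarith
    · have hL := len_nonneg z ξ
      have e1 : fderiv ℝ (fun z => h₀ j (r • z) - ∑ i, w i j z) z ξ =
          fderiv ℝ (h₀ j) (r • z) (r • ξ) - ∑ i, (f i (r • z) * (fderiv ℝ (v i j) z ξ -
            fderiv ℝ (v j i) z ξ) + (v i j z - v j i z) * fderiv ℂ (f i) (r • z) (r • ξ)) := by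
        rw [fderiv_fun_sub (da_cd (hh₀r j) hz) (da_cd (hsumc j) hz), sub_apply,
          dil_fderivR (da_cd (hh₀ j) hzr), fderiv_fun_sum fun i _ => da_cd (hwc i j) hz, sum_apply]
        congr 1
        refine Finset.sum_congr rfl fun i _ => ?_
        simp only [hw]
        rw [fderiv_fun_mul (da_cd (cd_dil (cd_hol (hf i)) hr0 hr1) hz)
          ((da_cd (hv1 i j) hz).fun_sub (da_cd (hv1 j i) hz)), fderiv_fun_sub (da_cd (hv1 i j) hz)
          (da_cd (hv1 j i) hz)]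
        simp only [add_apply, smul_apply, sub_apply, smul_eq_mul]
        rw [dil_fderivR (da_cd (cd_hol (hf i)) hzr), fderivR_eq (da_hol (hf i) hzr)]
      show ‖fderiv ℝ (fun z => h₀ j (r • z) - ∑ i, w i j z) z ξ‖ ≤ _
      rw [e1]
      set X := ω (1 - N z) * len z ξ with hX
      have hX0 : 0 ≤ X := mul_nonneg hω0 hL
      have h2 : ‖fderiv ℝ (h₀ j) (r • z) (r • ξ)‖ ≤ C₁ * (M * (2 * K)) * X := by
        refine (hh₀d j _ hzr _).trans ?_
        rw [mul_assoc]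
        refine mul_le_mul_of_nonneg_left ?_ hC₁.le
        calc ∑ i, ‖fderiv ℂ (f i) (r • z) (r • ξ)‖ ≤ ∑ _i : Fin M, 2 * K * X :=
              Finset.sum_le_sum fun i _ => hdil i z hz ξ
          _ = M * (2 * K) * X := by simp; ring
      have h3 : ‖∑ i, (f i (r • z) * (fderiv ℝ (v i j) z ξ -
            fderiv ℝ (v j i) z ξ) + (v i j z - v j i z) * fderiv ℂ (f i) (r • z) (r • ξ))‖ ≤
          M * (2 * K * (2 * R) + 2 * C₂) * X := by
        refine (norm_sum_le _ _).trans ?_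
        calc _ ≤ ∑ _i : Fin M, (2 * K * (2 * R) + 2 * C₂) * X := Finset.sum_le_sum fun i _ => by
              refine (norm_add_le _ _).trans ?_
              rw [norm_mul, norm_mul]
              have h4 := (hv3 i j z hz ξ).2
              have h5 := (hv3 j i z hz ξ).2
              have h6 : ‖fderiv ℝ (v i j) z ξ - fderiv ℝ (v j i) z ξ‖ ≤ 2 * C₂ * X := by
                refine (norm_sub_le _ _).trans ?_
                calc _ ≤ C₂ * ω (1 - N z) * len z ξ + C₂ * ω (1 - N z) * len z ξ := add_le_add h4 h5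
                  _ = _ := by rw [hX]; ring
              have h7 : ‖f i (r • z)‖ * ‖fderiv ℝ (v i j) z ξ - fderiv ℝ (v j i) z ξ‖ ≤
                  1 * (2 * C₂ * X) := mul_le_mul (hf1 i _ hzr) h6 (norm_nonneg _) zero_le_one
              have h8 : ‖v i j z - v j i z‖ * ‖fderiv ℂ (f i) (r • z) (r • ξ)‖ ≤
                  (2 * R) * (2 * K * X) :=
                mul_le_mul (hvb i j) (hdil i z hz ξ) (norm_nonneg _) (by positivity)
              calc _ ≤ 1 * (2 * C₂ * X) + (2 * R) * (2 * K * X) := add_le_add h7 h8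
                _ = _ := by ring
          _ = _ := by simp; ring
      refine (norm_sub_le _ _).trans ?_
      have h9 : 0 ≤ (C₁ + M * (2 * R) + M * (2 * C₂)) * X := by positivity
      calc _ ≤ C₁ * (M * (2 * K)) * X + M * (2 * K * (2 * R) + 2 * C₂) * X := add_le_add h2 h3
        _ ≤ C₁ * (M * (2 * K)) * X + M * (2 * K * (2 * R) + 2 * C₂) * X +
            (C₁ + M * (2 * R) + M * (2 * C₂)) * X := by linarith
        _ = _ := by rw [hX]; ring
    · have hL := len_nonneg z ξ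
      have e1 : db (fun z => h₀ j (r • z) - ∑ i, w i j z) z ξ = ∑ i, f i (r • z) *
          ((Ψ i (r • z) * starRingEnd ℂ (fderiv ℂ (f j) (r • z) (r • ξ)) - db (v i j) z ξ) -
            (Ψ j (r • z) * starRingEnd ℂ (fderiv ℂ (f i) (r • z) (r • ξ)) - db (v j i) z ξ)) := by
        rw [db_sub (da_cd (hh₀r j) hz) (da_cd (hsumc j) hz), db_dil (da_cd (hh₀ j) hzr),
          hdb j _ hzr, db_sum _ (fun i _ => da_cd (hwc i j) hz), ← Finset.sum_sub_distrib]
        refine Finset.sum_congr rfl fun i _ => ?_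
        simp only [hw]
        rw [db_mul (da_cd (cd_dil (cd_hol (hf i)) hr0 hr1) hz)
          ((da_cd (hv1 i j) hz).fun_sub (da_cd (hv1 j i) hz)), db_sub (da_cd (hv1 i j) hz)
          (da_cd (hv1 j i) hz), db_hol (dil_hasFDerivAt (da_hol (hf i) hzr)).differentiableAt]
        ring
      show ‖db (fun z => h₀ j (r • z) - ∑ i, w i j z) z ξ‖ ≤ _
      rw [e1]
      set X := ω (1 - N z) ^ 2 * len z ξ with hX
      have hX0 : 0 ≤ X := mul_nonneg (sq_nonneg _) hL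
      have h3 : ‖∑ i, f i (r • z) *
          ((Ψ i (r • z) * starRingEnd ℂ (fderiv ℂ (f j) (r • z) (r • ξ)) - db (v i j) z ξ) -
            (Ψ j (r • z) * starRingEnd ℂ (fderiv ℂ (f i) (r • z) (r • ξ)) - db (v j i) z ξ))‖ ≤
          M * (2 * C₂) * X := by
        refine (norm_sum_le _ _).trans ?_
        calc _ ≤ ∑ _i : Fin M, 2 * C₂ * X := Finset.sum_le_sum fun i _ => by
              rw [norm_mul]
              have h4 := (hv3 i j z hz ξ).1
              have h5 := (hv3 j i z hz ξ).1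
              rw [norm_sub_rev] at h4 h5
              have h6 : ‖(Ψ i (r • z) * starRingEnd ℂ (fderiv ℂ (f j) (r • z) (r • ξ)) -
                  db (v i j) z ξ) - (Ψ j (r • z) * starRingEnd ℂ (fderiv ℂ (f i) (r • z) (r • ξ)) -
                  db (v j i) z ξ)‖ ≤ 2 * C₂ * X := by
                refine (norm_sub_le _ _).trans ?_
                calc _ ≤ C₂ * ω (1 - N z) ^ 2 * len z ξ + C₂ * ω (1 - N z) ^ 2 * len z ξ :=
                      add_le_add h4 h5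
                  _ = _ := by rw [hX]; ring
              calc _ ≤ 1 * (2 * C₂ * X) := mul_le_mul (hf1 i _ hzr) h6 (norm_nonneg _) zero_le_one
                _ = _ := one_mul _
          _ = _ := by simp; ring
      refine h3.trans ?_
      have h9 : 0 ≤ (C₁ + M * (2 * R) +
        (C₁ * (M * (2 * K)) + M * (2 * K * (2 * R) + 2 * C₂))) * X := by positivity
      calc _ ≤ (C₁ + M * (2 * R) + (C₁ * (M * (2 * K)) + M * (2 * K * (2 * R) + 2 * C₂))) * X +
            M * (2 * C₂) * X := by linarith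
        _ = _ := by rw [hX]; ring

theorem Slow.mono {K K' : ℝ} {ω : ℝ → ℝ} (h : Slow K ω) (hK : K ≤ K') : Slow K' ω := by
  refine ⟨h.1, h.2.1, fun s t ht hts hs => (h.2.2 s t ht hts hs).trans ?_⟩
  have h1 := (h.2.1 t).1
  have h2 : 0 ≤ (s / t) ^ (1 / 8 : ℝ) := Real.rpow_nonneg (div_nonneg (ht.le.trans hts) ht.le) _
  exact mul_le_mul_of_nonneg_right (mul_le_mul_of_nonneg_right hK h2) h1

/-- local solutions, slowly varying majorants -/
theorem local_sol (hS : SmainR d) (hS2 : S2 d) (hD : D2N d) (hLA : LA d) (hD4 : D4N d)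
    {M : ℕ} {δ K : ℝ} (hδ : 0 < δ) (hK : 1 ≤ K) {ω : ℝ → ℝ} (hω : Slow K ω)
    (hint : ∫⁻ t in Ioo (0 : ℝ) 1, ENNReal.ofReal (ω t ^ 2 / t) ≠ ⊤) :
    ∃ ρ C : ℝ, 0 < ρ ∧ ∀ p : E d, N p = 1 → ∀ f : Fin M → E d → ℂ,
    (∀ j, DifferentiableOn ℂ (f j) (B d)) → (∀ j, ∀ z ∈ B d, ‖f j z‖ ≤ 1) →
    (∀ z ∈ B d, δ ≤ ∑ j, ‖f j z‖) →
    (∀ j, ∀ z ∈ B d, ∀ ξ, ‖fderiv ℂ (f j) z ξ‖ ≤ ω (1 - N z) * len z ξ) →
    ∃ g : Fin M → E d → ℂ, (∀ j, DifferentiableOn ℂ (g j) {z | z ∈ B d ∧ nm (z - p) < ρ}) ∧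
      ∀ z ∈ B d, nm (z - p) < ρ → (∀ j, ‖g j z‖ ≤ C) ∧ ∑ j, f j z * g j z = 1 := by
  obtain ⟨C, hC, hsm⟩ := smooth_sol (M := M) hS hS2 hD hδ hK
  have hM0 : (0 : ℝ) ≤ M := Nat.cast_nonneg M
  obtain ⟨η, hη⟩ : ∃ η : ℝ, η = 1 / (2 * (M + 1)) := ⟨_, rfl⟩
  have hη0 : 0 < η := by rw [hη]; positivity
  have hMη : M * η ≤ 1 / 2 := by
    rw [hη, mul_one_div, div_le_div_iff₀ (by positivity) (by norm_num)]
    linarith
  obtain ⟨ρ, hρ, hLA⟩ := hLA C K ω hK hC hω hint η hη0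
  refine ⟨ρ, 2 * (C + η), hρ, ?_⟩
  intro p hp f hf hf1 hδf hfω
  refine hD4 M (2 * (C + η)) ρ p f hf fun k => ?_
  obtain ⟨h, hh1, hh2, hh3⟩ := hsm ω f hω hf hf1 hδf hfω k
  choose H hH1 hH2 using fun j => hLA p hp (h j) (hh1 j) (fun z hz => (hh3 j z hz).1)
    (fun z hz ξ => ((hh3 j z hz).2 ξ).1) (fun z hz ξ => ((hh3 j z hz).2 ξ).2)
  have hr0 := rad_nonneg k
  have hr1 := (rad_lt_one k).le
  have hfd : ∀ j, DifferentiableOn ℂ (fun z => f j (rad k • z)) (B d) := fun j z hz =>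
    (dil_hasFDerivAt (da_hol (hf j) (smul_mem_B hz hr0 hr1))).differentiableAt.differentiableWithinAt
  set S : E d → ℂ := fun z => ∑ j, f j (rad k • z) * H j z with hSdef
  have hSd : DifferentiableOn ℂ S (B d) := DifferentiableOn.fun_sum fun j _ => (hfd j).mul (hH1 j)
  have hS1 : ∀ z ∈ B d, nm (z - p) < ρ → 1 / 2 ≤ ‖S z‖ := by
    intro z hz hzp
    have h1 : ‖S z - 1‖ ≤ 1 / 2 := by
      rw [← hh2 z hz, hSdef]
      simp only [← Finset.sum_sub_distrib, ← mul_sub]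
      refine (norm_sum_le _ _).trans (le_trans ?_ hMη)
      calc _ ≤ ∑ _j : Fin M, η := Finset.sum_le_sum fun j _ => by
            rw [norm_mul]
            calc _ ≤ 1 * η := mul_le_mul (hf1 j _ (smul_mem_B hz hr0 hr1)) (hH2 j z hz hzp)
                  (norm_nonneg _) zero_le_one
              _ = η := one_mul _
        _ = M * η := by simp
    have h2 := norm_sub_norm_le (1 : ℂ) (1 - S z)
    rw [sub_sub_cancel, norm_one, norm_sub_rev] at h2
    linarith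
  refine ⟨fun j z => H j z / S z, fun j => ?_, fun z hz hzp => ⟨fun j => ?_, ?_⟩⟩
  · have hsub : {z | z ∈ B d ∧ nm (z - p) < ρ} ⊆ B d := fun z hz => hz.1
    have hne : ∀ z ∈ {z | z ∈ B d ∧ nm (z - p) < ρ}, S z ≠ 0 := by
      intro z hz h0
      have := hS1 z hz.1 hz.2
      rw [h0, norm_zero] at this
      linarith
    have h1 := ((hH1 j).mono hsub).mul (DifferentiableOn.inv (hSd.mono hsub) hne)
    refine h1.congr fun z _ => ?_
    exact div_eq_mul_inv _ _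
  · have h1 := hS1 z hz hzp
    have h2 : ‖H j z‖ ≤ C + η := by
      have h3 := norm_add_le (H j z - h j z) (h j z)
      rw [sub_add_cancel] at h3
      have h4 := hH2 j z hz hzp
      have h5 := (hh3 j z hz).1
      linarith
    rw [norm_div, div_le_iff₀ (by linarith)]
    have h6 : 0 ≤ C + η := by positivity
    nlinarith
  · have h1 := hS1 z hz hzp
    have h0 : S z ≠ 0 := by
      intro h0
      rw [h0, norm_zero] at h1
      linarith
    have h2 : ∑ j, f j (rad k • z) * (H j z / S z) = S z / S z := by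
      rw [hSdef]
      simp only
      rw [Finset.sum_div]
      refine Finset.sum_congr rfl fun j _ => ?_
      ring
    rw [h2, div_self h0]

/-- **any number of generators** -/
theorem gen_of (hS : SmainR d) (hS2 : S2 d) (hD : D2N d) (hLA : LA d) (hD4 : D4N d)
    (hLOC : LOC d) (hE : Pool.Agent.N290.RI.E1) (hSP : SP d) (M : ℕ) (δ : ℝ) (hδ : 0 < δ)
    (ω : ℝ → ℝ) (hω : Monotone ω) (hω0 : ∀ t, 0 ≤ ω t)
    (hint : ∫⁻ t in Ioo (0 : ℝ) 1, ENNReal.ofReal (ω t ^ 2 / t) ≠ ⊤) :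
    ∃ C : ℝ, ∀ f : Fin M → E d → ℂ,
    (∀ j, DifferentiableOn ℂ (f j) (B d)) → (∀ j, ∀ z ∈ B d, ‖f j z‖ ≤ 1) →
    (∀ z ∈ B d, δ ≤ ∑ j, ‖f j z‖) →
    (∀ j, ∀ z ∈ B d, ∀ ξ, ‖fderiv ℂ (f j) z ξ‖ ≤ ω (1 - N z) * len z ξ) →
    ∃ g : Fin M → E d → ℂ, (∀ j, DifferentiableOn ℂ (g j) (B d)) ∧
      ∀ z ∈ B d, (∀ j, ‖g j z‖ ≤ C) ∧ ∑ j, f j z * g j z = 1 := by
  obtain ⟨CE, hCE, hE⟩ := hE
  obtain ⟨ω', σ', hω'm, -, hω'b, hσ'b, hle, hreg, hint'⟩ := hE (fun t => min (ω t) 1)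
    (fun _ => 0) (fun s t hst => min_le_min (hω hst) le_rfl) monotone_const
    (fun t => ⟨le_min (hω0 t) zero_le_one, min_le_right _ _⟩)
    (fun t => ⟨le_rfl, zero_le_one⟩)
  have hslow : Slow (max CE 1) ω' := by
    have h1 : Slow CE ω' := ⟨hω'm, hω'b, fun s t ht hts hs => (hreg s t ht hts hs).1⟩
    exact h1.mono (le_max_left _ _)
  have hfin : ∫⁻ t in Ioo (0 : ℝ) 1, ENNReal.ofReal (ω' t ^ 2 / t) ≠ ⊤ := by
    have h1 : ∫⁻ t in Ioo (0 : ℝ) 1, ENNReal.ofReal (ω' t ^ 2 / t) ≤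
        ∫⁻ t in Ioo (0 : ℝ) 1, ENNReal.ofReal (ω' t * (ω' t + σ' t) / t) := by
      refine setLIntegral_mono' measurableSet_Ioo fun t ht => ENNReal.ofReal_le_ofReal ?_
      refine div_le_div_of_nonneg_right ?_ ht.1.le
      have h2 := (hω'b t).1
      have h3 := (hσ'b t).1
      nlinarith [mul_nonneg h2 h3]
    have h2 : ∫⁻ t in Ioo (0 : ℝ) 1, ENNReal.ofReal (min (ω t) 1 * (min (ω t) 1 + 0) / t) ≤
        ∫⁻ t in Ioo (0 : ℝ) 1, ENNReal.ofReal (ω t ^ 2 / t) := by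
      refine setLIntegral_mono' measurableSet_Ioo fun t ht => ENNReal.ofReal_le_ofReal ?_
      refine div_le_div_of_nonneg_right ?_ ht.1.le
      have h2 : 0 ≤ min (ω t) 1 := le_min (hω0 t) zero_le_one
      have h3 : min (ω t) 1 ≤ ω t := min_le_left _ _
      rw [add_zero, sq]
      exact mul_le_mul h3 h3 h2 (hω0 t)
    refine ne_top_of_le_ne_top ?_ (h1.trans hint')
    refine ENNReal.mul_ne_top ENNReal.ofReal_ne_top ?_
    exact ENNReal.add_ne_top.2 ⟨ENNReal.one_ne_top, ne_top_of_le_ne_top hint h2⟩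
  obtain ⟨ρ, C, hρ, hloc⟩ := local_sol (M := M) hS hS2 hD hLA hD4 hδ (le_max_right CE 1) hslow hfin
  obtain ⟨C', hC'⟩ := hLOC M δ {f : Fin M → E d → ℂ // (∀ j, DifferentiableOn ℂ (f j) (B d)) ∧
    (∀ j, ∀ z ∈ B d, ‖f j z‖ ≤ 1) ∧ (∀ z ∈ B d, δ ≤ ∑ j, ‖f j z‖) ∧
    (∀ j, ∀ z ∈ B d, ∀ ξ, ‖fderiv ℂ (f j) z ξ‖ ≤ ω (1 - N z) * len z ξ)} (fun a j => a.1 j) hδ
    (fun a j => a.2.1 j) (fun a j => a.2.2.1 j) (fun a => a.2.2.2.1) (fun p hp => by
      refine ⟨ρ, C, hρ, fun a => ?_⟩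
      refine hloc p hp (fun j => a.1 j) a.2.1 a.2.2.1 a.2.2.2.1 fun j z hz ξ => ?_
      have h1 : min (ω (1 - N z)) 1 ≤ ω' (1 - N z) :=
        (hle _ (sub_pos.2 hz) (by have := N_nonneg z; linarith)).1
      refine le_trans ?_ (mul_le_mul_of_nonneg_right h1 (len_nonneg _ _))
      have h4 := hSP (a.1 j) (a.2.1 j) (a.2.2.1 j) z hz ξ
      have h5 := a.2.2.2.2 j z hz ξ
      rcases le_total (ω (1 - N z)) 1 with h6 | h6
      · rw [min_eq_left h6]; exact h5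
      · rw [min_eq_right h6, one_mul]; exact h4)
  exact ⟨C', fun f h1 h2 h3 h4 => hC' ⟨f, h1, h2, h3, h4⟩⟩

end Pool.Agent.N290.RJ
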