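import Mathlib
import Pool.Agent.N290.RJ.Defs
import Pool.Agent.N290.RJ.Stm

/-!
# Radial derivatives, and closed algebras
-/

set_option autoImplicit false

open Complex MeasureTheory Set Filter Topology
open scoped ENNReal

namespace Pool.Agent.N290.RJ

/-- the radial derivative controls the invariant gradient -/
def EU (d : ℕ) : Prop := ∀ K : ℝ, 1 ≤ K → ∃ C : ℝ, 0 < C ∧ ∀ (f : E d → ℂ) (ω : ℝ → ℝ),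
  DifferentiableOn ℂ f (B d) → Slow K ω →
  (∀ z ∈ B d, (1 - nm z) * ‖fderiv ℂ f z z‖ ≤ ω (1 - nm z)) →
  ∀ z ∈ B d, ∀ ξ, ‖fderiv ℂ f z ξ‖ ≤ C * ω (1 - N z) * len z ξ

/-- from a subalgebra of `H^∞` to its uniform closure -/
def GEL (d : ℕ) : Prop := ∀ 𝒮 : Set (E d → ℂ),
  (∀ f ∈ 𝒮, DifferentiableOn ℂ f (B d) ∧ ∃ C : ℝ, ∀ z ∈ B d, ‖f z‖ ≤ C) →
  (∀ f ∈ 𝒮, ∀ c : ℂ, (fun z => f z + c) ∈ 𝒮) →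
  (∀ (M : ℕ) (δ : ℝ) (f : Fin M → E d → ℂ), 0 < δ → (∀ j, f j ∈ 𝒮) →
    (∀ z ∈ B d, δ ≤ ∑ j, ‖f j z‖) →
    ∃ (g : Fin M → E d → ℂ) (C : ℝ), (∀ j, DifferentiableOn ℂ (g j) (B d)) ∧
      ∀ z ∈ B d, (∀ j, ‖g j z‖ ≤ C) ∧ ∑ j, f j z * g j z = 1) →
  ∀ (M : ℕ) (δ : ℝ) (f : Fin M → E d → ℂ), 0 < δ →
    (∀ j, ∀ ε : ℝ, 0 < ε → ∃ s ∈ 𝒮, ∀ z ∈ B d, ‖f j z - s z‖ ≤ ε) →
    (∀ z ∈ B d, δ ≤ ∑ j, ‖f j z‖) →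
    ∃ (g : Fin M → E d → ℂ) (C : ℝ), (∀ j, DifferentiableOn ℂ (g j) (B d)) ∧
      ∀ z ∈ B d, (∀ j, ‖g j z‖ ≤ C) ∧ ∑ j, f j z * g j z = 1

end Pool.Agent.N290.RJ
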