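import Mathlib
import Pool.Agent.N290.RJ.Stm3
import Pool.Agent.N290.RJ.Gen

/-!
# Radial derivatives
-/

set_option autoImplicit false

open Complex MeasureTheory Set Filter Topology
open scoped ENNReal

namespace Pool.Agent.N290.RJ

variable {d : ℕ}

/-- the radial derivative is bounded by `1 / (1 - |z|)` -/
theorem rad_le_one (hSP : SP d) {f : E d → ℂ} (hf : DifferentiableOn ℂ f (B d))
    (hf1 : ∀ z ∈ B d, ‖f z‖ ≤ 1) {z : E d} (hz : z ∈ B d) :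
    (1 - nm z) * ‖fderiv ℂ f z z‖ ≤ 1 := by
  have h1 := hSP f hf hf1 z hz z
  have hx := x_pos hz
  have hn := nm_nonneg z
  have hn1 : nm z < 1 := mem_B_nm.1 hz
  have h2 : len z z = nm z / (1 - N z) := by
    have hN : 0 < 1 - N z := sub_pos.2 hz
    unfold len len2
    rw [ip_self, Complex.norm_real, Real.norm_eq_abs, abs_of_nonneg (N_nonneg z)]
    have h3 : N z / (1 - N z) + N z ^ 2 / (1 - N z) ^ 2 = (nm z / (1 - N z)) ^ 2 := by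
      rw [div_pow, nm_sq]
      field_simp
      ring
    rw [h3, Real.sqrt_sq (div_nonneg hn hN.le)]
  rw [h2] at h1
  have hN : 0 < 1 - N z := sub_pos.2 hz
  have h3 : 1 - N z = (1 - nm z) * (1 + nm z) := by rw [← nm_sq]; ring
  calc (1 - nm z) * ‖fderiv ℂ f z z‖ ≤ (1 - nm z) * (nm z / (1 - N z)) :=
        mul_le_mul_of_nonneg_left h1 hx.le
    _ = nm z / (1 + nm z) := by rw [h3]; field_simp
    _ ≤ 1 := by rw [div_le_one (by linarith)]; linarith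

theorem Slow.min_mul {K C : ℝ} {ω : ℝ → ℝ} (h : Slow K ω) (hK : 1 ≤ K) (hC : 0 < C) :
    Slow K (fun t => min (C * ω t) 1) := by
  refine ⟨fun s t hst => min_le_min (mul_le_mul_of_nonneg_left (h.1 hst) hC.le) le_rfl,
    fun t => ⟨le_min (mul_nonneg hC.le (h.2.1 t).1) zero_le_one, min_le_right _ _⟩,
    fun s t ht hts hs => ?_⟩
  have h1 := h.2.2 s t ht hts hs
  have h2 : 1 ≤ (s / t) ^ (1 / 8 : ℝ) :=
    Real.one_le_rpow ((one_le_div ht).2 hts) (by norm_num)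
  set R := (s / t) ^ (1 / 8 : ℝ) with hR
  have h3 : 1 ≤ K * R := by nlinarith
  show min (C * ω s) 1 ≤ K * R * min (C * ω t) 1
  rcases le_total (C * ω t) 1 with h4 | h4
  · rw [min_eq_left h4]
    refine (min_le_left _ _).trans ?_
    calc C * ω s ≤ C * (K * R * ω t) := mul_le_mul_of_nonneg_left h1 hC.le
      _ = _ := by ring
  · rw [min_eq_right h4, mul_one]
    exact (min_le_right _ _).trans h3

/-- **any number of generators, radial derivatives** -/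
theorem gen_rad_of (hS : SmainR d) (hS2 : S2 d) (hD : D2N d) (hLA : LA d) (hD4 : D4N d)
    (hLOC : LOC d) (hE : Pool.Agent.N290.RI.E1) (hSP : SP d) (hEU : EU d) (M : ℕ) (δ : ℝ)
    (hδ : 0 < δ) (ω : ℝ → ℝ) (hω : Monotone ω) (hω0 : ∀ t, 0 ≤ ω t)
    (hint : ∫⁻ t in Ioo (0 : ℝ) 1, ENNReal.ofReal (ω t ^ 2 / t) ≠ ⊤) :
    ∃ C : ℝ, ∀ f : Fin M → E d → ℂ,
    (∀ j, DifferentiableOn ℂ (f j) (B d)) → (∀ j, ∀ z ∈ B d, ‖f j z‖ ≤ 1) →
    (∀ z ∈ B d, δ ≤ ∑ j, ‖f j z‖) →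
    (∀ j, ∀ z ∈ B d, (1 - nm z) * ‖fderiv ℂ (f j) z z‖ ≤ ω (1 - nm z)) →
    ∃ g : Fin M → E d → ℂ, (∀ j, DifferentiableOn ℂ (g j) (B d)) ∧
      ∀ z ∈ B d, (∀ j, ‖g j z‖ ≤ C) ∧ ∑ j, f j z * g j z = 1 := by
  obtain ⟨CE, hCE, hE⟩ := hE
  obtain ⟨ω', σ', hω'm, -, hω'b, hσ'b, hle, hreg, hint'⟩ := hE (fun t => min (ω t) 1)
    (fun _ => 0) (fun s t hst => min_le_min (hω hst) le_rfl) monotone_const
    (fun t => ⟨le_min (hω0 t) zero_le_one, min_le_right _ _⟩)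
    (fun t => ⟨le_rfl, zero_le_one⟩)
  have hslow : Slow (max CE 1) ω' := by
    have h1 : Slow CE ω' := ⟨hω'm, hω'b, fun s t ht hts hs => (hreg s t ht hts hs).1⟩
    exact h1.mono (le_max_left _ _)
  have hfin : ∫⁻ t in Ioo (0 : ℝ) 1, ENNReal.ofReal (ω' t ^ 2 / t) ≠ ⊤ := by
    have h1 : ∫⁻ t in Ioo (0 : ℝ) 1, ENNReal.ofReal (ω' t ^ 2 / t) ≤
        ∫⁻ t in Ioo (0 : ℝ) 1, ENNReal.ofReal (ω' t * (ω' t + σ' t) / t) := by
      refine setLIntegral_mono' measurableSet_Ioo fun t ht => ENNReal.ofReal_le_ofReal ?_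
      refine div_le_div_of_nonneg_right ?_ ht.1.le
      have h2 := (hω'b t).1
      have h3 := (hσ'b t).1
      nlinarith [mul_nonneg h2 h3]
    have h2 : ∫⁻ t in Ioo (0 : ℝ) 1, ENNReal.ofReal (min (ω t) 1 * (min (ω t) 1 + 0) / t) ≤
        ∫⁻ t in Ioo (0 : ℝ) 1, ENNReal.ofReal (ω t ^ 2 / t) := by
      refine setLIntegral_mono' measurableSet_Ioo fun t ht => ENNReal.ofReal_le_ofReal ?_
      refine div_le_div_of_nonneg_right ?_ ht.1.le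
      have h2 : 0 ≤ min (ω t) 1 := le_min (hω0 t) zero_le_one
      have h3 : min (ω t) 1 ≤ ω t := min_le_left _ _
      rw [add_zero, sq]
      exact mul_le_mul h3 h3 h2 (hω0 t)
    refine ne_top_of_le_ne_top ?_ (h1.trans hint')
    refine ENNReal.mul_ne_top ENNReal.ofReal_ne_top ?_
    exact ENNReal.add_ne_top.2 ⟨ENNReal.one_ne_top, ne_top_of_le_ne_top hint h2⟩
  obtain ⟨CU, hCU, hEU⟩ := hEU (max CE 1) (le_max_right _ _)
  have hslow2 := hslow.min_mul (le_max_right CE 1) hCU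
  have hfin2 : ∫⁻ t in Ioo (0 : ℝ) 1, ENNReal.ofReal (min (CU * ω' t) 1 ^ 2 / t) ≠ ⊤ := by
    have h1 : ∫⁻ t in Ioo (0 : ℝ) 1, ENNReal.ofReal (min (CU * ω' t) 1 ^ 2 / t) ≤
        ∫⁻ t in Ioo (0 : ℝ) 1, ENNReal.ofReal (CU ^ 2) * ENNReal.ofReal (ω' t ^ 2 / t) := by
      refine setLIntegral_mono' measurableSet_Ioo fun t ht => ?_
      rw [← ENNReal.ofReal_mul (by positivity)]
      refine ENNReal.ofReal_le_ofReal ?_
      rw [← mul_div_assoc]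
      refine div_le_div_of_nonneg_right ?_ ht.1.le
      rw [← mul_pow]
      exact pow_le_pow_left₀ (le_min (mul_nonneg hCU.le (hω'b t).1) zero_le_one)
        (min_le_left _ _) 2
    rw [lintegral_const_mul' _ _ ENNReal.ofReal_ne_top] at h1
    exact ne_top_of_le_ne_top (ENNReal.mul_ne_top ENNReal.ofReal_ne_top hfin) h1
  obtain ⟨ρ, C, hρ, hloc⟩ := local_sol (M := M) hS hS2 hD hLA hD4 hδ (le_max_right CE 1) hslow2
    hfin2
  obtain ⟨C', hC'⟩ := hLOC M δ {f : Fin M → E d → ℂ // (∀ j, DifferentiableOn ℂ (f j) (B d)) ∧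
    (∀ j, ∀ z ∈ B d, ‖f j z‖ ≤ 1) ∧ (∀ z ∈ B d, δ ≤ ∑ j, ‖f j z‖) ∧
    (∀ j, ∀ z ∈ B d, (1 - nm z) * ‖fderiv ℂ (f j) z z‖ ≤ ω (1 - nm z))} (fun a j => a.1 j) hδ
    (fun a j => a.2.1 j) (fun a j => a.2.2.1 j) (fun a => a.2.2.2.1) (fun p hp => by
      refine ⟨ρ, C, hρ, fun a => ?_⟩
      refine hloc p hp (fun j => a.1 j) a.2.1 a.2.2.1 a.2.2.2.1 fun j z hz ξ => ?_
      have h1 : ∀ z ∈ B d, (1 - nm z) * ‖fderiv ℂ (a.1 j) z z‖ ≤ ω' (1 - nm z) := by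
        intro z hz
        refine le_trans ?_ (hle _ (x_pos hz) (by have := nm_nonneg z; linarith)).1
        exact le_min (a.2.2.2.2 j z hz) (rad_le_one hSP (a.2.1 j) (a.2.2.1 j) hz)
      have h2 := hEU (a.1 j) ω' (a.2.1 j) hslow h1 z hz ξ
      have h4 := hSP (a.1 j) (a.2.1 j) (a.2.2.1 j) z hz ξ
      show _ ≤ min (CU * ω' (1 - N z)) 1 * len z ξ
      rcases le_total (CU * ω' (1 - N z)) 1 with h6 | h6
      · rw [min_eq_left h6]; exact h2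
      · rw [min_eq_right h6, one_mul]; exact h4)
  exact ⟨C', fun f h1 h2 h3 h4 => hC' ⟨f, h1, h2, h3, h4⟩⟩

/-- two generators, quantitative, radial derivatives -/
theorem two_rad_of (hmain : ∀ δ : ℝ, 0 < δ → ∃ C : ℝ, 0 < C ∧ ∀ (f g : E d → ℂ) (ω σ : ℝ → ℝ),
    DifferentiableOn ℂ f (B d) → DifferentiableOn ℂ g (B d) →
    (∀ z ∈ B d, ‖f z‖ ≤ 1) → (∀ z ∈ B d, ‖g z‖ ≤ 1) → (∀ z ∈ B d, δ ≤ ‖f z‖ + ‖g z‖) →
    Monotone ω → Monotone σ → (∀ t, 0 ≤ ω t) → (∀ t, 0 ≤ σ t) →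
    (∀ z ∈ B d, ∀ ξ, ‖fderiv ℂ f z ξ‖ ≤ ω (1 - N z) * len z ξ) →
    (∀ z ∈ B d, ∀ ξ, ‖fderiv ℂ g z ξ‖ ≤ σ (1 - N z) * len z ξ) →
    ∃ h k : E d → ℂ, DifferentiableOn ℂ h (B d) ∧ DifferentiableOn ℂ k (B d) ∧ ∀ z ∈ B d,
      f z * h z + g z * k z = 1 ∧ ENNReal.ofReal ‖h z‖ ≤ ENNReal.ofReal C *
        (1 + ∫⁻ t in Ioo (0 : ℝ) 1, ENNReal.ofReal (ω t * (ω t + σ t) / t)) ∧
      ENNReal.ofReal ‖k z‖ ≤ ENNReal.ofReal C *
        (1 + ∫⁻ t in Ioo (0 : ℝ) 1, ENNReal.ofReal (ω t * (ω t + σ t) / t)))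
    (hE : Pool.Agent.N290.RI.E1) (hSP : SP d) (hEU : EU d) (δ : ℝ) (hδ : 0 < δ) :
    ∃ C : ℝ, 0 < C ∧ ∀ (f g : E d → ℂ) (ω σ : ℝ → ℝ),
    DifferentiableOn ℂ f (B d) → DifferentiableOn ℂ g (B d) →
    (∀ z ∈ B d, ‖f z‖ ≤ 1) → (∀ z ∈ B d, ‖g z‖ ≤ 1) → (∀ z ∈ B d, δ ≤ ‖f z‖ + ‖g z‖) →
    Monotone ω → Monotone σ → (∀ t, 0 ≤ ω t) → (∀ t, 0 ≤ σ t) →
    (∀ z ∈ B d, (1 - nm z) * ‖fderiv ℂ f z z‖ ≤ ω (1 - nm z)) →
    (∀ z ∈ B d, (1 - nm z) * ‖fderiv ℂ g z z‖ ≤ σ (1 - nm z)) →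
    ∃ h k : E d → ℂ, DifferentiableOn ℂ h (B d) ∧ DifferentiableOn ℂ k (B d) ∧ ∀ z ∈ B d,
      f z * h z + g z * k z = 1 ∧ ENNReal.ofReal ‖h z‖ ≤ ENNReal.ofReal C *
        (1 + ∫⁻ t in Ioo (0 : ℝ) 1, ENNReal.ofReal (ω t * (ω t + σ t) / t)) ∧
      ENNReal.ofReal ‖k z‖ ≤ ENNReal.ofReal C *
        (1 + ∫⁻ t in Ioo (0 : ℝ) 1, ENNReal.ofReal (ω t * (ω t + σ t) / t)) := by
  obtain ⟨CE, hCE, hE⟩ := hE
  obtain ⟨CU, hCU, hEU⟩ := hEU (max CE 1) (le_max_right _ _)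
  obtain ⟨C, hC, hmain⟩ := hmain δ hδ
  refine ⟨C * (1 + CU ^ 2 * CE), by positivity, ?_⟩
  intro f g ω σ hf hg hf1 hg1 hδfg hωm hσm hω0 hσ0 hfa hgb
  obtain ⟨ω', σ', hω'm, hσ'm, hω'b, hσ'b, hle, hreg, hint⟩ := hE (fun t => min (ω t) 1)
    (fun t => min (σ t) 1) (fun s t hst => min_le_min (hωm hst) le_rfl)
    (fun s t hst => min_le_min (hσm hst) le_rfl)
    (fun t => ⟨le_min (hω0 t) zero_le_one, min_le_right _ _⟩)
    (fun t => ⟨le_min (hσ0 t) zero_le_one, min_le_right _ _⟩)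
  have hslow : Slow (max CE 1) ω' := by
    have h1 : Slow CE ω' := ⟨hω'm, hω'b, fun s t ht hts hs => (hreg s t ht hts hs).1⟩
    exact h1.mono (le_max_left _ _)
  have hslow' : Slow (max CE 1) σ' := by
    have h1 : Slow CE σ' := ⟨hσ'm, hσ'b, fun s t ht hts hs => (hreg s t ht hts hs).2⟩
    exact h1.mono (le_max_left _ _)
  have hfa' := hEU f ω' hf hslow (fun z hz =>
    (le_min (hfa z hz) (rad_le_one hSP hf hf1 hz)).trans
      (hle _ (x_pos hz) (by have := nm_nonneg z; linarith)).1)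
  have hgb' := hEU g σ' hg hslow' (fun z hz =>
    (le_min (hgb z hz) (rad_le_one hSP hg hg1 hz)).trans
      (hle _ (x_pos hz) (by have := nm_nonneg z; linarith)).2)
  obtain ⟨h, k, hh, hk, hhk⟩ := hmain f g (fun t => CU * ω' t) (fun t => CU * σ' t) hf hg hf1 hg1
    hδfg (fun s t hst => mul_le_mul_of_nonneg_left (hω'm hst) hCU.le)
    (fun s t hst => mul_le_mul_of_nonneg_left (hσ'm hst) hCU.le)
    (fun t => mul_nonneg hCU.le (hω'b t).1) (fun t => mul_nonneg hCU.le (hσ'b t).1) hfa' hgb'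
  set I := ∫⁻ t in Ioo (0 : ℝ) 1, ENNReal.ofReal (ω t * (ω t + σ t) / t) with hI
  have h1 : ∫⁻ t in Ioo (0 : ℝ) 1, ENNReal.ofReal (CU * ω' t * (CU * ω' t + CU * σ' t) / t) =
      ENNReal.ofReal (CU ^ 2) *
        ∫⁻ t in Ioo (0 : ℝ) 1, ENNReal.ofReal (ω' t * (ω' t + σ' t) / t) := by
    rw [← lintegral_const_mul' _ _ ENNReal.ofReal_ne_top]
    refine lintegral_congr fun t => ?_
    rw [← ENNReal.ofReal_mul (by positivity)]
    congr 1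
    ring
  have h2 := hint.trans (mul_le_mul_right (add_le_add le_rfl (lint_min hω0 hσ0)) _)
  have h3 : ENNReal.ofReal C * (1 + ∫⁻ t in Ioo (0 : ℝ) 1,
      ENNReal.ofReal (CU * ω' t * (CU * ω' t + CU * σ' t) / t)) ≤
      ENNReal.ofReal (C * (1 + CU ^ 2 * CE)) * (1 + I) := by
    rw [h1, ENNReal.ofReal_mul hC.le, mul_assoc]
    refine mul_le_mul_right ?_ _
    rw [ENNReal.ofReal_add (by norm_num) (by positivity), ENNReal.ofReal_one, add_mul, one_mul]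
    refine add_le_add le_self_add ?_
    rw [ENNReal.ofReal_mul (by positivity), mul_assoc]
    exact mul_le_mul_right h2 _
  exact ⟨h, k, hh, hk, fun z hz => ⟨(hhk z hz).1, (hhk z hz).2.1.trans h3,
    (hhk z hz).2.2.trans h3⟩⟩

end Pool.Agent.N290.RJ
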