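import Mathlib
import Pool.Agent.N290.RJ.Gen2

/-!
# Normalisation: the class of bounded functions with square-Dini radial derivative
-/

set_option autoImplicit false

open Complex MeasureTheory Set Filter Topology
open scoped ENNReal

namespace Pool.Agent.N290.RJ

variable {d : ℕ}

/-- nonnegative nondecreasing with `∫₀¹ ω² dt / t < ∞` -/
def SDM (ω : ℝ → ℝ) : Prop :=
  Monotone ω ∧ (∀ t, 0 ≤ ω t) ∧ ∫⁻ t in Ioo (0 : ℝ) 1, ENNReal.ofReal (ω t ^ 2 / t) < ⊤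

theorem SDM.sum {M : ℕ} {ω : Fin M → ℝ → ℝ} (h : ∀ j, SDM (ω j)) {A : ℝ} (hA : 1 ≤ A) :
    SDM (fun t => (∑ j, ω j t) / A) := by
  have hA0 : 0 < A := by linarith
  refine ⟨fun s t hst => div_le_div_of_nonneg_right (Finset.sum_le_sum fun j _ => (h j).1 hst)
    hA0.le, fun t => div_nonneg (Finset.sum_nonneg fun j _ => (h j).2.1 t) hA0.le, ?_⟩
  have h1 : ∫⁻ t in Ioo (0 : ℝ) 1, ENNReal.ofReal (((∑ j, ω j t) / A) ^ 2 / t) ≤
      ∫⁻ t in Ioo (0 : ℝ) 1, ∑ j, ENNReal.ofReal M * ENNReal.ofReal (ω j t ^ 2 / t) := by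
    refine setLIntegral_mono' measurableSet_Ioo fun t ht => ?_
    have h2 : ((∑ j, ω j t) / A) ^ 2 / t ≤ ∑ j, (M : ℝ) * (ω j t ^ 2 / t) := by
      rw [← Finset.mul_sum, ← Finset.sum_div, ← mul_div_assoc]
      refine div_le_div_of_nonneg_right ?_ ht.1.le
      have h3 : ((∑ j, ω j t) / A) ^ 2 ≤ (∑ j, ω j t) ^ 2 := by
        refine pow_le_pow_left₀ (div_nonneg (Finset.sum_nonneg fun j _ => (h j).2.1 t) hA0.le) ?_ 2
        exact div_le_self (Finset.sum_nonneg fun j _ => (h j).2.1 t) hA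
      refine h3.trans ?_
      have h4 := sq_sum_le_card_mul_sum_sq (s := (Finset.univ : Finset (Fin M)))
        (f := fun j => ω j t)
      simpa using h4
    refine (ENNReal.ofReal_le_ofReal h2).trans ?_
    rw [ENNReal.ofReal_sum_of_nonneg fun j _ => mul_nonneg (Nat.cast_nonneg _)
      (div_nonneg (sq_nonneg _) ht.1.le)]
    refine Finset.sum_le_sum fun j _ => ?_
    rw [ENNReal.ofReal_mul (Nat.cast_nonneg _)]
  refine lt_of_le_of_lt h1 ?_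
  rw [lintegral_finsetSum' _ fun j _ => ?_]
  · refine ENNReal.sum_lt_top.2 fun j _ => ?_
    rw [lintegral_const_mul' _ _ ENNReal.ofReal_ne_top]
    exact ENNReal.mul_lt_top ENNReal.ofReal_lt_top (h j).2.2
  · have h5 : Measurable (ω j) := (h j).1.measurable
    exact ((((h5.pow_const 2).div measurable_id).ennreal_ofReal).const_mul _).aemeasurable

theorem sdm_zero : SDM (fun _ => 0) := by
  refine ⟨monotone_const, fun _ => le_rfl, ?_⟩
  simp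

/-- solvability in the class `𝒮` of bounded holomorphic functions with square-Dini radial
derivative -/
theorem class_sol (H : ∀ (M : ℕ) (δ : ℝ) (ω : ℝ → ℝ), 0 < δ → SDM ω → ∃ C : ℝ,
      ∀ f : Fin M → E d → ℂ, (∀ j, DifferentiableOn ℂ (f j) (B d)) →
      (∀ j, ∀ z ∈ B d, ‖f j z‖ ≤ 1) → (∀ z ∈ B d, δ ≤ ∑ j, ‖f j z‖) →
      (∀ j, ∀ z ∈ B d, (1 - nm z) * ‖fderiv ℂ (f j) z z‖ ≤ ω (1 - nm z)) →
      ∃ g : Fin M → E d → ℂ, (∀ j, DifferentiableOn ℂ (g j) (B d)) ∧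
        ∀ z ∈ B d, (∀ j, ‖g j z‖ ≤ C) ∧ ∑ j, f j z * g j z = 1)
    (M : ℕ) (δ : ℝ) (s : Fin M → E d → ℂ) (hδ : 0 < δ)
    (hs : ∀ j, DifferentiableOn ℂ (s j) (B d) ∧ (∃ C : ℝ, ∀ z ∈ B d, ‖s j z‖ ≤ C) ∧
      ∃ ω, SDM ω ∧ ∀ z ∈ B d, (1 - nm z) * ‖fderiv ℂ (s j) z z‖ ≤ ω (1 - nm z))
    (hδs : ∀ z ∈ B d, δ ≤ ∑ j, ‖s j z‖) :
    ∃ (g : Fin M → E d → ℂ) (C : ℝ), (∀ j, DifferentiableOn ℂ (g j) (B d)) ∧
      ∀ z ∈ B d, (∀ j, ‖g j z‖ ≤ C) ∧ ∑ j, s j z * g j z = 1 := by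
  have hs1 := fun j => (hs j).1
  choose C hC using fun j => (hs j).2.1
  choose ω hω hsω using fun j => (hs j).2.2
  obtain ⟨A, hA⟩ : ∃ A : ℝ, A = 1 + ∑ j, |C j| := ⟨_, rfl⟩
  have hA1 : 1 ≤ A := by
    rw [hA]
    have := Finset.sum_nonneg fun (j : Fin M) (_ : j ∈ Finset.univ) => abs_nonneg (C j)
    linarith
  have hA0 : 0 < A := by linarith
  have hCA : ∀ j, C j ≤ A := by
    intro j
    have := Finset.single_le_sum (f := fun j => |C j|) (fun i _ => abs_nonneg _) (Finset.mem_univ j)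
    have h2 := le_abs_self (C j)
    rw [hA]
    linarith
  obtain ⟨D, hD⟩ := H M (δ / A) (fun t => (∑ j, ω j t) / A) (by positivity) (SDM.sum hω hA1)
  have hAn : ‖((A : ℝ) : ℂ)⁻¹‖ = A⁻¹ := by
    rw [norm_inv, Complex.norm_real, Real.norm_eq_abs, abs_of_pos hA0]
  obtain ⟨g, hg1, hg2⟩ := hD (fun j z => ((A : ℝ) : ℂ)⁻¹ * s j z) (fun j => (hs1 j).const_mul _)
    (fun j z hz => by
      rw [norm_mul, hAn, inv_mul_le_iff₀ hA0, mul_one]
      exact (hC j z hz).trans (hCA j))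
    (fun z hz => by
      have h1 := hδs z hz
      have h2 : ∑ j, ‖((A : ℝ) : ℂ)⁻¹ * s j z‖ = (∑ j, ‖s j z‖) / A := by
        rw [Finset.sum_div]
        refine Finset.sum_congr rfl fun j _ => ?_
        rw [norm_mul, hAn]
        ring
      rw [h2]
      exact div_le_div_of_nonneg_right h1 hA0.le)
    (fun j z hz => by
      have hd : DifferentiableAt ℂ (s j) z := (hs1 j).differentiableAt (B_open.mem_nhds hz)
      have h1 : fderiv ℂ (fun z => ((A : ℝ) : ℂ)⁻¹ * s j z) z = ((A : ℝ) : ℂ)⁻¹ • fderiv ℂ (s j) z :=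
        fderiv_const_mul hd _
      have h2 : ‖fderiv ℂ (fun z => ((A : ℝ) : ℂ)⁻¹ * s j z) z z‖ = A⁻¹ * ‖fderiv ℂ (s j) z z‖ := by
        rw [h1, smul_apply, smul_eq_mul, norm_mul, hAn]
      rw [h2]
      have h3 := hsω j z hz
      have h4 : ω j (1 - nm z) ≤ ∑ j, ω j (1 - nm z) :=
        Finset.single_le_sum (f := fun j => ω j (1 - nm z)) (fun i _ => (hω i).2.1 _)
          (Finset.mem_univ j)
      calc (1 - nm z) * (A⁻¹ * ‖fderiv ℂ (s j) z z‖)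
          = ((1 - nm z) * ‖fderiv ℂ (s j) z z‖) / A := by ring
        _ ≤ (∑ j, ω j (1 - nm z)) / A := div_le_div_of_nonneg_right (h3.trans h4) hA0.le)
  refine ⟨fun j z => ((A : ℝ) : ℂ)⁻¹ * g j z, A⁻¹ * D, fun j => (hg1 j).const_mul _,
    fun z hz => ⟨fun j => ?_, ?_⟩⟩
  · rw [norm_mul, hAn]
    exact mul_le_mul_of_nonneg_left ((hg2 z hz).1 j) (inv_nonneg.2 hA0.le)
  · rw [← (hg2 z hz).2]
    refine Finset.sum_congr rfl fun j _ => ?_
    ring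

end Pool.Agent.N290.RJ
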