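import Mathlib
import Pool.Agent.N290.RJ.Gen2
import Pool.Agent.N247.RJ.T1

/-!
# Transfer to `Fin (d + 1) → ℂ`
-/

set_option autoImplicit false

open Complex MeasureTheory Set Filter Topology
open scoped ENNReal

namespace Pool.Agent.N290.RJ.Tr

open Pool.Agent.N290.RJ

/-- The unit ball of `ℂ^n`. -/
def ball (n : ℕ) : Set (Fin n → ℂ) := {z | ∑ i, ‖z i‖ ^ 2 < 1}

/-- The euclidean norm. -/
noncomputable def nrm {n : ℕ} (z : Fin n → ℂ) : ℝ := Real.sqrt (∑ i, ‖z i‖ ^ 2)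

/-- The hermitian product. -/
noncomputable def herm {n : ℕ} (z w : Fin n → ℂ) : ℂ := ∑ i, z i * starRingEnd ℂ (w i)

/-- The length of the vector `ξ` at `z ∈ ball n` in the invariant metric. -/
noncomputable def leng {n : ℕ} (z ξ : Fin n → ℂ) : ℝ :=
  Real.sqrt (nrm ξ ^ 2 / (1 - nrm z ^ 2) + ‖herm ξ z‖ ^ 2 / (1 - nrm z ^ 2) ^ 2)

/-- The kernel `|1 - ⟨z,w⟩|^(n-2) / (|1 - ⟨z,w⟩|² - (1 - |z|²) (1 - |w|²))^((2n-1)/2)`. -/
noncomputable def kern {n : ℕ} (z w : Fin n → ℂ) : ℝ :=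
  ‖1 - herm z w‖ ^ (n - 2) /
    Real.sqrt (‖1 - herm z w‖ ^ 2 - (1 - nrm z ^ 2) * (1 - nrm w ^ 2)) ^ (2 * n - 1)

variable {d : ℕ} {T : E d ≃L[ℂ] (Fin (d + 1) → ℂ)} (h0 : ∀ z : E d, T z 0 = z.1)
  (h1 : ∀ (z : E d) (i : Fin d), T z i.succ = z.2 i)

include h0 h1

theorem N_T (z : E d) : ∑ i, ‖T z i‖ ^ 2 = N z := by
  rw [Fin.sum_univ_succ, h0]
  simp only [h1, N]

theorem nm_T (z : E d) : nrm (T z) = nm z := by
  rw [nrm, N_T h0 h1, nm]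

theorem mem_T (z : E d) : T z ∈ ball (d + 1) ↔ z ∈ B d := by
  rw [ball, Set.mem_ofPred_eq, N_T h0 h1, mem_B]

theorem mem_T' (w : Fin (d + 1) → ℂ) : T.symm w ∈ B d ↔ w ∈ ball (d + 1) := by
  rw [← mem_T h0 h1, T.apply_symm_apply]

theorem ip_T (z w : E d) : herm (T z) (T w) = ip z w := by
  rw [herm, Fin.sum_univ_succ, h0, h0]
  simp only [h1, ip]

theorem len_T (z ξ : E d) : leng (T z) (T ξ) = len z ξ := by
  unfold leng len len2
  rw [nm_T h0 h1, nm_T h0 h1, ip_T h0 h1, nm_sq, nm_sq]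

theorem ker_T (hd : 1 ≤ d) {z w : E d} (hz : z ∈ B d) (hw : w ∈ B d) :
    kern (T z) (T w) = ker z w := by
  unfold kern ker Dl
  rw [nm_T h0 h1, nm_T h0 h1, ip_T h0 h1, nm_sq, nm_sq]
  obtain ⟨e, rfl⟩ : ∃ e, d = e + 1 := ⟨d - 1, by omega⟩
  have h2 : e + 1 + 1 - 2 = e := by omega
  have h3 : 2 * (e + 1 + 1) - 1 = 2 * (e + 1) + 1 := by omega
  rw [h2, h3]
  have h4 : ‖1 - ip z w‖ ≠ 0 := by
    intro h5
    rw [norm_eq_zero, sub_eq_zero] at h5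
    have h6 := N_add z (-w)
    have h7 : N (-w) = N w := by
      have := N_smul (-1) w
      rw [neg_one_smul] at this
      rw [this]; norm_num
    have h8 : ip z (-w) = -1 := by
      have h9 : ip z (-w) = - ip z w := by
        rw [← ip_conj, show (-w) = (-1 : ℂ) • w by simp, ip_smul_left, map_mul, ip_conj]
        simp
      rw [h9, ← h5]
    rw [h7, h8] at h6
    have h9 := N_nonneg (z + -w)
    have h10 : N z < 1 := hz
    have h11 : N w < 1 := hw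
    norm_num at h6
    linarith
  rw [pow_succ' ‖1 - ip z w‖ e, mul_div_mul_left _ _ h4]

omit h0 h1

/-- composition with `T` -/
theorem diff_T {f : (Fin (d + 1) → ℂ) → ℂ} {z : E d} (hf : DifferentiableAt ℂ f (T z)) (ξ : E d) :
    fderiv ℂ (fun w => f (T w)) z ξ = fderiv ℂ f (T z) (T ξ) := by
  have h := hf.hasFDerivAt.comp z T.hasFDerivAt
  have h2 : HasFDerivAt (fun w => f (T w)) ((fderiv ℂ f (T z)).comp (T : E d →L[ℂ] _)) z := h
  rw [h2.fderiv]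
  rfl

theorem ball_open (n : ℕ) : IsOpen (ball n) := by
  refine isOpen_lt ?_ continuous_const
  fun_prop

include h0 h1

theorem hol_T {f : (Fin (d + 1) → ℂ) → ℂ} (hf : DifferentiableOn ℂ f (ball (d + 1))) :
    DifferentiableOn ℂ (fun w => f (T w)) (B d) := by
  intro z hz
  have h2 : DifferentiableAt ℂ f (T z) :=
    hf.differentiableAt ((ball_open _).mem_nhds ((mem_T h0 h1 z).2 hz))
  exact (h2.comp z T.differentiableAt).differentiableWithinAt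

theorem hol_T' {f : E d → ℂ} (hf : DifferentiableOn ℂ f (B d)) :
    DifferentiableOn ℂ (fun w => f (T.symm w)) (ball (d + 1)) := by
  intro z hz
  have h2 : DifferentiableAt ℂ f (T.symm z) :=
    hf.differentiableAt (B_open.mem_nhds ((mem_T' h0 h1 z).2 hz))
  exact (h2.comp z T.symm.differentiableAt).differentiableWithinAt

theorem fd_T {f : (Fin (d + 1) → ℂ) → ℂ} (hf : DifferentiableOn ℂ f (ball (d + 1))) {z : E d}
    (hz : z ∈ B d) (ξ : E d) :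
    fderiv ℂ (fun w => f (T w)) z ξ = fderiv ℂ f (T z) (T ξ) :=
  diff_T (hf.differentiableAt ((ball_open _).mem_nhds ((mem_T h0 h1 z).2 hz))) ξ

/-- transfer for any number of functions -/
theorem genT {M : ℕ} {δ : ℝ} {ω : ℝ → ℝ} {C : ℝ} (H : ∀ f : Fin M → E d → ℂ,
    (∀ j, DifferentiableOn ℂ (f j) (B d)) → (∀ j, ∀ z ∈ B d, ‖f j z‖ ≤ 1) →
    (∀ z ∈ B d, δ ≤ ∑ j, ‖f j z‖) →
    (∀ j, ∀ z ∈ B d, (1 - nm z) * ‖fderiv ℂ (f j) z z‖ ≤ ω (1 - nm z)) →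
    ∃ g : Fin M → E d → ℂ, (∀ j, DifferentiableOn ℂ (g j) (B d)) ∧
      ∀ z ∈ B d, (∀ j, ‖g j z‖ ≤ C) ∧ ∑ j, f j z * g j z = 1)
    (f : Fin M → (Fin (d + 1) → ℂ) → ℂ) (hf : ∀ j, DifferentiableOn ℂ (f j) (ball (d + 1)))
    (hf1 : ∀ j, ∀ z ∈ ball (d + 1), ‖f j z‖ ≤ 1)
    (hδ : ∀ z ∈ ball (d + 1), δ ≤ ∑ j, ‖f j z‖)
    (hω : ∀ j, ∀ z ∈ ball (d + 1), (1 - nrm z) * ‖fderiv ℂ (f j) z z‖ ≤ ω (1 - nrm z)) :
    ∃ g : Fin M → (Fin (d + 1) → ℂ) → ℂ, (∀ j, DifferentiableOn ℂ (g j) (ball (d + 1))) ∧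
      (∀ j, ∀ z ∈ ball (d + 1), ‖g j z‖ ≤ C) ∧ ∀ z ∈ ball (d + 1), ∑ j, f j z * g j z = 1 := by
  obtain ⟨g, hg1, hg2⟩ := H (fun j z => f j (T z)) (fun j => hol_T h0 h1 (hf j))
    (fun j z hz => hf1 j _ ((mem_T h0 h1 z).2 hz)) (fun z hz => hδ _ ((mem_T h0 h1 z).2 hz))
    (fun j z hz => by
      rw [fd_T h0 h1 (hf j) hz, ← nm_T h0 h1]
      exact hω j _ ((mem_T h0 h1 z).2 hz))
  refine ⟨fun j z => g j (T.symm z), fun j => hol_T' h0 h1 (hg1 j), fun j z hz =>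
    (hg2 _ ((mem_T' h0 h1 z).2 hz)).1 j, fun z hz => ?_⟩
  have h2 := (hg2 _ ((mem_T' h0 h1 z).2 hz)).2
  simp only [T.apply_symm_apply] at h2
  exact h2

/-- transfer for two functions -/
theorem twoT {f g : (Fin (d + 1) → ℂ) → ℂ} {A : E d → ℝ≥0∞}
    (H : ∃ h k : E d → ℂ, DifferentiableOn ℂ h (B d) ∧ DifferentiableOn ℂ k (B d) ∧ ∀ z ∈ B d,
      f (T z) * h z + g (T z) * k z = 1 ∧ ENNReal.ofReal ‖h z‖ ≤ A z ∧
      ENNReal.ofReal ‖k z‖ ≤ A z) :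
    ∃ h k : (Fin (d + 1) → ℂ) → ℂ, DifferentiableOn ℂ h (ball (d + 1)) ∧
      DifferentiableOn ℂ k (ball (d + 1)) ∧ ∀ z ∈ ball (d + 1),
      f z * h z + g z * k z = 1 ∧ ENNReal.ofReal ‖h z‖ ≤ A (T.symm z) ∧
      ENNReal.ofReal ‖k z‖ ≤ A (T.symm z) := by
  obtain ⟨h, k, hh, hk, hhk⟩ := H
  refine ⟨fun z => h (T.symm z), fun z => k (T.symm z), hol_T' h0 h1 hh, hol_T' h0 h1 hk,
    fun z hz => ?_⟩
  have h2 := hhk _ ((mem_T' h0 h1 z).2 hz)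
  rw [T.apply_symm_apply] at h2
  exact h2

/-- transfer of the integral -/
theorem JT (hd : 1 ≤ d) (hT : MeasurePreserving (T : E d → Fin (d + 1) → ℂ))
    (a b : (Fin (d + 1) → ℂ) → ℝ) {z : E d} (hz : z ∈ B d) :
    ∫⁻ w in ball (d + 1), ENNReal.ofReal (a w * (a w + b w) * kern (T z) w) =
      JJ (fun w => a (T w)) (fun w => b (T w)) z := by
  have hpre : T ⁻¹' (ball (d + 1)) = B d := by
    ext w
    exact mem_T h0 h1 w
  rw [← hT.setLIntegral_comp_preimage_emb T.toHomeomorph.measurableEmbedding, hpre]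
  unfold JJ
  refine setLIntegral_congr_fun B_meas fun w hw => ?_
  simp only
  rw [ker_T h0 h1 hd hz hw]

end Pool.Agent.N290.RJ.Tr
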