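import Mathlib
import Pool.Agent.N247.RJ.T1
import Pool.Agent.N353.RJ.C1
import Pool.Agent.N27.RJ.C2a
import Pool.Agent.N498.RJ.C2b
import Pool.Agent.N717.RJ.C2
import Pool.Agent.N297.RJ.C3
import Pool.Agent.N271.RJ.C4
import Pool.Agent.N286.RJ.C4b
import Pool.Agent.N134.RJ.C5
import Pool.Agent.N136.RJ.C6
import Pool.Agent.N290.RJ.C8p
import Pool.Agent.N438.RJ.C10
import Pool.Agent.N7.RJ.CM
import Pool.Agent.N755.RJ.S1
import Pool.Agent.N704.RJ.S2S3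
import Pool.Agent.N749.RJ.D2N
import Pool.Agent.N897.RJ.D2
import Pool.Agent.N622.RJ.D1
import Pool.Agent.N394.RJ.SP
import Pool.Agent.N787.RJ.D4
import Pool.Agent.N678.RJ.Loc
import Pool.Agent.N717.RI.E1
import Pool.Agent.N861.RJ.C9
import Pool.Agent.N87.RJ.S4
import Pool.Agent.N655.RJ.LA
import Pool.Agent.N342.RJ.Gel
import Pool.Agent.N290.RJ.Tr

/-!
# All parts together
-/

set_option autoImplicit false

open Complex MeasureTheory Set Filter Topology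
open scoped ENNReal

namespace Pool.Agent.N290.RJ

theorem a_C2a (d : ℕ) : C2a d := Pool.Agent.N27.RJ.C2a d
theorem a_C2 (d : ℕ) : C2 d := Pool.Agent.N717.RJ.C2_of d (Pool.Agent.N353.RJ.C1 d) (a_C2a d)
  (Pool.Agent.N498.RJ.C2b_of d (a_C2a d))
theorem a_C3 (d : ℕ) : C3 d := Pool.Agent.N297.RJ.c3 d
theorem a_C4 (d : ℕ) : C4 d := Pool.Agent.N271.RJ.C4 d
theorem a_C4b (d : ℕ) : C4b d := Pool.Agent.N286.RJ.C4b d
theorem a_C6 (d : ℕ) : C6 d := Pool.Agent.N136.RJ.t_C6 d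
theorem a_Cmain (d : ℕ) : Cmain d := Pool.Agent.N7.RJ.Cmain_of d (a_C2 d) (a_C3 d) (a_C4 d)
  (a_C4b d) (Pool.Agent.N134.RJC5.C5 d) (a_C6 d) (Pool.Agent.N438.RJ.C10 d)
theorem a_C9 (d : ℕ) : C9 d := Pool.Agent.N861.RJ.C9_of d (a_C3 d) (a_C4 d) (a_C4b d) (a_C6 d)
theorem a_SP (d : ℕ) : SP d := Pool.Agent.N394.RJ.SP_of d (a_C4b d) (a_C6 d)
theorem a_LOC (d : ℕ) : LOC d := Pool.Agent.N678.RJ.Loc.loc d
theorem a_S1 (d : ℕ) : S1 d := Pool.Agent.N755.RJ.S1 d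
theorem a_S2 (d : ℕ) : S2 d := Pool.Agent.N704.RJ.S2 d
theorem a_S3 (d : ℕ) : S3 d := Pool.Agent.N704.RJ.S3 d
theorem a_Smain (d : ℕ) : Smain d := Smain_of (a_S1 d) (a_S2 d) (a_S3 d)
theorem a_SmainR (d : ℕ) : SmainR d := SmainR_of (a_S1 d) (a_S2 d) (a_S3 d)
  (Pool.Agent.N87.RJ.t_S4 d)
theorem a_LA (d : ℕ) (h : C9' d) : LA d := Pool.Agent.N655.RJ.LA_of d (a_Cmain d) (a_C9 d) h
  (a_S2 d) (a_S3 d)

end Pool.Agent.N290.RJ
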