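import Mathlib
import Pool.Agent.N290.RJ.Stm
import Pool.Agent.N290.RJ.Sm

/-!
# The smallest regular majorant of the invariant gradient
-/

set_option autoImplicit false

open Complex MeasureTheory Set Filter Topology
open scoped ENNReal

namespace Pool.Agent.N290.RJ

variable {d : ℕ}

/-- the norm of `f'(z)` in the invariant metric -/
noncomputable def ig (f : E d → ℂ) (z : E d) : ℝ := ⨆ ξ : E d, ‖fderiv ℂ f z ξ‖ / len z ξ

/-- the weight -/
noncomputable def wt (t : ℝ) (z : E d) : ℝ := ((1 - nm z) / (1 - t * nm z)) ^ (1 / 8 : ℝ)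

/-- the regularisation along the radius -/
noncomputable def rm (f : E d → ℂ) (z : E d) : ℝ :=
  ⨆ t : Icc (0 : ℝ) 1, wt t z * ig f ((t : ℝ) • z)

theorem nm_cont : Continuous (nm : E d → ℝ) := N_continuous.sqrt

theorem len_zero_right (z : E d) : len z (0 : E d) = 0 := by
  have h := len_smulc (z := z) (0 : ℂ) (0 : E d)
  rwa [zero_smul, norm_zero, zero_mul] at h

theorem len_pos {z : E d} (hz : z ∈ B d) {ξ : E d} (hξ : ξ ≠ 0) : 0 < len z ξ := by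
  have h1 : 0 < N ξ := by
    rcases eq_or_ne ξ.1 0 with h | h
    · have h2 : ξ.2 ≠ 0 := fun h2 => hξ (Prod.ext h h2)
      obtain ⟨i, hi⟩ := Function.ne_iff.1 h2
      have h3 : 0 < ‖ξ.2 i‖ ^ 2 := by
        have : 0 < ‖ξ.2 i‖ := norm_pos_iff.2 hi
        positivity
      have h4 := Finset.single_le_sum (f := fun i => ‖ξ.2 i‖ ^ 2) (fun _ _ => by positivity)
        (Finset.mem_univ i)
      unfold N
      have h5 : 0 ≤ ‖ξ.1‖ ^ 2 := by positivity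
      linarith
    · have h3 : 0 < ‖ξ.1‖ := norm_pos_iff.2 h
      unfold N
      positivity
  have h2 : 0 < 1 - N z := sub_pos.2 hz
  unfold len len2
  apply Real.sqrt_pos.2
  positivity

section

variable {f : E d → ℂ}

theorem ig_term_nonneg (z ξ : E d) : 0 ≤ ‖fderiv ℂ f z ξ‖ / len z ξ :=
  div_nonneg (norm_nonneg _) (len_nonneg _ _)

theorem ig_nonneg (z : E d) : 0 ≤ ig f z := Real.iSup_nonneg fun ξ => ig_term_nonneg z ξ

theorem wt_nonneg {z : E d} (hz : z ∈ B d) {t : ℝ} (ht : t ≤ 1) : 0 ≤ wt t z :=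
  Real.rpow_nonneg (div_nonneg (x_pos hz).le (r_pos hz ht).le) _

theorem wt_pos {z : E d} (hz : z ∈ B d) {t : ℝ} (ht : t ≤ 1) : 0 < wt t z :=
  Real.rpow_pos_of_pos (div_pos (x_pos hz) (r_pos hz ht)) _

theorem wt_le_one {z : E d} (hz : z ∈ B d) {t : ℝ} (ht : t ≤ 1) : wt t z ≤ 1 := by
  refine Real.rpow_le_one (div_nonneg (x_pos hz).le (r_pos hz ht).le) ?_ (by norm_num)
  rw [div_le_one (r_pos hz ht)]
  have := tn_le (z := z) ht
  linarith

theorem wt_one {z : E d} (hz : z ∈ B d) : wt 1 z = 1 := by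
  unfold wt
  rw [one_mul, div_self (x_pos hz).ne', Real.one_rpow]

variable (hSP : SP d) (hf : DifferentiableOn ℂ f (B d)) (hf1 : ∀ z ∈ B d, ‖f z‖ ≤ 1)
include hSP hf hf1

theorem ig_term_le {z : E d} (hz : z ∈ B d) (ξ : E d) : ‖fderiv ℂ f z ξ‖ / len z ξ ≤ 1 :=
  div_le_one_of_le₀ (hSP f hf hf1 z hz ξ) (len_nonneg _ _)

theorem ig_bdd {z : E d} (hz : z ∈ B d) : BddAbove (range fun ξ : E d =>
    ‖fderiv ℂ f z ξ‖ / len z ξ) := ⟨1, by
  rintro _ ⟨ξ, rfl⟩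
  exact ig_term_le hSP hf hf1 hz ξ⟩

theorem ig_le_one {z : E d} (hz : z ∈ B d) : ig f z ≤ 1 :=
  Real.iSup_le (fun ξ => ig_term_le hSP hf hf1 hz ξ) zero_le_one

theorem le_ig {z : E d} (hz : z ∈ B d) (ξ : E d) : ‖fderiv ℂ f z ξ‖ ≤ ig f z * len z ξ := by
  rcases eq_or_ne ξ 0 with rfl | hξ
  · rw [map_zero, norm_zero]
    exact mul_nonneg (ig_nonneg z) (len_nonneg _ _)
  · rw [← div_le_iff₀ (len_pos hz hξ)]
    exact le_ciSup (ig_bdd hSP hf hf1 hz) ξ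

theorem rm_term_le {z : E d} (hz : z ∈ B d) (t : Icc (0 : ℝ) 1) :
    wt t z * ig f ((t : ℝ) • z) ≤ 1 := by
  have h1 := wt_le_one hz t.2.2
  have h2 := ig_le_one hSP hf hf1 (smul_mem_B hz t.2.1 t.2.2)
  have h3 := wt_nonneg hz t.2.2
  have h4 := ig_nonneg (f := f) ((t : ℝ) • z)
  nlinarith

theorem rm_bdd {z : E d} (hz : z ∈ B d) : BddAbove (range fun t : Icc (0 : ℝ) 1 =>
    wt t z * ig f ((t : ℝ) • z)) := ⟨1, by
  rintro _ ⟨t, rfl⟩
  exact rm_term_le hSP hf hf1 hz t⟩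

omit hSP hf hf1 in
theorem rm_nonneg {z : E d} (hz : z ∈ B d) : 0 ≤ rm f z :=
  Real.iSup_nonneg fun t => mul_nonneg (wt_nonneg hz t.2.2) (ig_nonneg _)

theorem ig_le_rm {z : E d} (hz : z ∈ B d) : ig f z ≤ rm f z := by
  have h := le_ciSup (rm_bdd hSP hf hf1 hz) ⟨1, by norm_num, le_rfl⟩
  simp only [wt_one hz, one_mul, one_smul] at h
  exact h

theorem rm_reg {z : E d} (hz : z ∈ B d) {t : ℝ} (h0 : 0 ≤ t) (h1 : t ≤ 1) :
    rm f (t • z) ≤ 1 * ((1 - t * nm z) / (1 - nm z)) ^ (1 / 8 : ℝ) * rm f z := by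
  have hx := x_pos hz
  have hr := r_pos hz h1
  rw [one_mul]
  refine Real.iSup_le (fun s => ?_) (mul_nonneg (Real.rpow_nonneg (div_nonneg hr.le hx.le) _)
    (rm_nonneg hz))
  have hst : (s : ℝ) * t ∈ Icc (0 : ℝ) 1 := ⟨mul_nonneg s.2.1 h0, mul_le_one₀ s.2.2 h0 h1⟩
  have h2 := le_ciSup (rm_bdd hSP hf hf1 hz) ⟨s * t, hst⟩
  have h3 : wt s (t • z) = ((1 - t * nm z) / (1 - nm z)) ^ (1 / 8 : ℝ) * wt (s * t) z := by
    unfold wt
    rw [nm_smul t h0, ← Real.mul_rpow (div_nonneg hr.le hx.le)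
      (div_nonneg hx.le (r_pos hz hst.2).le)]
    congr 1
    rw [mul_assoc (s : ℝ) t (nm z)]
    have h4 : 0 < 1 - (s : ℝ) * (t * nm z) := by
      have := r_pos hz hst.2
      rwa [mul_assoc] at this
    field_simp
  rw [h3, smul_smul, mul_assoc]
  exact mul_le_mul_of_nonneg_left h2 (Real.rpow_nonneg (div_nonneg hr.le hx.le) _)

omit hSP hf1 in
theorem term_cont (ξ : E d) (hξ : ξ ≠ 0) :
    ContinuousOn (fun z => ‖fderiv ℂ f z ξ‖ / len z ξ) (B d) := by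
  have h1 : ContinuousOn (fun z => fderiv ℝ f z ξ) (B d) :=
    ((cd_hol hf).continuousOn_fderiv_of_isOpen B_open le_rfl).clm_apply continuousOn_const
  have h2 : ContinuousOn (fun z => fderiv ℂ f z ξ) (B d) :=
    h1.congr fun z hz => (fderivR_eq (da_hol hf hz) ξ).symm
  have h3 : ContinuousOn (fun z : E d => len z ξ) (B d) := by
    unfold len len2
    have h4 : Continuous fun z : E d => ip ξ z := ip_continuous.comp
      (by fun_prop : Continuous fun z : E d => (ξ, z))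
    have h5 : Continuous (N : E d → ℝ) := N_continuous
    refine ContinuousOn.sqrt (ContinuousOn.add ?_ ?_)
    · exact continuousOn_const.div (by fun_prop) fun z hz => (sub_pos.2 hz).ne'
    · exact ContinuousOn.div (by fun_prop) (by fun_prop) fun z hz => pow_ne_zero 2 (sub_pos.2 hz).ne'
  exact h2.norm.div h3 fun z hz => (len_pos hz hξ).ne'

omit hSP hf1 in
theorem open_term (ξ : E d) (t c : ℝ) (h0 : 0 ≤ t) (h1 : t ≤ 1) (hc : 0 ≤ c) :
    IsOpen {z | z ∈ B d ∧ c < wt t z * (‖fderiv ℂ f (t • z) ξ‖ / len (t • z) ξ)} := by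
  rcases eq_or_ne ξ 0 with rfl | hξ
  · have h : {z | z ∈ B d ∧ c < wt t z * (‖fderiv ℂ f (t • z) (0 : E d)‖ / len (t • z) (0 : E d))} =
        (∅ : Set (E d)) := by
      ext z
      simp only [mem_ofPred_eq, mem_empty_iff_false, iff_false, not_and, not_lt, map_zero, norm_zero,
        zero_div, mul_zero]
      exact fun _ => hc
    rw [h]
    exact isOpen_empty
  · have h2 : ContinuousOn (fun z : E d => wt t z) (B d) := by
      unfold wt
      have h3 : Continuous (nm : E d → ℝ) := nm_cont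
      refine ContinuousOn.rpow_const (ContinuousOn.div (by fun_prop) (by fun_prop)
        fun z hz => (r_pos hz h1).ne') fun z hz => Or.inl (div_pos (x_pos hz) (r_pos hz h1)).ne'
    have h4 : ContinuousOn (fun z : E d => ‖fderiv ℂ f (t • z) ξ‖ / len (t • z) ξ) (B d) :=
      (term_cont hf ξ hξ).comp (by fun_prop) fun z hz => smul_mem_B hz h0 h1
    exact (h2.mul h4).isOpen_inter_preimage B_open isOpen_Ioi

theorem rm_open {c : ℝ} (hc : 0 ≤ c) : IsOpen {z | z ∈ B d ∧ c < rm f z} := by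
  have h : {z | z ∈ B d ∧ c < rm f z} = ⋃ (t : Icc (0 : ℝ) 1), ⋃ ξ : E d,
      {z | z ∈ B d ∧ c < wt t z * (‖fderiv ℂ f ((t : ℝ) • z) ξ‖ / len ((t : ℝ) • z) ξ)} := by
    ext z
    simp only [mem_ofPred_eq, mem_iUnion]
    constructor
    · rintro ⟨hz, h⟩
      obtain ⟨t, ht⟩ := exists_lt_of_lt_ciSup (show c < ⨆ t : Icc (0 : ℝ) 1,
        wt t z * ig f ((t : ℝ) • z) from h)
      have h1 := wt_pos hz t.2.2
      rw [mul_comm, ← div_lt_iff₀ h1] at ht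
      obtain ⟨ξ, hξ⟩ := exists_lt_of_lt_ciSup (show c / wt t z < ⨆ ξ : E d,
        ‖fderiv ℂ f ((t : ℝ) • z) ξ‖ / len ((t : ℝ) • z) ξ from ht)
      rw [div_lt_iff₀ h1, mul_comm] at hξ
      exact ⟨t, ξ, hz, hξ⟩
    · rintro ⟨t, ξ, hz, h⟩
      refine ⟨hz, h.trans_le ?_⟩
      have h1 := le_ciSup (rm_bdd hSP hf hf1 hz) t
      refine le_trans ?_ h1
      exact mul_le_mul_of_nonneg_left
        (le_ciSup (ig_bdd hSP hf hf1 (smul_mem_B hz t.2.1 t.2.2)) ξ) (wt_nonneg hz t.2.2)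
  rw [h]
  exact isOpen_iUnion fun t => isOpen_iUnion fun ξ => open_term hf ξ t c t.2.1 t.2.2 hc

theorem rm_meas : Measurable ((B d).indicator (rm f)) := by
  refine measurable_of_Ioi fun c => ?_
  rcases lt_or_ge c 0 with hc | hc
  · have h : (B d).indicator (rm f) ⁻¹' Ioi c = univ := by
      ext z
      simp only [mem_preimage, mem_Ioi, mem_univ, iff_true]
      refine hc.trans_le ?_
      by_cases hz : z ∈ B d
      · rw [indicator_of_mem hz]; exact rm_nonneg hz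
      · rw [indicator_of_notMem hz]
    rw [h]
    exact MeasurableSet.univ
  · have h : (B d).indicator (rm f) ⁻¹' Ioi c = {z | z ∈ B d ∧ c < rm f z} := by
      ext z
      simp only [mem_preimage, mem_Ioi, mem_ofPred_eq]
      by_cases hz : z ∈ B d
      · rw [indicator_of_mem hz]
        exact ⟨fun h => ⟨hz, h⟩, fun h => h.2⟩
      · rw [indicator_of_notMem hz]
        exact ⟨fun h => absurd h hc.not_gt, fun h => absurd h.1 hz⟩
    rw [h]
    exact (rm_open hSP hf hf1 hc).measurableSet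

end

/-- **pairs: pointwise bound by the regularised area integral** -/
theorem pair_of (hmain : ∀ δ K : ℝ, 0 < δ → ∃ C : ℝ, 0 < C ∧ ∀ (f g : E d → ℂ) (a b : E d → ℝ),
    DifferentiableOn ℂ f (B d) → DifferentiableOn ℂ g (B d) →
    (∀ z ∈ (B d), ‖f z‖ ≤ 1) → (∀ z ∈ (B d), ‖g z‖ ≤ 1) → (∀ z ∈ (B d), δ ≤ ‖f z‖ + ‖g z‖) →
    Measurable a → Measurable b → (∀ z ∈ (B d), 0 ≤ a z) → (∀ z ∈ (B d), 0 ≤ b z) →
    (∀ z ∈ (B d), ∀ ξ, ‖fderiv ℂ f z ξ‖ ≤ a z * len z ξ) →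
    (∀ z ∈ (B d), ∀ ξ, ‖fderiv ℂ g z ξ‖ ≤ b z * len z ξ) →
    (∀ z ∈ (B d), ∀ t : ℝ, 0 ≤ t → t ≤ 1 →
      a (t • z) ≤ K * ((1 - t * nm z) / (1 - nm z)) ^ (1 / 8 : ℝ) * a z) →
    (∀ z ∈ (B d), ∀ t : ℝ, 0 ≤ t → t ≤ 1 →
      b (t • z) ≤ K * ((1 - t * nm z) / (1 - nm z)) ^ (1 / 8 : ℝ) * b z) →
    ∃ h k : E d → ℂ, DifferentiableOn ℂ h (B d) ∧ DifferentiableOn ℂ k (B d) ∧ ∀ z ∈ (B d),
      f z * h z + g z * k z = 1 ∧ ENNReal.ofReal ‖h z‖ ≤ ENNReal.ofReal C * (1 +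
        ∫⁻ w in B d, ENNReal.ofReal (a w * (a w + b w) * ker z w)) ∧
      ENNReal.ofReal ‖k z‖ ≤ ENNReal.ofReal C * (1 +
        ∫⁻ w in B d, ENNReal.ofReal (a w * (a w + b w) * ker z w))) (hSP : SP d) (δ : ℝ)
    (hδ : 0 < δ) : ∃ C : ℝ, 0 < C ∧ ∀ (f g : E d → ℂ),
    DifferentiableOn ℂ f (B d) → DifferentiableOn ℂ g (B d) →
    (∀ z ∈ (B d), ‖f z‖ ≤ 1) → (∀ z ∈ (B d), ‖g z‖ ≤ 1) → (∀ z ∈ (B d), δ ≤ ‖f z‖ + ‖g z‖) →
    ∃ h k : E d → ℂ, DifferentiableOn ℂ h (B d) ∧ DifferentiableOn ℂ k (B d) ∧ ∀ z ∈ (B d),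
      f z * h z + g z * k z = 1 ∧ ENNReal.ofReal ‖h z‖ ≤ ENNReal.ofReal C * (1 +
        ∫⁻ w in B d, ENNReal.ofReal (rm f w * (rm f w + rm g w) * ker z w)) ∧
      ENNReal.ofReal ‖k z‖ ≤ ENNReal.ofReal C * (1 +
        ∫⁻ w in B d, ENNReal.ofReal (rm f w * (rm f w + rm g w) * ker z w)) := by
  obtain ⟨C, hC, H⟩ := hmain δ 1 hδ
  refine ⟨C, hC, fun f g hf hg hf1 hg1 hδfg => ?_⟩
  have hm : ∀ {f : E d → ℂ}, ∀ {z : E d}, z ∈ B d → (B d).indicator (rm f) z = rm f z :=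
    fun hz => indicator_of_mem hz _
  obtain ⟨h, k, hh, hk, hhk⟩ := H f g ((B d).indicator (rm f)) ((B d).indicator (rm g)) hf hg hf1
    hg1 hδfg (rm_meas hSP hf hf1) (rm_meas hSP hg hg1)
    (fun z hz => by rw [hm hz]; exact rm_nonneg hz) (fun z hz => by rw [hm hz]; exact rm_nonneg hz)
    (fun z hz ξ => by
      rw [hm hz]
      exact (le_ig hSP hf hf1 hz ξ).trans
        (mul_le_mul_of_nonneg_right (ig_le_rm hSP hf hf1 hz) (len_nonneg _ _)))
    (fun z hz ξ => by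
      rw [hm hz]
      exact (le_ig hSP hg hg1 hz ξ).trans
        (mul_le_mul_of_nonneg_right (ig_le_rm hSP hg hg1 hz) (len_nonneg _ _)))
    (fun z hz t h0 h1 => by
      rw [hm hz, hm (smul_mem_B hz h0 h1)]
      exact rm_reg hSP hf hf1 hz h0 h1)
    (fun z hz t h0 h1 => by
      rw [hm hz, hm (smul_mem_B hz h0 h1)]
      exact rm_reg hSP hg hg1 hz h0 h1)
  refine ⟨h, k, hh, hk, fun z hz => ?_⟩
  have h1 : ∫⁻ w in B d, ENNReal.ofReal ((B d).indicator (rm f) w * ((B d).indicator (rm f) w +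
      (B d).indicator (rm g) w) * ker z w) =
      ∫⁻ w in B d, ENNReal.ofReal (rm f w * (rm f w + rm g w) * ker z w) :=
    setLIntegral_congr_fun B_meas fun w hw => by simp only [hm hw]
  have h2 := hhk z hz
  rw [h1] at h2
  exact h2

end Pool.Agent.N290.RJ
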