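import Mathlib
import Pool.Agent.N342.RJ.Gel
import Pool.Agent.N290.RJ.Alg

/-!
# Uniform closures, with uniform bounds
-/

set_option autoImplicit false

open Complex MeasureTheory Set Filter Topology
open scoped ENNReal

namespace Pool.Agent.N290.RJ

open Pool.Agent.N290.R5 (BH Chr gelf)
open Pool.Agent.N342.RJ (bh_add bh_mul bh_const bh_sum chr_sum bh_lim)

/-- from a class of bounded holomorphic functions to its uniform closure -/
theorem gel_gen {X : Type} [NormedAddCommGroup X] [NormedSpace ℂ X] {Ω : Set X}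
    (hopen : IsOpen Ω) (hne : Ω.Nonempty) (𝒮 : Set (X → ℂ)) (hSb : ∀ s ∈ 𝒮, BH Ω s)
    (hadd : ∀ f ∈ 𝒮, ∀ c : ℂ, (fun z => f z + c) ∈ 𝒮)
    (hsol : ∀ (M : ℕ) (δ : ℝ) (f : Fin M → X → ℂ), 0 < δ → (∀ j, f j ∈ 𝒮) →
      (∀ z ∈ Ω, δ ≤ ∑ j, ‖f j z‖) →
      ∃ g : Fin M → X → ℂ, (∀ j, BH Ω (g j)) ∧ ∀ z ∈ Ω, ∑ j, f j z * g j z = 1)
    (M : ℕ) (δ : ℝ) (f : Fin M → X → ℂ) (hδ : 0 < δ)
    (hf : ∀ j, ∀ ε : ℝ, 0 < ε → ∃ s ∈ 𝒮, ∀ z ∈ Ω, ‖f j z - s z‖ ≤ ε)
    (hlow : ∀ z ∈ Ω, δ ≤ ∑ j, ‖f j z‖) :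
    ∃ g : Fin M → X → ℂ, (∀ j, BH Ω (g j)) ∧ ∀ z ∈ Ω, ∑ j, f j z * g j z = 1 := by
  have hfb : ∀ j, BH Ω (f j) := by
    intro j
    refine bh_lim hopen fun ε hε => ?_
    obtain ⟨s, hs, h⟩ := hf j ε hε
    exact ⟨s, hSb s hs, h⟩
  by_contra hno
  obtain ⟨χ, hχ, hχf⟩ := gelf hopen hne hfb hno
  obtain ⟨ε, hε⟩ : ∃ ε : ℝ, ε = δ / (4 * (M + 1)) := ⟨_, rfl⟩
  have hε0 : 0 < ε := by rw [hε]; positivity
  choose s hs hs' using fun j => hf j ε hε0
  have hc : ∀ j, ‖χ (s j)‖ ≤ ε := by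
    intro j
    have e1 : χ (fun z => s j z + (-1) * f j z) = χ (s j) := by
      rw [hχ.add _ _ (hSb _ (hs j)) (bh_mul (bh_const _) (hfb j)),
        hχ.mul (fun _ => -1) (f j) (bh_const _) (hfb j), hχf j, mul_zero, add_zero]
    rw [← e1]
    refine hχ.le _ _ (bh_add (hSb _ (hs j)) (bh_mul (bh_const _) (hfb j))) hε0.le fun z hz => ?_
    have e2 : s j z + (-1) * f j z = -(f j z - s j z) := by ring
    rw [e2, norm_neg]
    exact hs' j z hz
  obtain ⟨g, hgb, hg⟩ := hsol M (δ / 2) (fun j z => s j z + (-χ (s j))) (by positivity)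
    (fun j => hadd _ (hs j) _) (by
      intro z hz
      have h1 : ∀ j, ‖f j z‖ ≤ ‖s j z + (-χ (s j))‖ + 2 * ε := by
        intro j
        have e : f j z = (s j z + (-χ (s j))) + ((f j z - s j z) + χ (s j)) := by ring
        have h2 := norm_add_le (s j z + (-χ (s j))) ((f j z - s j z) + χ (s j))
        rw [← e] at h2
        have h3 := norm_add_le (f j z - s j z) (χ (s j))
        have h4 := hs' j z hz
        have h5 := hc j
        linarith
      have h2 : ∑ j, ‖f j z‖ ≤ ∑ j, (‖s j z + (-χ (s j))‖ + 2 * ε) :=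
        Finset.sum_le_sum fun j _ => h1 j
      rw [Finset.sum_add_distrib, Finset.sum_const, Finset.card_univ, Fintype.card_fin,
        nsmul_eq_mul] at h2
      have h3 := hlow z hz
      have h4 : (M : ℝ) * (2 * ε) ≤ δ / 2 := by
        rw [hε]
        have h5 : (M : ℝ) * (2 * (δ / (4 * (M + 1)))) = (δ / 2) * (M / (M + 1)) := by
          field_simp
          ring
        rw [h5]
        have h6 : (M : ℝ) / (M + 1) ≤ 1 := by
          rw [div_le_one (by positivity)]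
          linarith
        have h7 : 0 ≤ δ / 2 := by positivity
        nlinarith
      linarith)
  have hsb : ∀ j, BH Ω (fun z => s j z + (-χ (s j))) :=
    fun j => bh_add (hSb _ (hs j)) (bh_const _)
  have hz : ∀ j, χ (fun z => s j z + (-χ (s j))) = 0 := by
    intro j
    rw [hχ.add _ _ (hSb _ (hs j)) (bh_const _), hχ.const, add_neg_cancel]
  have h1 := chr_sum hχ Finset.univ (fun j => bh_mul (hsb j) (hgb j))
  have h2 := hχ.congr _ (fun _ => 1) (bh_sum Finset.univ (fun j => bh_mul (hsb j) (hgb j)))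
    (bh_const 1) (fun z hz => hg z hz)
  rw [h1, hχ.const, Finset.sum_eq_zero] at h2
  · exact zero_ne_one h2
  · intro j _
    rw [hχ.mul _ _ (hsb j) (hgb j), hz j, zero_mul]

variable {d : ℕ}

/-- the uniform corona theorem for one modulus, functions bounded by `1` -/
def P1 (d : ℕ) : Prop := ∀ (M : ℕ) (δ : ℝ) (ω : ℝ → ℝ), 0 < δ → SDM ω → ∃ C : ℝ,
  ∀ f : Fin M → E d → ℂ, (∀ j, DifferentiableOn ℂ (f j) (B d)) →
  (∀ j, ∀ z ∈ B d, ‖f j z‖ ≤ 1) → (∀ z ∈ B d, δ ≤ ∑ j, ‖f j z‖) →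
  (∀ j, ∀ z ∈ B d, (1 - nm z) * ‖fderiv ℂ (f j) z z‖ ≤ ω (1 - nm z)) →
  ∃ g : Fin M → E d → ℂ, (∀ j, DifferentiableOn ℂ (g j) (B d)) ∧
    ∀ z ∈ B d, (∀ j, ‖g j z‖ ≤ C) ∧ ∑ j, f j z * g j z = 1

/-- the uniform corona theorem for one modulus, functions bounded by `C` -/
theorem class_unif (H : P1 d) (M : ℕ) (δ C : ℝ) (hδ : 0 < δ) (ω : ℝ → ℝ) (hω : SDM ω) :
    ∃ D : ℝ, 0 ≤ D ∧ ∀ s : Fin M → E d → ℂ, (∀ j, DifferentiableOn ℂ (s j) (B d)) →
    (∀ j, ∀ z ∈ B d, ‖s j z‖ ≤ C) → (∀ z ∈ B d, δ ≤ ∑ j, ‖s j z‖) →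
    (∀ j, ∀ z ∈ B d, (1 - nm z) * ‖fderiv ℂ (s j) z z‖ ≤ ω (1 - nm z)) →
    ∃ g : Fin M → E d → ℂ, (∀ j, DifferentiableOn ℂ (g j) (B d)) ∧
      ∀ z ∈ B d, (∀ j, ‖g j z‖ ≤ D) ∧ ∑ j, s j z * g j z = 1 := by
  obtain ⟨A, hA⟩ : ∃ A : ℝ, A = 1 + |C| := ⟨_, rfl⟩
  have hA1 : 1 ≤ A := by rw [hA]; linarith [abs_nonneg C]
  have hA0 : 0 < A := by linarith
  have hCA : C ≤ A := by rw [hA]; linarith [le_abs_self C]
  have hω' : SDM (fun t => ω t / A) := by
    have h1 := SDM.sum (M := 1) (ω := fun _ => ω) (fun _ => hω) hA1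
    simpa using h1
  obtain ⟨D, hD⟩ := H M (δ / A) (fun t => ω t / A) (by positivity) hω'
  have hAn : ‖((A : ℝ) : ℂ)⁻¹‖ = A⁻¹ := by
    rw [norm_inv, Complex.norm_real, Real.norm_eq_abs, abs_of_pos hA0]
  refine ⟨A⁻¹ * |D|, by positivity, fun s hs1 hs2 hδs hsω => ?_⟩
  obtain ⟨g, hg1, hg2⟩ := hD (fun j z => ((A : ℝ) : ℂ)⁻¹ * s j z) (fun j => (hs1 j).const_mul _)
    (fun j z hz => by
      rw [norm_mul, hAn, inv_mul_le_iff₀ hA0, mul_one]
      exact (hs2 j z hz).trans hCA)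
    (fun z hz => by
      have h1 := hδs z hz
      have h2 : ∑ j, ‖((A : ℝ) : ℂ)⁻¹ * s j z‖ = (∑ j, ‖s j z‖) / A := by
        rw [Finset.sum_div]
        refine Finset.sum_congr rfl fun j _ => ?_
        rw [norm_mul, hAn]
        ring
      rw [h2]
      exact div_le_div_of_nonneg_right h1 hA0.le)
    (fun j z hz => by
      have hd : DifferentiableAt ℂ (s j) z := (hs1 j).differentiableAt (B_open.mem_nhds hz)
      have h1 : fderiv ℂ (fun z => ((A : ℝ) : ℂ)⁻¹ * s j z) z = ((A : ℝ) : ℂ)⁻¹ • fderiv ℂ (s j) z :=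
        fderiv_const_mul hd _
      have h2 : ‖fderiv ℂ (fun z => ((A : ℝ) : ℂ)⁻¹ * s j z) z z‖ = A⁻¹ * ‖fderiv ℂ (s j) z z‖ := by
        rw [h1, smul_apply, smul_eq_mul, norm_mul, hAn]
      rw [h2]
      calc (1 - nm z) * (A⁻¹ * ‖fderiv ℂ (s j) z z‖)
          = ((1 - nm z) * ‖fderiv ℂ (s j) z z‖) / A := by ring
        _ ≤ ω (1 - nm z) / A := div_le_div_of_nonneg_right (hsω j z hz) hA0.le)
  refine ⟨fun j z => ((A : ℝ) : ℂ)⁻¹ * g j z, fun j => (hg1 j).const_mul _,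
    fun z hz => ⟨fun j => ?_, ?_⟩⟩
  · rw [norm_mul, hAn]
    exact mul_le_mul_of_nonneg_left (((hg2 z hz).1 j).trans (le_abs_self D)) (inv_nonneg.2 hA0.le)
  · rw [← (hg2 z hz).2]
    refine Finset.sum_congr rfl fun j _ => ?_
    ring

/-- countably many copies of the ball -/
def BB (d : ℕ) : Set (E d × ℂ) := {q | q.1 ∈ B d ∧ ∃ k : ℕ, ‖q.2 - (3 * k : ℂ)‖ < 1}

/-- the number of the copy -/
noncomputable def idx (w : ℂ) : ℕ := ⌊(w.re + 1) / 3⌋₊

theorem idx_eq {w : ℂ} {k : ℕ} (h : ‖w - (3 * k : ℂ)‖ < 1) : idx w = k := by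
  have h1 : |w.re - 3 * k| < 1 := by
    have h2 := Complex.abs_re_le_norm (w - (3 * k : ℂ))
    have h3 : (w - (3 * k : ℂ)).re = w.re - 3 * k := by simp
    rw [h3] at h2
    exact lt_of_le_of_lt h2 h
  rw [abs_lt] at h1
  unfold idx
  rw [Nat.floor_eq_iff (by
    have : (0 : ℝ) ≤ k := Nat.cast_nonneg k
    rw [le_div_iff₀ (by norm_num)]
    linarith [h1.1])]
  constructor
  · rw [le_div_iff₀ (by norm_num)]; linarith [h1.1]
  · rw [div_lt_iff₀ (by norm_num)]; linarith [h1.2]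

theorem BB_open : IsOpen (BB d) := by
  have h1 : BB d = (Prod.fst ⁻¹' (B d)) ∩ ⋃ k : ℕ, {q : E d × ℂ | ‖q.2 - (3 * k : ℂ)‖ < 1} := by
    ext q
    simp [BB]
  rw [h1]
  refine (B_open.preimage continuous_fst).inter (isOpen_iUnion fun k => ?_)
  exact isOpen_lt (by fun_prop) continuous_const

theorem mem_BB {z : E d} (hz : z ∈ B d) (k : ℕ) : (z, (3 * k : ℂ)) ∈ BB d :=
  ⟨hz, k, by simp⟩

/-- gluing a sequence of functions -/
noncomputable def glue (s : ℕ → E d → ℂ) (q : E d × ℂ) : ℂ := s (idx q.2) q.1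

theorem glue_diff {s : ℕ → E d → ℂ} (hs : ∀ k, DifferentiableOn ℂ (s k) (B d)) :
    DifferentiableOn ℂ (glue s) (BB d) := by
  rintro q ⟨hq, k, hk⟩
  have h1 : DifferentiableAt ℂ (fun p : E d × ℂ => s k p.1) q := by
    have h2 : DifferentiableAt ℂ (s k) q.1 := (hs k).differentiableAt (B_open.mem_nhds hq)
    exact h2.comp q differentiableAt_fst
  have h3 : glue s =ᶠ[𝓝 q] fun p : E d × ℂ => s k p.1 := by
    have h4 : {p : E d × ℂ | ‖p.2 - (3 * k : ℂ)‖ < 1} ∈ 𝓝 q :=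
      (isOpen_lt (by fun_prop) continuous_const).mem_nhds hk
    filter_upwards [h4] with p hp
    unfold glue
    rw [idx_eq hp]
  exact (h1.congr_of_eventuallyEq h3).differentiableWithinAt

theorem glue_bh {s : ℕ → E d → ℂ} {C : ℝ} (hs : ∀ k, DifferentiableOn ℂ (s k) (B d))
    (hC : ∀ k, ∀ z ∈ B d, ‖s k z‖ ≤ C) : BH (BB d) (glue s) :=
  ⟨glue_diff hs, C, fun q hq => hC _ _ hq.1⟩

/-- **uniform closure, uniform bound** -/
theorem unif_of (H : P1 d) (M : ℕ) (δ : ℝ) (hδ : 0 < δ) (W : ℝ → ℝ → ℝ)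
    (hW : ∀ ε : ℝ, 0 < ε → SDM (W ε)) : ∃ C : ℝ, ∀ f : Fin M → E d → ℂ,
    (∀ j, DifferentiableOn ℂ (f j) (B d)) → (∀ j, ∀ z ∈ B d, ‖f j z‖ ≤ 1) →
    (∀ z ∈ B d, δ ≤ ∑ j, ‖f j z‖) →
    (∀ j, ∀ ε : ℝ, 0 < ε → ∃ s : E d → ℂ, DifferentiableOn ℂ s (B d) ∧
      (∀ z ∈ B d, (1 - nm z) * ‖fderiv ℂ s z z‖ ≤ W ε (1 - nm z)) ∧
      ∀ z ∈ B d, ‖f j z - s z‖ ≤ ε) →
    ∃ g : Fin M → E d → ℂ, (∀ j, DifferentiableOn ℂ (g j) (B d)) ∧
      ∀ z ∈ B d, (∀ j, ‖g j z‖ ≤ C) ∧ ∑ j, f j z * g j z = 1 := by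
  by_contra hno
  push Not at hno
  choose f hf1 hf2 hf3 hf4 hf5 using fun k : ℕ => hno (k : ℝ)
  have h := gel_gen BB_open ⟨(0, 0), by
      have := mem_BB (d := d) zero_mem_B 0
      simpa using this⟩
    {S : E d × ℂ → ℂ | ∃ (s : ℕ → E d → ℂ) (C : ℝ) (ω : ℝ → ℝ), SDM ω ∧
      (∀ k, DifferentiableOn ℂ (s k) (B d)) ∧ (∀ k, ∀ z ∈ B d, ‖s k z‖ ≤ C) ∧
      (∀ k, ∀ z ∈ B d, (1 - nm z) * ‖fderiv ℂ (s k) z z‖ ≤ ω (1 - nm z)) ∧ S = glue s}
    (by
      rintro S ⟨s, C, ω, hω, hs1, hs2, hs3, rfl⟩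
      exact glue_bh hs1 hs2)
    (by
      rintro S ⟨s, C, ω, hω, hs1, hs2, hs3, rfl⟩ c
      refine ⟨fun k z => s k z + c, C + ‖c‖, ω, hω, fun k => (hs1 k).add_const c,
        fun k z hz => (norm_add_le _ _).trans (add_le_add (hs2 k z hz) le_rfl),
        fun k z hz => ?_, rfl⟩
      rw [fderiv_add_const]
      exact hs3 k z hz)
    (by
      intro M δ S hδ hS hδS
      choose s C ω hω hs1 hs2 hs3 hs4 using hS
      obtain ⟨D, hD0, hD⟩ := class_unif H M δ (∑ j, |C j|) hδ (fun t => (∑ j, ω j t) / 1)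
        (SDM.sum hω le_rfl)
      have h1 : ∀ k : ℕ, ∃ g : Fin M → E d → ℂ, (∀ j, DifferentiableOn ℂ (g j) (B d)) ∧
          ∀ z ∈ B d, (∀ j, ‖g j z‖ ≤ D) ∧ ∑ j, s j k z * g j z = 1 := by
        intro k
        refine hD (fun j => s j k) (fun j => hs1 j k) (fun j z hz => ?_) (fun z hz => ?_)
          (fun j z hz => ?_)
        · have h2 := Finset.single_le_sum (f := fun j => |C j|) (fun i _ => abs_nonneg _)
            (Finset.mem_univ j)
          exact (hs2 j k z hz).trans ((le_abs_self _).trans h2)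
        · have h2 := hδS _ (mem_BB hz k)
          have h3 : ∀ j, S j (z, (3 * k : ℂ)) = s j k z := by
            intro j
            rw [hs4 j]
            unfold glue
            rw [idx_eq (k := k) (by simp)]
          simpa only [h3] using h2
        · rw [div_one]
          have h2 := Finset.single_le_sum (f := fun j => ω j (1 - nm z))
            (fun i _ => (hω i).2.1 _) (Finset.mem_univ j)
          exact (hs3 j k z hz).trans h2
      choose g hg1 hg2 using h1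
      refine ⟨fun j => glue fun k => g k j, fun j => glue_bh (C := D) (fun k => hg1 k j)
        fun k z hz => (hg2 k z hz).1 j, fun q hq => ?_⟩
      have h2 := (hg2 (idx q.2) q.1 hq.1).2
      rw [← h2]
      refine Finset.sum_congr rfl fun j _ => ?_
      rw [hs4 j]
      rfl)
    M δ (fun j => glue fun k => f k j) hδ
    (by
      intro j ε hε
      have h1 := fun k => hf4 k j (min ε 1) (lt_min hε one_pos)
      choose s hs1 hs2 hs3 using h1
      refine ⟨glue s, ⟨s, 2, W (min ε 1), hW _ (lt_min hε one_pos), hs1, fun k z hz => ?_, hs2,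
        rfl⟩, fun q hq => ?_⟩
      · have h2 := hs3 k z hz
        have h3 := hf2 k j z hz
        have h4 := norm_sub_le (f k j z) (f k j z - s k z)
        rw [sub_sub_cancel] at h4
        have h5 := min_le_right ε 1
        linarith
      · exact (hs3 _ _ hq.1).trans (min_le_left _ _))
    (fun q hq => hf3 _ _ hq.1)
  obtain ⟨g, hg1, hg2⟩ := h
  choose C hC using fun j => (hg1 j).2
  obtain ⟨k, hk⟩ := exists_nat_ge (∑ j, |C j|)
  obtain ⟨z, hz, hz2⟩ := hf5 k (fun j z => g j (z, (3 * k : ℂ))) (fun j => by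
    have h1 : MapsTo (fun z : E d => (z, (3 * k : ℂ))) (B d) (BB d) := fun z hz => mem_BB hz k
    exact (hg1 j).1.comp (by fun_prop) h1)
  refine hz2 (fun j => ?_) ?_
  · have h2 := Finset.single_le_sum (f := fun j => |C j|) (fun i _ => abs_nonneg _)
      (Finset.mem_univ j)
    exact (hC j _ (mem_BB hz k)).trans ((le_abs_self _).trans (h2.trans hk))
  · rw [← hg2 _ (mem_BB hz k)]
    refine Finset.sum_congr rfl fun j _ => ?_
    unfold glue
    rw [idx_eq (k := k) (by simp)]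

end Pool.Agent.N290.RJ
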